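import Pool.Agent.H29.L2.Cover

/-!
Hodge equality for finite covers and the full Lueck approximation theorem.
-/

set_option autoImplicit false
set_option linter.style.haveILetI false

open MeasureTheory Filter Topology Set
open scoped ENNReal NNReal Matrix

noncomputable section

namespace Pool.H71.L2

open Pool.H3.L2 Pool.H29.Mom Pool.H29.L2

theorem bk_le_zk (C : BCx ℝ) (k : ℕ) : C.Bk k ≤ C.Zk k := by
  rintro v ⟨w, hw, rfl⟩
  refine ⟨fun s hs => ?_, ?_⟩
  · refine Finset.sum_eq_zero fun t _ => ?_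
    show w t * C.D t s = 0
    by_cases h : C.D t s = 0
    · rw [h, mul_zero]
    · have h1 := C.deg_D t s h
      rw [hw t (by omega), zero_mul]
  · rw [Matrix.vecMul_vecMul, C.D_D, Matrix.vecMul_zero]

/-- The other Hodge inequality. -/
theorem le_finrank_ker (B : BCx ℤ) (k : ℕ) : B.betti ℝ k ≤
    Module.finrank ℝ (LinearMap.ker ((lapZk B k).map (Int.cast : ℤ → ℝ)).mulVecLin) := by
  classical
  set A := (lapZk B k).map (Int.cast : ℤ → ℝ) with hA
  set BR := B.map (Int.castRingHom ℝ) with hBR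
  set M : Matrix B.S B.S ℝ := B.D.map (Int.cast : ℤ → ℝ) with hM
  let ψ : BR.Zk k →ₗ[ℝ] (BR.Bk k →ₗ[ℝ] ℝ) :=
    { toFun := fun z =>
        { toFun := fun b => ∑ s : B.S, z.1 s * b.1 s
          map_add' := fun b b' => by
            rw [← Finset.sum_add_distrib]
            exact Finset.sum_congr rfl fun s _ => mul_add _ _ _
          map_smul' := fun c b => by
            rw [RingHom.id_apply, smul_eq_mul, Finset.mul_sum]
            refine Finset.sum_congr rfl fun s _ => ?_
            show z.1 s * (c * b.1 s) = c * (z.1 s * b.1 s)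
            ring }
      map_add' := fun z z' => by
        ext b
        show ∑ s : B.S, (z.1 s + z'.1 s) * b.1 s = ∑ s : B.S, z.1 s * b.1 s + ∑ s : B.S, z'.1 s * b.1 s
        rw [← Finset.sum_add_distrib]
        exact Finset.sum_congr rfl fun s _ => add_mul _ _ _
      map_smul' := fun c z => by
        ext b
        show ∑ s : B.S, (c * z.1 s) * b.1 s = c * ∑ s : B.S, z.1 s * b.1 s
        rw [Finset.mul_sum]
        exact Finset.sum_congr rfl fun s _ => mul_assoc _ _ _ }
  have hmem : ∀ z : LinearMap.ker ψ, (fun u : {u : B.S // B.deg u = k} => z.1.1 u.1) ∈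
      LinearMap.ker A.mulVecLin := by
    intro z
    have hz1 : ∀ s : B.S, B.deg s ≠ k → z.1.1 s = 0 := fun s hs => z.1.2.1 s hs
    have hz2 : (fun s : B.S => z.1.1 s) ᵥ* M = 0 := z.1.2.2
    have hz3 : M *ᵥ (fun s : B.S => z.1.1 s) = 0 := by
      funext s
      rw [Pi.zero_apply]
      by_cases hs : B.deg s = k + 1
      · have w1 : ∀ t : B.S, B.deg t ≠ k + 1 → (Pi.single s (1 : ℝ) : B.S → ℝ) t = 0 := by
          intro t ht
          rw [Pi.single_apply, if_neg]
          rintro rfl
          exact ht hs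
        have w2 : (Pi.single s (1 : ℝ) : B.S → ℝ) ᵥ* M = fun t : B.S => M s t := by
          rw [Matrix.single_one_vecMul]
          rfl
        have hb : (fun t : B.S => M s t) ∈ BR.Bk k :=
          ⟨(Pi.single s (1 : ℝ) : B.S → ℝ), w1, w2⟩
        have h1 : ψ z.1 ⟨_, hb⟩ = 0 := by
          have h2 : ψ z.1 = 0 := z.2
          rw [h2]
          rfl
        have h3 : ∑ t : B.S, z.1.1 t * M s t = 0 := h1
        show ∑ t, M s t * z.1.1 t = 0
        rw [← h3]
        exact Finset.sum_congr rfl fun t _ => mul_comm _ _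
      · refine Finset.sum_eq_zero fun t _ => ?_
        show M s t * z.1.1 t = 0
        by_cases ht : B.deg t = k
        · have h4 : B.D s t = 0 := by
            by_contra h5
            exact hs ((B.deg_D s t h5).trans (by rw [ht]))
          rw [hM, Matrix.map_apply, h4, Int.cast_zero, zero_mul]
        · rw [hz1 t ht, mul_zero]
    have hz4 : ((lapZ B).map (Int.cast : ℤ → ℝ)) *ᵥ (fun s : B.S => z.1.1 s) = 0 := by
      rw [map_lapZ, Matrix.add_mulVec, ← Matrix.mulVec_mulVec, ← Matrix.mulVec_mulVec, ← hM, hz3,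
        Matrix.mulVec_zero, add_zero, Matrix.mulVec_transpose, hz2, Matrix.mulVec_zero]
    rw [LinearMap.mem_ker, Matrix.mulVecLin_apply]
    funext u
    have h5 := congrFun hz4 u.1
    rw [Pi.zero_apply] at h5 ⊢
    rw [← h5]
    simp only [Matrix.mulVec, dotProduct]
    symm
    rw [← Finset.sum_filter_add_sum_filter_not Finset.univ (fun x => B.deg x = k)]
    have h6 : ∑ x ∈ Finset.univ.filter (fun x => ¬ B.deg x = k),
        ((lapZ B).map (Int.cast : ℤ → ℝ)) u.1 x * z.1.1 x = 0 := by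
      refine Finset.sum_eq_zero fun x hx => ?_
      rw [hz1 x (Finset.mem_filter.1 hx).2, mul_zero]
    rw [h6, add_zero, Finset.sum_subtype (Finset.univ.filter fun u => B.deg u = k)
      (p := fun u => B.deg u = k) (fun x => by simp)]
    rfl
  let g : LinearMap.ker ψ →ₗ[ℝ] LinearMap.ker A.mulVecLin :=
    { toFun := fun z => ⟨_, hmem z⟩
      map_add' := fun _ _ => rfl
      map_smul' := fun _ _ => rfl }
  have hg : Function.Injective g := by
    intro z z' h
    have h1 : (fun u : {u : B.S // B.deg u = k} => z.1.1 u.1) =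
        fun u : {u : B.S // B.deg u = k} => z'.1.1 u.1 := congrArg Subtype.val h
    apply Subtype.ext
    apply Subtype.ext
    funext s
    by_cases hs : B.deg s = k
    · exact congrFun h1 ⟨s, hs⟩
    · exact (z.1.2.1 s hs).trans (z'.1.2.1 s hs).symm
  have e1 := LinearMap.finrank_le_finrank_of_injective hg
  have e2 := LinearMap.finrank_range_add_finrank_ker ψ
  have e3 : Module.finrank ℝ (LinearMap.range ψ) ≤ Module.finrank ℝ (BR.Bk k →ₗ[ℝ] ℝ) :=
    Submodule.finrank_le _
  have e4 : Module.finrank ℝ (BR.Bk k →ₗ[ℝ] ℝ) = Module.finrank ℝ (BR.Bk k) :=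
    Subspace.dual_finrank_eq
  have e5 : Module.finrank ℝ (BR.Hk k) + Module.finrank ℝ (BR.Bk k) =
      Module.finrank ℝ (BR.Zk k) := by
    rw [← (Submodule.submoduleOfEquivOfLe (bk_le_zk BR k)).finrank_eq]
    exact Submodule.finrank_quotient_add_finrank _
  have e6 : B.betti ℝ k = Module.finrank ℝ (BR.Hk k) := rfl
  omega

theorem finrank_ker_eq (B : BCx ℤ) (k : ℕ) :
    Module.finrank ℝ (LinearMap.ker ((lapZk B k).map (Int.cast : ℤ → ℝ)).mulVecLin) =
      B.betti ℝ k := le_antisymm (finrank_ker_le B k) (le_finrank_ker B k)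

variable {Γ : Type} [Group Γ]

/-- the spectral measure of a finite cover, with the exact atom -/
theorem cover_meas_eq (C : BCx (GR Γ)) (k : ℕ) {R : ℝ}
    (hR : ∀ (Q : Type) [Group Q] [Fintype Q] (φ : Γ →* Q)
      (u : C.S × Q), ∑ v : C.S × Q, |((regM φ C.Lap u v : ℤ) : ℝ)| ≤ R)
    (N : Subgroup Γ) [N.Normal] [N.FiniteIndex] :
    ∃ μ : Measure ℝ, On R μ ∧
      (∀ n, ∫ x, x ^ n ∂μ = ((∑ s : C.S, if C.deg s = k then
        (MonoidAlgebra.mapDomain (QuotientGroup.mk' N) ((C.Lap ^ n) s s)).coeff 1 else 0 : ℤ) : ℝ)) ∧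
      Integrable Real.log μ ∧ 0 ≤ ∫ x, Real.log x ∂μ ∧
      μ.real {0} = ((C.cover N).betti ℝ k : ℝ) / (N.index : ℝ) := by
  letI : Fintype (Γ ⧸ N) := Fintype.ofFinite _
  letI : DecidableEq (Γ ⧸ N) := Classical.decEq _
  set φ := QuotientGroup.mk' N with hφ
  have hcard : (Fintype.card (Γ ⧸ N) : ℝ) ≠ 0 := by
    exact_mod_cast Fintype.card_ne_zero
  have hidx : (N.index : ℝ) = (Fintype.card (Γ ⧸ N) : ℝ) := by
    rw [Subgroup.index, Nat.card_eq_fintype_card]
  obtain ⟨μ, h1, h2, h3, h4, h5⟩ := exists_meas (lapZk (C.quot φ) k) (lapZk_psd (C.quot φ) k)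
    (R := R) (fun u => by
      refine le_trans ?_ (hR (Γ ⧸ N) φ u.1)
      have h6 : ∑ v : {v : (C.quot φ).S // (C.quot φ).deg v = k},
          |((lapZk (C.quot φ) k u v : ℤ) : ℝ)| =
          ∑ v ∈ Finset.univ.filter (fun v : (C.quot φ).S => (C.quot φ).deg v = k),
            |((regM φ C.Lap u.1 v : ℤ) : ℝ)| := by
        rw [Finset.sum_subtype (Finset.univ.filter fun v => (C.quot φ).deg v = k)
          (p := fun v => (C.quot φ).deg v = k) (fun x => by simp)]
        refine Finset.sum_congr rfl fun v _ => ?_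
        rw [lapZk, Matrix.submatrix_apply, lapZ_quot]
      rw [h6]
      exact Finset.sum_le_sum_of_subset_of_nonneg (Finset.filter_subset _ _)
        fun _ _ _ => abs_nonneg _)
    (c := ((Fintype.card (Γ ⧸ N) : ℝ))⁻¹) (by positivity)
  refine ⟨μ, h1, fun n => ?_, h3, h4, ?_⟩
  · rw [h2 n, trace_quot]
    push_cast
    rw [← mul_assoc, inv_mul_cancel₀ hcard, one_mul]
  · rw [h5, hidx, div_eq_inv_mul, finrank_ker_eq]
    rfl

/-- **Lueck's approximation theorem** with log-integrability. -/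
theorem luck_eq {C : BCx (GR Γ)} {k : ℕ} {μ : Measure ℝ} (hμ : C.IsSpectral k μ)
    (c : ResChain Γ) :
    Tendsto (fun i => ((C.cover (c.N i)).betti ℝ k : ℝ) / ((c.N i).index : ℝ)) atTop
      (𝓝 (μ.real {0})) ∧ IntegrableOn Real.log (Ioi 0) μ := by
  obtain ⟨R, hR⟩ := exists_R C
  choose κ h1 h2 h3 h4 h5 using fun i => cover_meas_eq C k hR (c.N i)
  obtain ⟨R', hR'⟩ := isSpectral_on hμ
  have hon : On (max R R') μ := hR'.mono (le_max_right _ _)
  haveI := hμ.finite
  obtain ⟨a1, a2, -⟩ := lueck (fun i => (h1 i).mono (le_max_left R R')) hon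
    (fun n => by
      rw [hμ.moment n]
      refine Tendsto.congr' ?_ tendsto_const_nhds
      filter_upwards [eventually_moment C c k n] with i hi
      rw [h2 i n, hi]) h3 h4
  refine ⟨?_, (integrableOn_log hon).2 a2⟩
  exact a1.congr fun i => h5 i

end Pool.H71.L2
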