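import Pool.Agent.H71.L2.Free

/-!
Upper bound for the torsion in the homology of a tensor product.
-/

set_option autoImplicit false

open scoped BigOperators Kronecker
open Matrix Pool.H3.L2 Pool.H16.L2

noncomputable section

namespace Pool.H71.L2

theorem card_le_ker_mul {G H : Type} [AddCommGroup G] [AddCommGroup H] [Finite H] (f : G →+ H) :
    Nat.card G ≤ Nat.card f.ker * Nat.card H := by
  rw [← AddSubgroup.card_mul_index f.ker, AddSubgroup.index_ker]
  exact Nat.mul_le_mul_left _ (Nat.card_le_card_of_injective _ f.range.subtype_injective)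

theorem finite_torsion (C : BCx ℤ) (k : ℕ) : Finite (Submodule.torsion ℤ (C.Hk k)) := by
  have h1 : Module.Finite ℤ (Submodule.torsion ℤ (C.Hk k)) := inferInstance
  exact Module.finite_of_fg_torsion _ (Submodule.torsion_isTorsion)

theorem finite_torsionBy (C : BCx ℤ) (k : ℕ) {N : ℤ} (hN : N ≠ 0) :
    Finite (Submodule.torsionBy ℤ (C.Hk k) N) := by
  have := finite_torsion C k
  refine Finite.of_injective (fun x : Submodule.torsionBy ℤ (C.Hk k) N =>
    (⟨x.1, ?_⟩ : Submodule.torsion ℤ (C.Hk k))) fun x y h => Subtype.ext (Subtype.mk.inj h)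
  rw [Submodule.mem_torsion_iff]
  exact ⟨⟨N, mem_nonZeroDivisors_of_ne_zero hN⟩, (Submodule.mem_torsionBy_iff N x.1).1 x.2⟩

/-- Torsion and retracts. -/
theorem Ret.torsOrd_le {A F : BCx ℤ} {N : ℤ} (hN : N ≠ 0) (r : Ret A F N) (k : ℕ) :
    A.torsOrd k ≤ Nat.card (Submodule.torsionBy ℤ (A.Hk k) N) * F.torsOrd k := by
  have := finite_torsion F k
  have := finite_torsionBy A k hN
  have hm : ∀ x : Submodule.torsion ℤ (A.Hk k), r.mapH k x.1 ∈ Submodule.torsion ℤ (F.Hk k) := by
    intro x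
    obtain ⟨a, ha⟩ := (Submodule.mem_torsion_iff _).1 x.2
    rw [Submodule.mem_torsion_iff]
    refine ⟨a, ?_⟩
    have h1 : a • r.mapH k x.1 = r.mapH k (a • x.1) := ((r.mapH k).map_smul (a : ℤ) _).symm
    rw [h1, ha, map_zero]
  let f : Submodule.torsion ℤ (A.Hk k) →+ Submodule.torsion ℤ (F.Hk k) :=
    { toFun := fun x => ⟨r.mapH k x.1, hm x⟩
      map_zero' := Subtype.ext (map_zero _)
      map_add' := fun x y => Subtype.ext (map_add _ _ _) }
  refine (card_le_ker_mul f).trans (Nat.mul_le_mul_right _ ?_)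
  refine Nat.card_le_card_of_injective (fun x : f.ker =>
    (⟨x.1.1, (Submodule.mem_torsionBy_iff N _).2 (r.smul_eq_zero x.1.1
      (congrArg Subtype.val (show f x.1 = 0 from x.2)))⟩ :
        Submodule.torsionBy ℤ (A.Hk k) N)) fun x y h => ?_
  exact Subtype.ext (Subtype.ext (Subtype.mk.inj h))

theorem card_torsionBy_mul (C : BCx ℤ) (k : ℕ) {p M : ℕ} (hp : p ≠ 0) (hM : M ≠ 0) :
    Nat.card (Submodule.torsionBy ℤ (C.Hk k) ((p * M : ℕ) : ℤ)) ≤
      Nat.card (Submodule.torsionBy ℤ (C.Hk k) (p : ℤ)) *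
        Nat.card (Submodule.torsionBy ℤ (C.Hk k) (M : ℤ)) := by
  have h1 := finite_torsionBy C k (N := (p : ℤ)) (by exact_mod_cast hp)
  have h2 := finite_torsionBy C k (N := (M : ℤ)) (by exact_mod_cast hM)
  let f : Submodule.torsionBy ℤ (C.Hk k) ((p * M : ℕ) : ℤ) →+
      Submodule.torsionBy ℤ (C.Hk k) (M : ℤ) :=
    { toFun := fun x => ⟨(p : ℤ) • x.1, by
        have hx : ((p * M : ℕ) : ℤ) • x.1 = 0 := (Submodule.mem_torsionBy_iff _ _).1 x.2
        rw [Submodule.mem_torsionBy_iff, smul_smul]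
        have e : (M : ℤ) * (p : ℤ) = ((p * M : ℕ) : ℤ) := by push_cast; ring
        rw [e]
        exact hx⟩
      map_zero' := Subtype.ext (smul_zero _)
      map_add' := fun x y => Subtype.ext (smul_add _ _ _) }
  refine (card_le_ker_mul f).trans (Nat.mul_le_mul_right _ ?_)
  refine Nat.card_le_card_of_injective (fun x : f.ker =>
    (⟨x.1.1, (Submodule.mem_torsionBy_iff (p : ℤ) _).2
      (congrArg Subtype.val (show f x.1 = 0 from x.2))⟩ :
        Submodule.torsionBy ℤ (C.Hk k) (p : ℤ))) fun x y h => ?_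
  exact Subtype.ext (Subtype.ext (Subtype.mk.inj h))

/-- The `p`-torsion of the homology is bounded by the homology with coefficients in `𝔽_p`. -/
theorem card_torsionBy_prime (C : BCx ℤ) (k p : ℕ) [hp : Fact p.Prime] :
    Nat.card (Submodule.torsionBy ℤ (C.Hk k) (p : ℤ)) ≤ p ^ C.betti (ZMod p) (k + 1) := by
  classical
  set f := Int.castRingHom (ZMod p) with hf
  have hp0 : (p : ℤ) ≠ 0 := by exact_mod_cast hp.1.ne_zero
  have hfin : Finite ((C.map f).Hk (k + 1)) := by
    have : Finite (C.S → ZMod p) := inferInstance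
    have h2 : Finite ((C.map f).Zk (k + 1)) := Finite.of_injective
      (fun v : (C.map f).Zk (k + 1) => (show C.S → ZMod p from v.1)) Subtype.val_injective
    exact Finite.of_surjective _ (Submodule.mkQ_surjective
      (((C.map f).Bk (k + 1)).submoduleOf ((C.map f).Zk (k + 1))))
  have hcard : Nat.card ((C.map f).Hk (k + 1)) = p ^ C.betti (ZMod p) (k + 1) := by
    have : Fintype ((C.map f).Hk (k + 1)) := Fintype.ofFinite _
    rw [Nat.card_eq_fintype_card, Module.card_eq_pow_finrank (K := ZMod p), ZMod.card]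
    rfl
  rw [← hcard]
  -- representatives
  have hrep : ∀ x : Submodule.torsionBy ℤ (C.Hk k) (p : ℤ), ∃ (v : C.Zk k) (w : C.S → ℤ),
      (Submodule.Quotient.mk v : C.Hk k) = x.1 ∧ (∀ s, C.deg s ≠ k + 1 → w s = 0) ∧
        Matrix.vecMul w C.D = (p : ℤ) • (v : C.S → ℤ) := by
    intro x
    obtain ⟨v, hv⟩ := Submodule.Quotient.mk_surjective _ x.1
    have h1 := (Submodule.mem_torsionBy_iff (p : ℤ) x.1).1 x.2
    rw [← hv, ← Submodule.Quotient.mk_smul, Hk_mk_eq_zero] at h1
    obtain ⟨w, hw, hwD⟩ := h1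
    exact ⟨v, w, hv, hw, hwD⟩
  choose v w hv hw hwD using hrep
  have hz : ∀ x, (fun s => f (w x s)) ∈ (C.map f).Zk (k + 1) := by
    intro x
    refine ⟨fun s hs => ?_, ?_⟩
    · show f (w x s) = 0
      rw [hw x s hs, map_zero]
    · funext t
      have h1 := congrFun (hwD x) t
      have h2 : f (Matrix.vecMul (w x) C.D t) = f ((p : ℤ) * (v x : C.S → ℤ) t) :=
        congrArg f h1
      have h3 : f (p : ℤ) = 0 := by
        rw [hf, map_natCast]
        exact ZMod.natCast_self p
      rw [map_mul, h3, zero_mul] at h2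
      refine Eq.trans ?_ h2
      show ∑ s, f (w x s) * f (C.D s t) = f (∑ s, w x s * C.D s t)
      rw [map_sum]
      exact Finset.sum_congr rfl fun s _ => (map_mul f _ _).symm
  refine Nat.card_le_card_of_injective (fun x =>
    (Submodule.Quotient.mk (⟨fun s => f (w x s), hz x⟩ : (C.map f).Zk (k + 1)) :
      (C.map f).Hk (k + 1))) fun x y hxy => ?_
  have h1 := (Submodule.Quotient.eq _).1 hxy
  obtain ⟨u, hu, huD⟩ := (show (fun s => f (w x s) - f (w y s)) ∈ (C.map f).Bk (k + 1) from h1)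
  -- lift `u`
  have hlift : ∀ a : ZMod p, ∃ b : ℤ, f b = a := fun a => ZMod.intCast_surjective a
  choose g hg using hlift
  set ut : C.S → ℤ := fun s => if C.deg s = k + 1 + 1 then g (u s) else 0 with hut
  have hfu : ∀ s, f (ut s) = u s := by
    intro s
    rw [hut]
    by_cases h : C.deg s = k + 1 + 1
    · simp only [if_pos h]
      exact hg _
    · simp only [if_neg h, map_zero]
      exact (hu s h).symm
  have hdiv : ∀ s, ∃ c : ℤ, w x s - w y s - Matrix.vecMul ut C.D s = (p : ℤ) * c ∧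
      (C.deg s ≠ k + 1 → c = 0) := by
    intro s
    have h2 : f (w x s - w y s - Matrix.vecMul ut C.D s) = 0 := by
      have h3 := congrFun huD s
      have h4 : f (Matrix.vecMul ut C.D s) = f (w x s) - f (w y s) := by
        refine Eq.trans ?_ h3
        show f (∑ t, ut t * C.D t s) = ∑ t, u t * f (C.D t s)
        rw [map_sum]
        exact Finset.sum_congr rfl fun t _ => by rw [map_mul, hfu]
      rw [map_sub, map_sub, h4, sub_self]
    have h5 : (p : ℤ) ∣ w x s - w y s - Matrix.vecMul ut C.D s :=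
      (ZMod.intCast_zmod_eq_zero_iff_dvd _ p).1 h2
    by_cases hs : C.deg s = k + 1
    · obtain ⟨c, hc⟩ := h5
      exact ⟨c, hc, fun h => absurd hs h⟩
    · refine ⟨0, ?_, fun _ => rfl⟩
      have h6 : Matrix.vecMul ut C.D s = 0 := by
        refine Finset.sum_eq_zero fun t _ => ?_
        show ut t * C.D t s = 0
        by_cases h7 : C.D t s = 0
        · rw [h7, mul_zero]
        · have h8 := C.deg_D t s h7
          rw [hut]
          simp only
          rw [if_neg (by omega), zero_mul]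
      rw [hw x s hs, hw y s hs, h6]
      simp
  choose c hc hc0 using hdiv
  have hB : ((v x : C.S → ℤ) - (v y : C.S → ℤ)) ∈ C.Bk k := by
    refine ⟨c, hc0, ?_⟩
    have h2 : (p : ℤ) • Matrix.vecMul c C.D = (p : ℤ) • ((v x : C.S → ℤ) - (v y : C.S → ℤ)) := by
      have h3 : (p : ℤ) • c = w x - w y - Matrix.vecMul ut C.D := by
        funext s
        rw [Pi.smul_apply, smul_eq_mul, ← hc s]
        rfl
      rw [← Matrix.smul_vecMul, h3, Matrix.sub_vecMul, Matrix.sub_vecMul, hwD x, hwD y,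
        Matrix.vecMul_vecMul, C.D_D, Matrix.vecMul_zero, sub_zero, smul_sub]
    funext s
    have h4 := congrFun h2 s
    rw [Pi.smul_apply, Pi.smul_apply, smul_eq_mul, smul_eq_mul] at h4
    exact mul_left_cancel₀ hp0 h4
  apply Subtype.ext
  rw [← hv x, ← hv y, Submodule.Quotient.eq]
  exact hB

theorem card_torsionBy_le (C : BCx ℤ) (k β : ℕ) : ∀ N : ℕ, N ≠ 0 →
    (∀ (p : ℕ) [Fact p.Prime], p ∣ N → C.betti (ZMod p) (k + 1) ≤ β) →
    Nat.card (Submodule.torsionBy ℤ (C.Hk k) (N : ℤ)) ≤ N ^ β := by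
  intro N
  induction N using induction_on_primes with
  | zero => intro h; exact absurd rfl h
  | one =>
    intro _ _
    rw [one_pow]
    have : Subsingleton (Submodule.torsionBy ℤ (C.Hk k) ((1 : ℕ) : ℤ)) := by
      refine ⟨fun x y => Subtype.ext ?_⟩
      have h0 : ∀ z : C.Hk k, ((1 : ℕ) : ℤ) • z = 0 → z = 0 := by
        intro z hz
        rwa [Nat.cast_one, one_smul] at hz
      rw [h0 x.1 ((Submodule.mem_torsionBy_iff _ _).1 x.2),
        h0 y.1 ((Submodule.mem_torsionBy_iff _ _).1 y.2)]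
    exact Finite.card_le_one_iff_subsingleton.2 this
  | prime_mul p M hp ih =>
    intro h0 h
    have hM : M ≠ 0 := fun h1 => h0 (by rw [h1, mul_zero])
    have : Fact p.Prime := ⟨hp⟩
    refine (card_torsionBy_mul C k hp.ne_zero hM).trans ?_
    rw [mul_pow]
    refine Nat.mul_le_mul ?_ (ih hM fun q _ hq => h q (hq.mul_left p))
    exact (card_torsionBy_prime C k p).trans
      (Nat.pow_le_pow_right hp.pos (h p (dvd_mul_right p M)))

end Pool.H71.L2
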