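import Pool.Agent.H71.L2.Bound

/-!
The cover of an exterior tensor product is the tensor product of the covers.
-/

set_option autoImplicit false

open scoped BigOperators Kronecker
open Matrix Pool.H3.L2

noncomputable section

namespace Pool.H71.L2

section iso

variable {R : Type} [CommRing R] (A B : BCx R) (e : A.S ≃ B.S)

/-- The retract given by an isomorphism of based complexes. -/
def isoRet (hdeg : ∀ s, B.deg (e s) = A.deg s) (hD : ∀ s t, B.D (e s) (e t) = A.D s t) :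
    Ret A B 1 where
  W := (1 : Matrix B.S B.S R).submatrix e id
  Z := (1 : Matrix B.S B.S R).submatrix id e
  h := 0
  W_deg := by
    intro s i hne
    rw [Matrix.submatrix_apply, Matrix.one_apply_ne]
    rintro h
    apply hne
    rw [← hdeg, h]
    rfl
  Z_deg := by
    intro i s hne
    rw [Matrix.submatrix_apply, Matrix.one_apply_ne]
    rintro h
    apply hne
    rw [← hdeg, ← h]
    rfl
  h_deg := fun _ _ _ => rfl
  WD := by
    have hA : A.D = B.D.submatrix e e := by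
      ext s t
      exact (hD s t).symm
    rw [hA, Matrix.submatrix_mul_equiv, Matrix.mul_one]
    have h1 : (1 : Matrix B.S B.S R).submatrix e id * B.D = (1 * B.D).submatrix e id := by
      rw [Matrix.submatrix_mul _ _ _ id _ Function.bijective_id, Matrix.submatrix_id_id]
    rw [h1, Matrix.one_mul]
  ZD := by
    have hA : A.D = B.D.submatrix e e := by
      ext s t
      exact (hD s t).symm
    rw [hA, Matrix.submatrix_mul_equiv, Matrix.one_mul]
    have h1 : B.D * (1 : Matrix B.S B.S R).submatrix id e = (B.D * 1).submatrix id e := by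
      rw [Matrix.submatrix_mul _ _ _ id _ Function.bijective_id, Matrix.submatrix_id_id]
    rw [h1, Matrix.mul_one]
  id := by
    rw [Matrix.mul_zero, Matrix.zero_mul, add_zero, add_zero]
    have h1 : (1 : Matrix B.S B.S R).submatrix e id * (1 : Matrix B.S B.S R).submatrix id e =
        ((1 : Matrix B.S B.S R) * 1).submatrix e e := by
      rw [Matrix.submatrix_mul _ _ _ id _ Function.bijective_id]
    rw [h1, Matrix.mul_one, Matrix.submatrix_one_equiv]

end iso

theorem torsOrd_congr (A B : BCx ℤ) (e : A.S ≃ B.S) (hdeg : ∀ s, B.deg (e s) = A.deg s)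
    (hD : ∀ s t, B.D (e s) (e t) = A.D s t) (k : ℕ) : A.torsOrd k = B.torsOrd k := by
  have key : ∀ (A B : BCx ℤ) (r : Ret A B 1), A.torsOrd k ≤ B.torsOrd k := by
    intro A B r
    have h1 := r.torsOrd_le one_ne_zero k
    have h2 : Subsingleton (Submodule.torsionBy ℤ (A.Hk k) 1) := by
      refine ⟨fun x y => Subtype.ext ?_⟩
      have h0 : ∀ z : A.Hk k, (1 : ℤ) • z = 0 → z = 0 := fun z hz => by rwa [one_smul] at hz
      rw [h0 x.1 ((Submodule.mem_torsionBy_iff _ _).1 x.2),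
        h0 y.1 ((Submodule.mem_torsionBy_iff _ _).1 y.2)]
    have h3 : Nat.card (Submodule.torsionBy ℤ (A.Hk k) 1) ≤ 1 :=
      Finite.card_le_one_iff_subsingleton.2 h2
    exact h1.trans ((Nat.mul_le_mul_right _ h3).trans (Nat.one_mul _).le)
  refine le_antisymm (key A B (isoRet A B e hdeg hD)) (key B A (isoRet B A e.symm ?_ ?_))
  · intro s
    rw [← hdeg, e.apply_symm_apply]
  · intro s t
    rw [← hD, e.apply_symm_apply, e.apply_symm_apply]

section prod

variable {G1 G2 : Type} [Group G1] [Group G2]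

theorem coeff_inl {Q Q1 Q2 : Type} [Group Q] [Group Q1] [Group Q2] [DecidableEq Q2]
    (φ : G1 × G2 →* Q) (φ1 : G1 →* Q1) (φ2 : G2 →* Q2) (ψ : Q ≃* Q1 × Q2)
    (hψ : ∀ g, ψ (φ g) = (φ1 g.1, φ2 g.2)) (a : GR G1) (q : Q) :
    (MonoidAlgebra.mapDomain φ (inlR G1 G2 a)).coeff q =
      if (ψ q).2 = 1 then (MonoidAlgebra.mapDomain φ1 a).coeff (ψ q).1 else 0 := by
  classical
  induction a using MonoidAlgebra.induction_linear with
  | zero => simp
  | add a b ha hb =>
    rw [map_add, MonoidAlgebra.mapDomain_add, MonoidAlgebra.mapDomain_add, MonoidAlgebra.coeff_add,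
      MonoidAlgebra.coeff_add, Finsupp.add_apply, Finsupp.add_apply, ha, hb]
    split_ifs <;> simp
  | single g r =>
    have h1 : inlR G1 G2 (MonoidAlgebra.single g r) = MonoidAlgebra.single (g, 1) r := by
      simp [inlR, MonoidAlgebra.mapDomainRingHom, MonoidAlgebra.mapDomain_single]
    rw [h1, MonoidAlgebra.mapDomain_single, MonoidAlgebra.mapDomain_single,
      MonoidAlgebra.coeff_single, MonoidAlgebra.coeff_single, Finsupp.single_apply,
      Finsupp.single_apply]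
    have h2 : (φ (g, 1) = q) ↔ ((ψ q).2 = 1 ∧ φ1 g = (ψ q).1) := by
      rw [← ψ.injective.eq_iff, hψ]
      simp only [map_one]
      constructor
      · intro h
        rw [← h]
        exact ⟨rfl, rfl⟩
      · rintro ⟨h3, h4⟩
        exact Prod.ext h4 h3.symm
    by_cases h3 : (ψ q).2 = 1
    · by_cases h4 : φ1 g = (ψ q).1
      · rw [if_pos (h2.2 ⟨h3, h4⟩), if_pos h3, if_pos h4]
      · rw [if_neg (fun h => h4 (h2.1 h).2), if_pos h3, if_neg h4]
    · rw [if_neg (fun h => h3 (h2.1 h).1), if_neg h3]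

theorem coeff_inr {Q Q1 Q2 : Type} [Group Q] [Group Q1] [Group Q2] [DecidableEq Q1]
    (φ : G1 × G2 →* Q) (φ1 : G1 →* Q1) (φ2 : G2 →* Q2) (ψ : Q ≃* Q1 × Q2)
    (hψ : ∀ g, ψ (φ g) = (φ1 g.1, φ2 g.2)) (a : GR G2) (q : Q) :
    (MonoidAlgebra.mapDomain φ (inrR G1 G2 a)).coeff q =
      if (ψ q).1 = 1 then (MonoidAlgebra.mapDomain φ2 a).coeff (ψ q).2 else 0 := by
  classical
  induction a using MonoidAlgebra.induction_linear with
  | zero => simp
  | add a b ha hb =>
    rw [map_add, MonoidAlgebra.mapDomain_add, MonoidAlgebra.mapDomain_add, MonoidAlgebra.coeff_add,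
      MonoidAlgebra.coeff_add, Finsupp.add_apply, Finsupp.add_apply, ha, hb]
    split_ifs <;> simp
  | single g r =>
    have h1 : inrR G1 G2 (MonoidAlgebra.single g r) = MonoidAlgebra.single (1, g) r := by
      simp [inrR, MonoidAlgebra.mapDomainRingHom, MonoidAlgebra.mapDomain_single]
    rw [h1, MonoidAlgebra.mapDomain_single, MonoidAlgebra.mapDomain_single,
      MonoidAlgebra.coeff_single, MonoidAlgebra.coeff_single, Finsupp.single_apply,
      Finsupp.single_apply]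
    have h2 : (φ (1, g) = q) ↔ ((ψ q).1 = 1 ∧ φ2 g = (ψ q).2) := by
      rw [← ψ.injective.eq_iff, hψ]
      simp only [map_one]
      constructor
      · intro h
        rw [← h]
        exact ⟨rfl, rfl⟩
      · rintro ⟨h3, h4⟩
        exact Prod.ext h3.symm h4
    by_cases h3 : (ψ q).1 = 1
    · by_cases h4 : φ2 g = (ψ q).2
      · rw [if_pos (h2.2 ⟨h3, h4⟩), if_pos h3, if_pos h4]
      · rw [if_neg (fun h => h4 (h2.1 h).2), if_pos h3, if_neg h4]
    · rw [if_neg (fun h => h3 (h2.1 h).1), if_neg h3]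

/-- The quotient of the exterior tensor product, in terms of the quotients. -/
theorem quot_xtens_D (C1 : BCx (GR G1)) (C2 : BCx (GR G2)) {Q Q1 Q2 : Type} [Group Q] [Group Q1]
    [Group Q2] [Fintype Q] [Fintype Q1] [Fintype Q2] [DecidableEq Q] [DecidableEq Q1]
    [DecidableEq Q2] (φ : G1 × G2 →* Q) (φ1 : G1 →* Q1) (φ2 : G2 →* Q2) (ψ : Q ≃* Q1 × Q2)
    (hψ : ∀ g, ψ (φ g) = (φ1 g.1, φ2 g.2)) (s1 t1 : C1.S) (s2 t2 : C2.S) (q q' : Q) :
    (show Matrix ((C1.S × C2.S) × Q) ((C1.S × C2.S) × Q) ℤ from ((C1.xtens C2).quot φ).D)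
      ((s1, s2), q) ((t1, t2), q') =
    (show Matrix ((C1.S × Q1) × (C2.S × Q2)) ((C1.S × Q1) × (C2.S × Q2)) ℤ from
      ((C1.quot φ1).tens (C2.quot φ2)).D)
      ((s1, (ψ q).1), (s2, (ψ q).2)) ((t1, (ψ q').1), (t2, (ψ q').2)) := by
  classical
  have hL : (show Matrix ((C1.S × C2.S) × Q) ((C1.S × C2.S) × Q) ℤ from
      ((C1.xtens C2).quot φ).D) ((s1, s2), q) ((t1, t2), q') =
      (MonoidAlgebra.mapDomain φ ((if s2 = t2 then inlR G1 G2 (C1.D s1 t1) else 0) +
        (sgnM (GR (G1 × G2)) C1.deg s1 t1) * inrR G1 G2 (C2.D s2 t2))).coeff (q⁻¹ * q') := by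
    have h1 : (show Matrix (C1.S × C2.S) (C1.S × C2.S) (GR (G1 × G2)) from (C1.xtens C2).D)
        (s1, s2) (t1, t2) = (if s2 = t2 then inlR G1 G2 (C1.D s1 t1) else 0) +
        (sgnM (GR (G1 × G2)) C1.deg s1 t1) * inrR G1 G2 (C2.D s2 t2) := by
      have h2 : (show Matrix (C1.S × C2.S) (C1.S × C2.S) (GR (G1 × G2)) from (C1.xtens C2).D) =
          lft C2.S (C1.D.map (inlR G1 G2)) +
            lft C2.S (sgnM (GR (G1 × G2)) C1.deg) * rgt C1.S (C2.D.map (inrR G1 G2)) := rfl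
      rw [h2, Matrix.add_apply, lft_mul_rgt]
      rfl
    rw [← h1]
    rfl
  have hR : (show Matrix ((C1.S × Q1) × (C2.S × Q2)) ((C1.S × Q1) × (C2.S × Q2)) ℤ from
      ((C1.quot φ1).tens (C2.quot φ2)).D)
      ((s1, (ψ q).1), (s2, (ψ q).2)) ((t1, (ψ q').1), (t2, (ψ q').2)) =
      (if ((s2, (ψ q).2) : C2.S × Q2) = (t2, (ψ q').2) then
        (MonoidAlgebra.mapDomain φ1 (C1.D s1 t1)).coeff ((ψ q).1⁻¹ * (ψ q').1) else 0) +
      (if ((s1, (ψ q).1) : C1.S × Q1) = (t1, (ψ q').1) then (-1) ^ C1.deg s1 else 0) *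
        (MonoidAlgebra.mapDomain φ2 (C2.D s2 t2)).coeff ((ψ q).2⁻¹ * (ψ q').2) := by
    have h2 : (show Matrix ((C1.S × Q1) × (C2.S × Q2)) ((C1.S × Q1) × (C2.S × Q2)) ℤ from
        ((C1.quot φ1).tens (C2.quot φ2)).D) =
        lft (C2.S × Q2) ((regM φ1 C1.D).map (RingHom.id ℤ)) +
          lft (C2.S × Q2) (sgnM ℤ (fun s : C1.S × Q1 => C1.deg s.1)) *
            rgt (C1.S × Q1) ((regM φ2 C2.D).map (RingHom.id ℤ)) := rfl
    rw [h2, Matrix.add_apply, lft_mul_rgt, sgnM, Matrix.diagonal_apply]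
    rfl
  rw [hL, hR, MonoidAlgebra.mapDomain_add, MonoidAlgebra.coeff_add, Finsupp.add_apply]
  have hq : ψ (q⁻¹ * q') = ((ψ q).1⁻¹ * (ψ q').1, (ψ q).2⁻¹ * (ψ q').2) := by
    rw [map_mul, map_inv]
    rfl
  congr 1
  · by_cases h1 : s2 = t2
    · rw [if_pos h1, coeff_inl φ φ1 φ2 ψ hψ, hq]
      by_cases h2 : (ψ q).2 = (ψ q').2
      · rw [if_pos (by rw [h2, inv_mul_cancel]), if_pos (by rw [h1, h2])]
      · rw [if_neg (fun h => h2 (inv_mul_eq_one.1 h)), if_neg]
        intro h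
        exact h2 (Prod.mk.inj h).2
    · rw [if_neg h1, if_neg (fun h => h1 (Prod.mk.inj h).1)]
      simp
  · by_cases h1 : s1 = t1
    · subst h1
      have h3 : (sgnM (GR (G1 × G2)) C1.deg s1 s1) * inrR G1 G2 (C2.D s2 t2) =
          ((-1 : ℤ) ^ C1.deg s1) • inrR G1 G2 (C2.D s2 t2) := by
        rw [sgnM, Matrix.diagonal_apply_eq]
        rcases neg_one_pow_eq_or ℤ (C1.deg s1) with h4 | h4
        · rw [h4, one_smul]
          have h5 : Even (C1.deg s1) := by
            by_contra h6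
            rw [(Nat.not_even_iff_odd.1 h6).neg_one_pow] at h4
            norm_num at h4
          rw [h5.neg_one_pow, one_mul]
        · rw [h4, neg_one_smul]
          have h5 : Odd (C1.deg s1) := by
            by_contra h6
            rw [(Nat.not_odd_iff_even.1 h6).neg_one_pow] at h4
            norm_num at h4
          rw [h5.neg_one_pow, neg_one_mul]
      have h4 : MonoidAlgebra.mapDomain φ (((-1 : ℤ) ^ C1.deg s1) • inrR G1 G2 (C2.D s2 t2)) =
          ((-1 : ℤ) ^ C1.deg s1) • MonoidAlgebra.mapDomain φ (inrR G1 G2 (C2.D s2 t2)) :=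
        map_zsmul (MonoidAlgebra.mapDomainRingHom ℤ φ) _ _
      rw [h3, h4]
      have h5 : ((((-1 : ℤ) ^ C1.deg s1) • MonoidAlgebra.mapDomain φ
          (inrR G1 G2 (C2.D s2 t2))).coeff (q⁻¹ * q')) = ((-1 : ℤ) ^ C1.deg s1) *
          (MonoidAlgebra.mapDomain φ (inrR G1 G2 (C2.D s2 t2))).coeff (q⁻¹ * q') := by
        rcases neg_one_pow_eq_or ℤ (C1.deg s1) with h6 | h6
        · rw [h6, one_smul, one_mul]
        · rw [h6, neg_one_smul, neg_one_mul, MonoidAlgebra.coeff_neg, Finsupp.neg_apply]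
      rw [h5, coeff_inr φ φ1 φ2 ψ hψ, hq]
      by_cases h2 : (ψ q).1 = (ψ q').1
      · rw [if_pos (by rw [h2, inv_mul_cancel]), if_pos (by rw [h2])]
      · rw [if_neg (fun h => h2 (inv_mul_eq_one.1 h)), if_neg, mul_zero, zero_mul]
        intro h
        exact h2 (Prod.mk.inj h).2
    · rw [sgnM, Matrix.diagonal_apply_ne _ h1, if_neg (fun h => h1 (Prod.mk.inj h).1)]
      simp

/-- The isomorphism of quotient groups. -/
def quotProd (N1 : Subgroup G1) (N2 : Subgroup G2) [N1.Normal] [N2.Normal]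
    [(N1.prod N2).Normal] : (G1 × G2) ⧸ (N1.prod N2) ≃* (G1 ⧸ N1) × (G2 ⧸ N2) :=
  let f : G1 × G2 →* (G1 ⧸ N1) × (G2 ⧸ N2) :=
    (QuotientGroup.mk' N1).prodMap (QuotientGroup.mk' N2)
  have hf : Function.Surjective f :=
    (QuotientGroup.mk'_surjective N1).prodMap (QuotientGroup.mk'_surjective N2)
  have hk : f.ker = N1.prod N2 := by
    ext ⟨x, y⟩
    show ((QuotientGroup.mk' N1 x, QuotientGroup.mk' N2 y) : (G1 ⧸ N1) × (G2 ⧸ N2)) = 1 ↔ _
    rw [Prod.mk_eq_one, Subgroup.mem_prod, QuotientGroup.mk'_apply, QuotientGroup.mk'_apply,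
      QuotientGroup.eq_one_iff, QuotientGroup.eq_one_iff]
  (QuotientGroup.quotientMulEquivOfEq hk.symm).trans
    (QuotientGroup.quotientKerEquivOfSurjective f hf)

theorem quotProd_mk (N1 : Subgroup G1) (N2 : Subgroup G2) [N1.Normal] [N2.Normal]
    [(N1.prod N2).Normal] (g : G1 × G2) :
    quotProd N1 N2 (QuotientGroup.mk' (N1.prod N2) g) =
      (QuotientGroup.mk' N1 g.1, QuotientGroup.mk' N2 g.2) := rfl

/-- Module M8: the torsion of the cover of an exterior product. -/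
theorem torsOrd_cover_xtens (C1 : BCx (GR G1)) (C2 : BCx (GR G2)) (N1 : Subgroup G1)
    (N2 : Subgroup G2) [N1.Normal] [N1.FiniteIndex] [N2.Normal] [N2.FiniteIndex]
    [(N1.prod N2).Normal] [(N1.prod N2).FiniteIndex] (k : ℕ) :
    ((C1.xtens C2).cover (N1.prod N2)).torsOrd k =
      ((C1.cover N1).tens (C2.cover N2)).torsOrd k := by
  let _ : Fintype (G1 ⧸ N1) := Fintype.ofFinite _
  let _ : DecidableEq (G1 ⧸ N1) := Classical.decEq _
  let _ : Fintype (G2 ⧸ N2) := Fintype.ofFinite _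
  let _ : DecidableEq (G2 ⧸ N2) := Classical.decEq _
  let _ : Fintype ((G1 × G2) ⧸ (N1.prod N2)) := Fintype.ofFinite _
  let _ : DecidableEq ((G1 × G2) ⧸ (N1.prod N2)) := Classical.decEq _
  set φ := QuotientGroup.mk' (N1.prod N2)
  set φ1 := QuotientGroup.mk' N1
  set φ2 := QuotientGroup.mk' N2
  set ψ := quotProd N1 N2 with hψ
  let e : (C1.S × C2.S) × ((G1 × G2) ⧸ (N1.prod N2)) ≃
      (C1.S × (G1 ⧸ N1)) × (C2.S × (G2 ⧸ N2)) :=
    { toFun := fun x => ((x.1.1, (ψ x.2).1), (x.1.2, (ψ x.2).2))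
      invFun := fun y => ((y.1.1, y.2.1), ψ.symm (y.1.2, y.2.2))
      left_inv := fun x => by
        obtain ⟨⟨s1, s2⟩, q⟩ := x
        show ((s1, s2), ψ.symm ((ψ q).1, (ψ q).2)) = ((s1, s2), q)
        rw [Prod.mk.eta, ψ.symm_apply_apply]
      right_inv := fun y => by
        obtain ⟨⟨s1, q1⟩, ⟨s2, q2⟩⟩ := y
        show ((s1, (ψ (ψ.symm (q1, q2))).1), (s2, (ψ (ψ.symm (q1, q2))).2)) = ((s1, q1), (s2, q2))
        rw [ψ.apply_symm_apply] }
  exact torsOrd_congr ((C1.xtens C2).quot φ) ((C1.quot φ1).tens (C2.quot φ2)) e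
    (fun _ => rfl)
    (fun x y => (quot_xtens_D C1 C2 φ φ1 φ2 ψ (fun _ => rfl) x.1.1 y.1.1 x.1.2 y.1.2 x.2 y.2).symm)
    k

end prod

end Pool.H71.L2
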