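import Pool.Agent.H71.L2.Ret

/-!
The zeroth Betti number of the finite covers is one, over every field.
-/

set_option autoImplicit false

open scoped BigOperators
open Matrix Pool.H3.L2

noncomputable section

namespace Pool.H71.L2

variable {Γ : Type} [Group Γ]

theorem aug_add (a b : GR Γ) : aug (a + b) = aug a + aug b := by
  classical
  unfold aug
  rw [MonoidAlgebra.coeff_add]
  exact Finsupp.sum_add_index' (fun _ => rfl) (fun _ _ _ => rfl)

theorem aug_single (g : Γ) (r : ℤ) : aug (MonoidAlgebra.single g r : GR Γ) = r := by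
  unfold aug
  rw [MonoidAlgebra.coeff_single]
  exact Finsupp.sum_single_index rfl

theorem aug_zero : aug (0 : GR Γ) = 0 := by
  unfold aug
  rfl

theorem aug_sum {ι : Type} (s : Finset ι) (f : ι → GR Γ) :
    aug (∑ i ∈ s, f i) = ∑ i ∈ s, aug (f i) := by
  classical
  induction s using Finset.induction_on with
  | empty => rw [Finset.sum_empty, Finset.sum_empty, aug_zero]
  | insert i s hi ih => rw [Finset.sum_insert hi, Finset.sum_insert hi, aug_add, ih]

theorem sum_coeff {Q : Type} [Group Q] [Fintype Q] (φ : Γ →* Q) (a : GR Γ) :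
    ∑ y : Q, (MonoidAlgebra.mapDomain φ a).coeff y = aug a := by
  classical
  induction a using MonoidAlgebra.induction_linear with
  | zero =>
    rw [aug_zero]
    exact Finset.sum_eq_zero fun y _ => by simp
  | add a b ha hb =>
    rw [aug_add, ← ha, ← hb, ← Finset.sum_add_distrib]
    refine Finset.sum_congr rfl fun y _ => ?_
    rw [MonoidAlgebra.mapDomain_add, MonoidAlgebra.coeff_add, Finsupp.add_apply]
  | single g r =>
    rw [aug_single, MonoidAlgebra.mapDomain_single, MonoidAlgebra.coeff_single,
      Finset.sum_eq_single (φ g)]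
    · rw [Finsupp.single_eq_same]
    · intro y _ hy
      rw [Finsupp.single_apply, if_neg (Ne.symm hy)]
    · intro h
      exact absurd (Finset.mem_univ _) h

theorem sum_coeff_inv {Q : Type} [Group Q] [Fintype Q] (φ : Γ →* Q) (a : GR Γ) (x : Q) :
    ∑ y : Q, (MonoidAlgebra.mapDomain φ a).coeff (x⁻¹ * y) = aug a := by
  rw [← sum_coeff φ a]
  exact Fintype.sum_equiv (Equiv.mulLeft x⁻¹) _ _ fun y => rfl

section

variable (C : BCx (GR Γ)) {Q : Type} [Group Q] [Fintype Q] [DecidableEq Q] (φ : Γ →* Q)

/-- Exactness in degree zero over the integers. -/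
theorem exact_zero (hφ : Function.Surjective φ) {e : C.S → ℤ}
    (hex : ∀ v : C.S → GR Γ, Matrix.vecMul v C.D = 0 → ∑ s, aug (v s) * e s = 0 →
      ∃ w : C.S → GR Γ, Matrix.vecMul w C.D = v)
    (v : C.S × Q → ℤ) (hv : ∀ x, C.deg x.1 ≠ 0 → v x = 0) (hve : ∑ x, v x * e x.1 = 0) :
    ∃ w : C.S × Q → ℤ, (∀ x, C.deg x.1 ≠ 1 → w x = 0) ∧ w ᵥ* regM φ C.D = v := by
  classical
  choose γ hγ using hφ
  set vt : C.S → GR Γ := fun s => ∑ x : Q, MonoidAlgebra.single (γ x) (v (s, x)) with hvt
  have hmap : ∀ s y, (MonoidAlgebra.mapDomain φ (vt s)).coeff y = v (s, y) := by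
    intro s y
    have h1 : MonoidAlgebra.mapDomain φ (vt s) =
        ∑ x : Q, MonoidAlgebra.mapDomain φ (MonoidAlgebra.single (γ x) (v (s, x)) : GR Γ) :=
      map_sum (MonoidAlgebra.mapDomainRingHom ℤ φ) _ _
    rw [h1, MonoidAlgebra.coeff_sum, Finsupp.finsetSum_apply, Finset.sum_eq_single y]
    · rw [MonoidAlgebra.mapDomain_single, MonoidAlgebra.coeff_single, hγ, Finsupp.single_eq_same]
    · intro x _ hx
      rw [MonoidAlgebra.mapDomain_single, MonoidAlgebra.coeff_single, hγ, Finsupp.single_apply,
        if_neg hx]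
    · intro h
      exact absurd (Finset.mem_univ _) h
  have hvt0 : ∀ s, C.deg s ≠ 0 → vt s = 0 := by
    intro s hs
    rw [hvt]
    refine Finset.sum_eq_zero fun x _ => ?_
    rw [hv (s, x) hs, MonoidAlgebra.single_zero]
  have h1 : Matrix.vecMul vt C.D = 0 := by
    funext t
    refine Finset.sum_eq_zero fun s _ => ?_
    show vt s * C.D s t = 0
    by_cases h : C.D s t = 0
    · rw [h, mul_zero]
    · rw [hvt0 s (by have := C.deg_D s t h; omega), zero_mul]
  have h2 : ∑ s, aug (vt s) * e s = 0 := by
    rw [← hve, Fintype.sum_prod_type]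
    refine Finset.sum_congr rfl fun s _ => ?_
    rw [hvt, aug_sum, Finset.sum_mul]
    exact Finset.sum_congr rfl fun x _ => by rw [aug_single]
  obtain ⟨wt, hwt⟩ := hex vt h1 h2
  refine ⟨fun x => if C.deg x.1 = 1 then (MonoidAlgebra.mapDomain φ (wt x.1)).coeff x.2 else 0,
    fun x hx => if_neg hx, ?_⟩
  funext y
  obtain ⟨t, y⟩ := y
  show ∑ x : C.S × Q, _ * _ = _
  rw [Fintype.sum_prod_type]
  have h3 : ∀ s, ∑ x : Q, (if C.deg s = 1 then (MonoidAlgebra.mapDomain φ (wt s)).coeff x else 0) *
      regM φ C.D (s, x) (t, y) =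
      if C.deg s = 1 then (MonoidAlgebra.mapDomain φ (wt s * C.D s t)).coeff y else 0 := by
    intro s
    by_cases hs : C.deg s = 1
    · simp only [if_pos hs]
      have h4 : MonoidAlgebra.mapDomain φ (wt s * C.D s t) =
          MonoidAlgebra.mapDomain φ (wt s) * MonoidAlgebra.mapDomain φ (C.D s t) :=
        map_mul (MonoidAlgebra.mapDomainRingHom ℤ φ) _ _
      rw [h4, coeff_mul_fintype]
      rfl
    · simp only [if_neg hs, zero_mul, Finset.sum_const_zero]
  refine (Finset.sum_congr rfl fun s _ => h3 s).trans ?_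
  by_cases ht : C.deg t = 0
  · have h5 : ∀ s, (if C.deg s = 1 then (MonoidAlgebra.mapDomain φ (wt s * C.D s t)).coeff y
        else 0) = (MonoidAlgebra.mapDomain φ (wt s * C.D s t)).coeff y := by
      intro s
      by_cases hs : C.deg s = 1
      · rw [if_pos hs]
      · have h6 : C.D s t = 0 := by
          by_contra h
          have := C.deg_D s t h
          omega
        rw [if_neg hs, h6, mul_zero]
        simp
    rw [Finset.sum_congr rfl fun s _ => h5 s, ← hmap t y, ← hwt]
    have h7 : MonoidAlgebra.mapDomain φ (Matrix.vecMul wt C.D t) =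
        ∑ s, MonoidAlgebra.mapDomain φ (wt s * C.D s t) :=
      map_sum (MonoidAlgebra.mapDomainRingHom ℤ φ) _ _
    rw [h7, MonoidAlgebra.coeff_sum, Finsupp.finsetSum_apply]
  · rw [hv (t, y) ht]
    refine Finset.sum_eq_zero fun s _ => ?_
    by_cases hs : C.deg s = 1
    · have h6 : C.D s t = 0 := by
        by_contra h
        have := C.deg_D s t h
        omega
      rw [if_pos hs, h6, mul_zero]
      simp
    · rw [if_neg hs]

/-- The zeroth Betti number of a quotient complex is one. -/
theorem betti_zero_quot (hφ : Function.Surjective φ) (hC : C.IsRes) (K : Type) [Field K] :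
    (C.quot φ).betti K 0 = 1 := by
  classical
  obtain ⟨e, he0, heD, ⟨v0, hv0⟩, hex⟩ := hC
  set f := Int.castRingHom K with hf
  set B := (C.quot φ).map f with hB
  set M : Matrix (C.S × Q) (C.S × Q) K := (regM φ C.D).map f with hM
  -- an element of augmentation one
  set u : C.S × Q → ℤ := fun x => if C.deg x.1 = 0 then
    (MonoidAlgebra.mapDomain φ (v0 x.1)).coeff x.2 else 0 with hu
  have hu1 : ∑ x, u x * e x.1 = 1 := by
    rw [← hv0, Fintype.sum_prod_type]
    refine Finset.sum_congr rfl fun s _ => ?_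
    by_cases hs : C.deg s = 0
    · rw [← sum_coeff φ (v0 s), Finset.sum_mul]
      refine Finset.sum_congr rfl fun x _ => ?_
      simp only [hu, if_pos hs]
    · rw [he0 s hs, mul_zero]
      refine Finset.sum_eq_zero fun x _ => ?_
      show u (s, x) * e s = 0
      rw [he0 s hs, mul_zero]
  let toF : B.Zk 0 → (C.S × Q → K) := fun v => v.1
  let ε : B.Zk 0 →ₗ[K] K :=
    { toFun := fun v => ∑ x, toF v x * f (e x.1)
      map_add' := fun v w => by
        rw [← Finset.sum_add_distrib]
        exact Finset.sum_congr rfl fun x _ => add_mul _ _ _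
      map_smul' := fun c v => by
        rw [RingHom.id_apply, smul_eq_mul, Finset.mul_sum]
        exact Finset.sum_congr rfl fun x _ => mul_assoc _ _ _ }
  have hZ : ∀ v : C.S × Q → K, (∀ x, C.deg x.1 ≠ 0 → v x = 0) → v ∈ B.Zk 0 := by
    intro v hv
    refine ⟨hv, ?_⟩
    funext y
    refine Finset.sum_eq_zero fun x _ => ?_
    show v x * B.D x y = 0
    by_cases h : B.D x y = 0
    · rw [h, mul_zero]
    · have h1 : C.deg x.1 = C.deg y.1 + 1 := B.deg_D x y h
      rw [hv x (by omega), zero_mul]
  have hsurj : Function.Surjective ε := by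
    intro c
    have h1 : ∀ x : C.S × Q, C.deg x.1 ≠ 0 → c * f (u x) = 0 := by
      intro x hx
      simp only [hu, if_neg hx, map_zero, mul_zero]
    refine ⟨⟨fun x : C.S × Q => c * f (u x), hZ _ h1⟩, ?_⟩
    show ∑ x : C.S × Q, c * f (u x) * f (e x.1) = c
    have h2 : ∑ x : C.S × Q, c * f (u x) * f (e x.1) = c * f (∑ x, u x * e x.1) := by
      rw [map_sum, Finset.mul_sum]
      exact Finset.sum_congr rfl fun x _ => by rw [map_mul, mul_assoc]
    rw [h2, hu1, map_one, mul_one]
  have hrow : ∀ x : C.S × Q, ∑ y : C.S × Q, M x y * f (e y.1) = 0 := by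
    rintro ⟨s, x⟩
    have h1 : ∑ y : C.S × Q, M (s, x) y * f (e y.1) =
        f (∑ y : C.S × Q, regM φ C.D (s, x) y * e y.1) := by
      rw [map_sum]
      exact Finset.sum_congr rfl fun y _ => (map_mul f _ _).symm
    have h2 : ∑ y : C.S × Q, regM φ C.D (s, x) y * e y.1 = 0 := by
      rw [Fintype.sum_prod_type, ← heD s]
      refine Finset.sum_congr rfl fun t _ => ?_
      rw [← sum_coeff_inv φ (C.D s t) x, Finset.sum_mul]
      rfl
    rw [h1, h2, map_zero]
  have hker : LinearMap.ker ε = (B.Bk 0).submoduleOf (B.Zk 0) := by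
    ext v
    rw [LinearMap.mem_ker]
    constructor
    · intro hv
      have hv' : ∑ x, toF v x * f (e x.1) = 0 := hv
      -- the integral elements
      have h1 : ∀ x : C.S × Q, C.deg x.1 = 0 → ∃ w : C.S × Q → ℤ,
          (∀ y, C.deg y.1 ≠ 1 → w y = 0) ∧
          w ᵥ* regM φ C.D = (Pi.single x 1 : C.S × Q → ℤ) - e x.1 • u := by
        intro x hx
        refine exact_zero C φ hφ hex _ (fun y hy => ?_) ?_
        · have hne : y ≠ x := by
            rintro rfl
            exact hy hx
          rw [Pi.sub_apply, Pi.smul_apply, Pi.single_eq_of_ne hne]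
          simp only [hu, if_neg hy, smul_zero, sub_zero]
        · simp only [Pi.sub_apply, Pi.smul_apply, smul_eq_mul, sub_mul, Finset.sum_sub_distrib,
            mul_assoc]
          rw [← Finset.mul_sum, hu1, mul_one, Finset.sum_eq_single x]
          · rw [Pi.single_eq_same, one_mul, sub_self]
          · intro y _ hy
            rw [Pi.single_eq_of_ne hy, zero_mul]
          · intro h
            exact absurd (Finset.mem_univ _) h
      choose w hw hwD using h1
      have h2 : ∀ y : C.S × Q, C.deg y.1 ≠ 1 →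
          (∑ x : {x : C.S × Q // C.deg x.1 = 0}, toF v x.1 * f (w x.1 x.2 y)) = 0 := by
        intro y hy
        refine Finset.sum_eq_zero fun x _ => ?_
        rw [hw x.1 x.2 y hy, map_zero, mul_zero]
      refine ⟨fun y : C.S × Q => ∑ x : {x : C.S × Q // C.deg x.1 = 0},
        toF v x.1 * f (w x.1 x.2 y), h2, ?_⟩
      have h3 : (fun y : C.S × Q => ∑ x : {x : C.S × Q // C.deg x.1 = 0},
          toF v x.1 * f (w x.1 x.2 y)) ᵥ* M = toF v := by
        funext z
        show ∑ y : C.S × Q, (∑ x : {x : C.S × Q // C.deg x.1 = 0},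
          toF v x.1 * f (w x.1 x.2 y)) * M y z = toF v z
        simp only [Finset.sum_mul]
        rw [Finset.sum_comm]
        have h4 : ∀ x : {x : C.S × Q // C.deg x.1 = 0},
            ∑ y : C.S × Q, toF v x.1 * f (w x.1 x.2 y) * M y z =
            toF v x.1 * f ((Pi.single x.1 1 : C.S × Q → ℤ) z) -
              toF v x.1 * f (e x.1.1) * f (u z) := by
          intro x
          have h5 : ∑ y : C.S × Q, f (w x.1 x.2 y) * M y z =
              f ((w x.1 x.2 ᵥ* regM φ C.D) z) := by
            show _ = f (∑ y, w x.1 x.2 y * regM φ C.D y z)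
            rw [map_sum]
            exact Finset.sum_congr rfl fun y _ => (map_mul f _ _).symm
          simp only [mul_assoc]
          rw [← Finset.mul_sum, h5, hwD, Pi.sub_apply, Pi.smul_apply, smul_eq_mul, map_sub,
            map_mul, mul_sub]
        rw [Finset.sum_congr rfl fun x _ => h4 x, Finset.sum_sub_distrib, ← Finset.sum_mul]
        have h6 : ∑ x : {x : C.S × Q // C.deg x.1 = 0}, toF v x.1 * f (e x.1.1) = 0 := by
          rw [← hv']
          rw [← Fintype.sum_subtype_add_sum_subtype (fun x : C.S × Q => C.deg x.1 = 0)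
            (fun x => toF v x * f (e x.1))]
          have h7 : ∑ x : {x : C.S × Q // ¬ C.deg x.1 = 0}, toF v x.1 * f (e x.1.1) = 0 := by
            refine Finset.sum_eq_zero fun x _ => ?_
            rw [he0 x.1.1 x.2, map_zero, mul_zero]
          rw [h7, add_zero]
        rw [h6, zero_mul, sub_zero]
        by_cases hz : C.deg z.1 = 0
        · rw [Finset.sum_eq_single (⟨z, hz⟩ : {x : C.S × Q // C.deg x.1 = 0})]
          · rw [Pi.single_eq_same, map_one, mul_one]
          · intro x _ hx
            have hne : z ≠ x.1 := fun h => hx (Subtype.ext h.symm)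
            rw [Pi.single_eq_of_ne hne, map_zero, mul_zero]
          · intro h
            exact absurd (Finset.mem_univ _) h
        · have h8 : toF v z = 0 := v.2.1 z hz
          rw [h8]
          refine Finset.sum_eq_zero fun x _ => ?_
          have hne : z ≠ x.1 := by
            intro h
            apply hz
            rw [h]
            exact x.2
          rw [Pi.single_eq_of_ne hne, map_zero, mul_zero]
      exact h3
    · rintro ⟨w, -, hw⟩
      have hw' : (show C.S × Q → K from w) ᵥ* M = toF v := hw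
      show ∑ x, toF v x * f (e x.1) = 0
      rw [← hw']
      have h1 : ∀ y : C.S × Q, ((show C.S × Q → K from w) ᵥ* M) y * f (e y.1) =
          ∑ x : C.S × Q, (show C.S × Q → K from w) x * (M x y * f (e y.1)) := by
        intro y
        show (∑ x : C.S × Q, (show C.S × Q → K from w) x * M x y) * f (e y.1) = _
        rw [Finset.sum_mul]
        exact Finset.sum_congr rfl fun x _ => mul_assoc _ _ _
      rw [Finset.sum_congr rfl fun y _ => h1 y, Finset.sum_comm]
      refine Finset.sum_eq_zero fun x _ => ?_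
      rw [← Finset.mul_sum, hrow x, mul_zero]
  have e1 := (ε.quotKerEquivOfSurjective hsurj).finrank_eq
  rw [hker, Module.finrank_self] at e1
  exact e1

end

theorem betti_zero_cover {C : BCx (GR Γ)} (hC : C.IsRes) (N : Subgroup Γ) [N.Normal]
    [N.FiniteIndex] (K : Type) [Field K] : (C.cover N).betti K 0 = 1 := by
  let _ : Fintype (Γ ⧸ N) := Fintype.ofFinite _
  let _ : DecidableEq (Γ ⧸ N) := Classical.decEq _
  exact betti_zero_quot C (QuotientGroup.mk' N) (QuotientGroup.mk'_surjective N) hC K

end Pool.H71.L2
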