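import Pool.Agent.H71.L2.CoverProd
import Pool.Agent.H16.L2.M6

/-!
Elementary torsion systems in covers of exterior products.
-/

set_option autoImplicit false

open scoped BigOperators Kronecker
open Matrix Pool.H3.L2

noncomputable section

namespace Pool.H71.L2

theorem hasPT_congr {p : ℕ} {A B : BCx ℤ} (e : A.S ≃ B.S) (hdeg : ∀ s, B.deg (e s) = A.deg s)
    (hD : ∀ s t, B.D (e s) (e t) = A.D s t) {k t : ℕ} (h : HasPT p A k t) : HasPT p B k t := by
  obtain ⟨T, _, q, hc, hq, ⟨E⟩⟩ := h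
  have hz : ∀ {u : A.S → ℤ} {l : ℕ}, (∀ s, A.deg s ≠ l → u s = 0) →
      ∀ s, B.deg s ≠ l → u (e.symm s) = 0 := by
    intro u l hu s hs
    apply hu
    rw [← hdeg, e.apply_symm_apply]
    exact hs
  have hv : ∀ u : A.S → ℤ, (fun s => u (e.symm s)) ᵥ* B.D = fun s => (u ᵥ* A.D) (e.symm s) := by
    intro u
    funext s
    show ∑ b, u (e.symm b) * B.D b s = ∑ a, u a * A.D a (e.symm s)
    symm
    refine Fintype.sum_equiv e _ _ fun a => ?_
    rw [e.symm_apply_apply, ← hD, e.apply_symm_apply]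
  have hm : ∀ u : A.S → ℤ, B.D *ᵥ (fun s => u (e.symm s)) = fun s => (A.D *ᵥ u) (e.symm s) := by
    intro u
    funext s
    show ∑ b, B.D s b * u (e.symm b) = ∑ a, A.D (e.symm s) a * u a
    symm
    refine Fintype.sum_equiv e _ _ fun a => ?_
    rw [e.symm_apply_apply, ← hD, e.apply_symm_apply]
  have hd : ∀ u v : A.S → ℤ, (fun s => u (e.symm s)) ⬝ᵥ (fun s => v (e.symm s)) = u ⬝ᵥ v := by
    intro u v
    show ∑ b, u (e.symm b) * v (e.symm b) = ∑ a, u a * v a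
    symm
    refine Fintype.sum_equiv e _ _ fun a => ?_
    rw [e.symm_apply_apply]
  refine ⟨T, inferInstance, q, hc, hq, ⟨?_⟩⟩
  exact
    { x := fun t s => E.x t (e.symm s)
      y := fun t s => E.y t (e.symm s)
      ξ := fun t s => E.ξ t (e.symm s)
      η := fun t s => E.η t (e.symm s)
      hx := fun t => hz (E.hx t)
      hy := fun t => hz (E.hy t)
      hξ := fun t => hz (E.hξ t)
      hη := fun t => hz (E.hη t)
      xD := fun t => by rw [hv, E.xD]; rfl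
      yD := fun t => by rw [hv, E.yD]; rfl
      ξx := fun t => by rw [hd, E.ξx]
      ξx' := fun t t' ht => by rw [hd, E.ξx' t t' ht]
      ηy := fun t => by rw [hd, E.ηy]
      ηy' := fun t t' ht => by rw [hd, E.ηy' t t' ht]
      Dη := fun t => by rw [hm, E.Dη]; rfl
      Dξ := fun t => by rw [hm, E.Dξ]; rfl }

theorem hasPT_congr_symm {p : ℕ} {A B : BCx ℤ} (e : A.S ≃ B.S)
    (hdeg : ∀ s, B.deg (e s) = A.deg s)
    (hD : ∀ s t, B.D (e s) (e t) = A.D s t) {k t : ℕ} (h : HasPT p B k t) : HasPT p A k t :=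
  hasPT_congr e.symm (fun s => by rw [← hdeg, e.apply_symm_apply])
    (fun s t => by rw [← hD, e.apply_symm_apply, e.apply_symm_apply]) h

variable {G1 G2 : Type} [Group G1] [Group G2]

theorem hasPT_cover_xtens (C1 : BCx (GR G1)) (C2 : BCx (GR G2)) (N1 : Subgroup G1)
    (N2 : Subgroup G2) [N1.Normal] [N1.FiniteIndex] [N2.Normal] [N2.FiniteIndex]
    [(N1.prod N2).Normal] [(N1.prod N2).FiniteIndex] {p k t : ℕ}
    (h : HasPT p ((C1.cover N1).tens (C2.cover N2)) k t) :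
    HasPT p ((C1.xtens C2).cover (N1.prod N2)) k t := by
  let _ : Fintype (G1 ⧸ N1) := Fintype.ofFinite _
  let _ : DecidableEq (G1 ⧸ N1) := Classical.decEq _
  let _ : Fintype (G2 ⧸ N2) := Fintype.ofFinite _
  let _ : DecidableEq (G2 ⧸ N2) := Classical.decEq _
  let _ : Fintype ((G1 × G2) ⧸ (N1.prod N2)) := Fintype.ofFinite _
  let _ : DecidableEq ((G1 × G2) ⧸ (N1.prod N2)) := Classical.decEq _
  set φ := QuotientGroup.mk' (N1.prod N2)
  set φ1 := QuotientGroup.mk' N1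
  set φ2 := QuotientGroup.mk' N2
  set ψ := quotProd N1 N2 with hψ
  let e : (C1.S × C2.S) × ((G1 × G2) ⧸ (N1.prod N2)) ≃
      (C1.S × (G1 ⧸ N1)) × (C2.S × (G2 ⧸ N2)) :=
    { toFun := fun x => ((x.1.1, (ψ x.2).1), (x.1.2, (ψ x.2).2))
      invFun := fun y => ((y.1.1, y.2.1), ψ.symm (y.1.2, y.2.2))
      left_inv := fun x => by
        obtain ⟨⟨s1, s2⟩, q⟩ := x
        show ((s1, s2), ψ.symm ((ψ q).1, (ψ q).2)) = ((s1, s2), q)
        rw [Prod.mk.eta, ψ.symm_apply_apply]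
      right_inv := fun y => by
        obtain ⟨⟨s1, q1⟩, ⟨s2, q2⟩⟩ := y
        show ((s1, (ψ (ψ.symm (q1, q2))).1), (s2, (ψ (ψ.symm (q1, q2))).2)) = ((s1, q1), (s2, q2))
        rw [ψ.apply_symm_apply] }
  exact hasPT_congr_symm (A := (C1.xtens C2).quot φ) (B := (C1.quot φ1).tens (C2.quot φ2)) e
    (fun _ => rfl)
    (fun x y => (quot_xtens_D C1 C2 φ φ1 φ2 ψ (fun _ => rfl) x.1.1 y.1.1 x.1.2 y.1.2 x.2 y.2).symm)
    h

end Pool.H71.L2
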