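import Pool.Agent.H29.L2.Conv

/-!
L2-torsion and L2-Betti numbers of products.
-/

set_option autoImplicit false
set_option linter.style.haveILetI false

open MeasureTheory Filter Topology Set
open scoped ENNReal NNReal

noncomputable section

namespace Pool.H71.L2

open Pool.H3.L2 Pool.H29.Mom Pool.H29.L2

theorem super_dirac {R : ℝ} (hR : 0 ≤ R) {P : ℕ} {μ : ℕ → Measure ℝ}
    (hμ : ∀ p ∈ Finset.range P, On R (μ p)) (χ : ℝ)
    (h : ∀ n : ℕ, ∑ p ∈ Finset.range P, (-1 : ℝ) ^ p * ∫ x, x ^ n ∂(μ p) = χ * 0 ^ n)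
    {f : ℝ → ℝ} (hfm : Measurable f) (hf : ∀ p ∈ Finset.range P, Integrable f (μ p)) :
    ∑ p ∈ Finset.range P, (-1 : ℝ) ^ p * ∫ x, f x ∂(μ p) = χ * f 0 := by
  classical
  set a : ℝ := max (-((-1) ^ P * χ)) 0 with ha
  set b : ℝ := max ((-1) ^ P * χ) 0 with hb
  have ha0 : 0 ≤ a := le_max_right _ _
  have hb0 : 0 ≤ b := le_max_right _ _
  have hab : (-1 : ℝ) ^ P * (a - b) = -χ := by
    have h1 : a - b = -((-1) ^ P * χ) := by
      rw [ha, hb]
      rcases le_total 0 ((-1 : ℝ) ^ P * χ) with h0 | h0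
      · rw [max_eq_right (by linarith), max_eq_left h0]; ring
      · rw [max_eq_left (by linarith), max_eq_right h0]; ring
    rw [h1]
    rcases neg_one_pow_eq_or ℝ P with h2 | h2 <;> rw [h2] <;> ring
  set μ' : ℕ → Measure ℝ := fun p => if p < P then μ p else
    if p = P then ENNReal.ofReal a • Measure.dirac 0 else ENNReal.ofReal b • Measure.dirac 0
    with hμ'
  have e0 : ∀ p ∈ Finset.range P, μ' p = μ p := fun p hp => by
    simp only [hμ', if_pos (Finset.mem_range.1 hp)]
  have e1 : μ' P = ENNReal.ofReal a • Measure.dirac 0 := by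
    simp only [hμ', if_neg (lt_irrefl P), if_true]
  have e2 : μ' (P + 1) = ENNReal.ofReal b • Measure.dirac 0 := by
    simp only [hμ', if_neg (by omega : ¬ P + 1 < P), if_neg (by omega : ¬ P + 1 = P)]
  have hd : On R (Measure.dirac (0 : ℝ)) := by
    refine ⟨inferInstance, ?_⟩
    rw [Measure.dirac_apply' _ measurableSet_Icc.compl]
    simp [hR]
  have key : ∀ g : ℝ → ℝ, Measurable g → ∑ p ∈ Finset.range (P + 2), (-1 : ℝ) ^ p * ∫ x, g x ∂(μ' p) =
      ∑ p ∈ Finset.range P, (-1 : ℝ) ^ p * ∫ x, g x ∂(μ p) - χ * g 0 := by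
    intro g _
    rw [Finset.sum_range_succ, Finset.sum_range_succ, e1, e2, integral_smul_measure,
      integral_smul_measure, integral_dirac, ENNReal.toReal_ofReal ha0, ENNReal.toReal_ofReal hb0,
      Finset.sum_congr rfl fun p hp => by rw [e0 p hp], smul_eq_mul, smul_eq_mul, pow_succ]
    linear_combination (g 0) * hab
  have h1 := super_zero (R := R) (P := P + 2) (μ := μ') (fun p hp => by
    rcases lt_trichotomy p P with h2 | h2 | h2
    · rw [e0 p (Finset.mem_range.2 h2)]
      exact hμ p (Finset.mem_range.2 h2)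
    · rw [h2, e1]
      exact hd.smul ENNReal.ofReal_ne_top
    · have h3 : p = P + 1 := by
        have := Finset.mem_range.1 hp
        omega
      rw [h3, e2]
      exact hd.smul ENNReal.ofReal_ne_top) (fun n => by
        rw [key (fun x => x ^ n) (by fun_prop), h n]
        exact sub_self _) (f := f) (fun p hp => by
    rcases lt_trichotomy p P with h2 | h2 | h2
    · rw [e0 p (Finset.mem_range.2 h2)]
      exact hf p (Finset.mem_range.2 h2)
    · rw [h2, e1]
      exact (integrable_dirac (by simp)).smul_measure ENNReal.ofReal_ne_top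
    · have h3 : p = P + 1 := by
        have := Finset.mem_range.1 hp
        omega
      rw [h3, e2]
      exact (integrable_dirac (by simp)).smul_measure ENNReal.ofReal_ne_top)
  rw [key f hfm] at h1
  linarith

variable {Γ Γ1 Γ2 : Type} [Group Γ] [Group Γ1] [Group Γ2]

/-- **L2-torsion of a product** with an L2-acyclic complex with integrable logarithm. -/
theorem rho_xtens {C1 : BCx (GR Γ1)} {C2 : BCx (GR Γ2)} {μ ν : ℕ → Measure ℝ}
    (hμ : ∀ k, C1.IsSpectral k (μ k)) (hν : ∀ k, C2.IsSpectral k (ν k))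
    (h0 : ∀ q, ν q {0} = 0)
    (hl : ∀ q, IntegrableOn Real.log (Ioi 0) (ν q)) :
    (C1.xtens C2).rho (convFam μ ν) = ((∑ s : C1.S, (-1 : ℤ) ^ C1.deg s : ℤ) : ℝ) * C2.rho ν := by
  classical
  set χ : ℤ := ∑ s : C1.S, (-1 : ℤ) ^ C1.deg s with hχ
  set P := Finset.univ.sup C1.deg + 1 with hP
  set Q := Finset.univ.sup C2.deg + 1 with hQ
  have hP' : ∀ s, C1.deg s < P := fun s =>
    Nat.lt_succ_of_le (Finset.le_sup (f := C1.deg) (Finset.mem_univ s))
  have hQ' : ∀ s, C2.deg s < Q := fun s =>
    Nat.lt_succ_of_le (Finset.le_sup (f := C2.deg) (Finset.mem_univ s))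
  have hμon := fun k => isSpectral_on (hμ k)
  have hνon := fun k => isSpectral_on (hν k)
  obtain ⟨R, hR0, hR⟩ := family_on hμon P
  obtain ⟨R', hR'0, hR'⟩ := family_on hνon Q
  have hμz : ∀ p, P ≤ p → μ p = 0 := fun p hp =>
    spectral_zero (hμ p) fun s => by have := hP' s; omega
  have hνz : ∀ q, Q ≤ q → ν q = 0 := fun q hq =>
    spectral_zero (hν q) fun s => by have := hQ' s; omega
  have hlog : ∀ q, Integrable Real.log (ν q) := fun q => by
    obtain ⟨R2, h2⟩ := hνon q
    exact (integrableOn_log h2).1 (hl q)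
  -- the numbers `L p q`
  set L : ℕ → ℕ → ℝ := fun p q => ∫ x, Real.log x ∂((μ p).conv (ν q)) with hL
  have hLz : ∀ p q, P ≤ p ∨ Q ≤ q → L p q = 0 := by
    intro p q h
    rcases h with h | h
    · simp only [hL, hμz p h, Measure.zero_conv, integral_zero_measure]
    · simp only [hL, hνz q h, Measure.conv_zero, integral_zero_measure]
  have hint : ∀ j, ∫ x in Ioi (0 : ℝ), Real.log x ∂(convFam μ ν j) =
      ∑ p ∈ Finset.range (j + 1), L p (j - p) := by
    intro j
    obtain ⟨R3, h3⟩ := convFam_on hμon hνon j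
    rw [h3.integral_log, convFam, integral_finsetSum_measure]
    intro p _
    obtain ⟨R1, h1⟩ := hμon p
    obtain ⟨R2, h2⟩ := hνon (j - p)
    exact integrable_log_conv h1 h2 (h0 _) (hlog _)
  have hA : ∀ q, ∑ p ∈ Finset.range P, (-1 : ℝ) ^ p * L p q =
      (χ : ℝ) * ∫ y, Real.log y ∂(ν q) := by
    intro q
    obtain ⟨R2, h2⟩ := hνon q
    haveI := h2.fin
    have e1 : ∑ p ∈ Finset.range P, (-1 : ℝ) ^ p * L p q =
        ∫ y, ∑ p ∈ Finset.range P, (-1 : ℝ) ^ p * ∫ x, Real.log (x + y) ∂(μ p) ∂(ν q) := by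
      rw [integral_finsetSum]
      · refine Finset.sum_congr rfl fun p hp => ?_
        have h1 := hR p (Finset.mem_range.1 hp)
        rw [integral_const_mul, ← integral_log_conv' h1 h2 (h0 _) (hlog _)]
      · intro p hp
        have h1 := hR p (Finset.mem_range.1 hp)
        haveI := h1.fin
        exact (integrable_log_prod h1 h2 (h0 _) (hlog _)).integral_prod_right.const_mul _
    rw [e1, ← integral_const_mul]
    have e2 : ∀ᵐ y ∂(ν q), y ≠ 0 := by
      rw [ae_iff]
      simpa using h0 q
    refine integral_congr_ae ?_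
    filter_upwards [h2.ae, e2] with y hy hy0
    have hypos : 0 < y := lt_of_le_of_ne hy.1 (Ne.symm hy0)
    have h5 := super_dirac (R := R) (P := P) (μ := μ) hR0
      (fun p hp => hR p (Finset.mem_range.1 hp)) (χ : ℝ) (fun n => ?_)
      (f := fun x => Real.log (x + y)) (Real.measurable_log.comp (measurable_id.add_const y))
      fun p hp => ?_
    · simp only [zero_add] at h5
      exact h5
    · rw [super_moment hμ hP' n]
      rcases Nat.eq_zero_or_pos n with hn | hn
      · subst hn
        have h3 : ∑ s : C1.S, (-1 : ℤ) ^ C1.deg s * ((C1.Lap ^ 0) s s).coeff 1 =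
            ∑ s : C1.S, (-1 : ℤ) ^ C1.deg s := by
          refine Finset.sum_congr rfl fun s _ => ?_
          rw [pow_zero, Matrix.one_apply_eq, MonoidAlgebra.one_def, MonoidAlgebra.coeff_single,
            Finsupp.single_eq_same, mul_one]
        rw [h3, pow_zero, mul_one]
      · rw [mckean C1 n hn, Int.cast_zero, zero_pow (by omega), mul_zero]
    · have h1 := hR p (Finset.mem_range.1 hp)
      haveI := h1.fin
      refine Integrable.mono' (integrable_const (|Real.log y| + (R + y)))
        (Real.measurable_log.comp (measurable_id.add_const y)).aestronglyMeasurable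
        (h1.ae.mono fun x hx => ?_)
      rw [Real.norm_eq_abs]
      exact abs_log_add_le hx.1 hypos (by linarith [hx.2])
  have hB : ∀ p, ∑ q ∈ Finset.range Q, (-1 : ℝ) ^ q * L p q = 0 := by
    intro p
    obtain ⟨R1, h1⟩ := hμon p
    haveI := h1.fin
    have e1 : ∑ q ∈ Finset.range Q, (-1 : ℝ) ^ q * L p q =
        ∫ x, ∑ q ∈ Finset.range Q, (-1 : ℝ) ^ q * ∫ y, Real.log (x + y) ∂(ν q) ∂(μ p) := by
      rw [integral_finsetSum]
      · refine Finset.sum_congr rfl fun q hq => ?_
        have h2 := hR' q (Finset.mem_range.1 hq)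
        rw [integral_const_mul, ← integral_log_conv h1 h2 (h0 _) (hlog _)]
      · intro q hq
        have h2 := hR' q (Finset.mem_range.1 hq)
        haveI := h2.fin
        exact (integrable_log_prod h1 h2 (h0 _) (hlog _)).integral_prod_left.const_mul _
    rw [e1]
    refine integral_eq_zero_of_ae ?_
    filter_upwards [h1.ae] with x hx
    refine super_zero (R := R') (fun q hq => hR' q (Finset.mem_range.1 hq)) (fun n => ?_)
      (f := fun y => Real.log (x + y)) fun q hq => ?_
    · have hm : ∀ n : ℕ, 1 ≤ n → ∑ p ∈ Finset.range Q, (-1 : ℝ) ^ p * ∫ x, x ^ n ∂(ν p) = 0 := by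
        intro n hn
        rw [super_moment hν hQ' n, mckean C2 n hn, Int.cast_zero]
      rcases Nat.eq_zero_or_pos n with hn | hn
      · subst hn
        exact super_mass (R := R') (fun q hq => hR' q (Finset.mem_range.1 hq)) hm fun q _ => h0 q
      · exact hm n hn
    · have h2 := hR' q (Finset.mem_range.1 hq)
      haveI := h2.fin
      refine Integrable.mono' ((hlog q).abs.add (integrable_const (R' + x)))
        (Real.measurable_log.comp (measurable_id.const_add x)).aestronglyMeasurable ?_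
      have e2 : ∀ᵐ y ∂(ν q), y ≠ 0 := by
        rw [ae_iff]
        simpa using h0 q
      filter_upwards [h2.ae, e2] with y hy hy0
      rw [Real.norm_eq_abs]
      exact abs_log_add_le hx.1 (lt_of_le_of_ne hy.1 (Ne.symm hy0)) (by linarith [hy.2])
  -- reorganise the sum
  have hsup : ∀ j, P + Q ≤ j → ∑ p ∈ Finset.range (j + 1), L p (j - p) = 0 := by
    intro j hj
    refine Finset.sum_eq_zero fun p hp => hLz _ _ ?_
    have := Finset.mem_range.1 hp
    omega
  have hrho2 : C2.rho ν = -(1 / 2) * ∑ q ∈ Finset.range Q,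
      (-1 : ℝ) ^ q * (q : ℝ) * ∫ y, Real.log y ∂(ν q) := by
    unfold BCx.rho
    congr 1
    refine Finset.sum_congr rfl fun q _ => ?_
    obtain ⟨R2, h2⟩ := hνon q
    rw [h2.integral_log]
  rw [hrho2]
  unfold BCx.rho
  simp_rw [hint]
  set J := Finset.univ.sup (C1.xtens C2).deg + 1 with hJ
  -- terms beyond `J` vanish as the measures vanish there
  have hJz : ∀ j, J ≤ j → ∑ p ∈ Finset.range (j + 1), L p (j - p) = 0 := by
    intro j hj
    rw [← hint j]
    have h1 : convFam μ ν j = 0 := spectral_zero (spectral_xtens hμ hν j) fun s => by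
      have h2 : (C1.xtens C2).deg s < J :=
        Nat.lt_succ_of_le (Finset.le_sup (f := (C1.xtens C2).deg) (Finset.mem_univ s))
      omega
    rw [h1]
    simp
  have hext : ∑ j ∈ Finset.range J, (-1 : ℝ) ^ j * (j : ℝ) * ∑ p ∈ Finset.range (j + 1), L p (j - p) =
      ∑ j ∈ Finset.range (max J (P + Q)),
        (-1 : ℝ) ^ j * (j : ℝ) * ∑ p ∈ Finset.range (j + 1), L p (j - p) := by
    refine Finset.sum_subset (Finset.range_subset_range.2 (le_max_left _ _)) fun j _ hj => ?_
    rw [hJz j (by simpa using hj), mul_zero]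
  have hext2 : ∑ j ∈ Finset.range (P + Q), (-1 : ℝ) ^ j * (j : ℝ) * ∑ p ∈ Finset.range (j + 1), L p (j - p) =
      ∑ j ∈ Finset.range (max J (P + Q)),
        (-1 : ℝ) ^ j * (j : ℝ) * ∑ p ∈ Finset.range (j + 1), L p (j - p) := by
    refine Finset.sum_subset (Finset.range_subset_range.2 (le_max_right _ _)) fun j _ hj => ?_
    rw [hsup j (by simpa using hj), mul_zero]
  rw [hext, ← hext2]
  have hre : ∑ j ∈ Finset.range (P + Q),
      (-1 : ℝ) ^ j * (j : ℝ) * ∑ p ∈ Finset.range (j + 1), L p (j - p) =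
      ∑ p ∈ Finset.range P, ∑ q ∈ Finset.range Q,
        (-1 : ℝ) ^ (p + q) * ((p : ℝ) + (q : ℝ)) * L p q := by
    rw [← Finset.sum_product', ← Finset.sum_fiberwise_of_maps_to
      (g := fun z : ℕ × ℕ => z.1 + z.2) (t := Finset.range (P + Q)) (fun z hz => by
        have h1 := Finset.mem_range.1 (Finset.mem_product.1 hz).1
        have h2 := Finset.mem_range.1 (Finset.mem_product.1 hz).2
        exact Finset.mem_range.2 (by omega))]
    refine Finset.sum_congr rfl fun j _ => ?_
    rw [← Finset.Nat.sum_antidiagonal_eq_sum_range_succ (fun p q => L p q) j, Finset.mul_sum]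
    symm
    refine Finset.sum_subset_zero_on_sdiff (fun z hz => ?_) (fun z hz => ?_) fun z hz => ?_
    · rw [Finset.mem_filter] at hz
      exact Finset.HasAntidiagonal.mem_antidiagonal.2 hz.2
    · rw [Finset.mem_sdiff, Finset.HasAntidiagonal.mem_antidiagonal, Finset.mem_filter, Finset.mem_product,
        Finset.mem_range, Finset.mem_range] at hz
      rw [hLz z.1 z.2 (by
        by_contra hc
        push Not at hc
        exact hz.2 ⟨hc, hz.1⟩), mul_zero]
    · rw [Finset.mem_filter] at hz
      rw [← hz.2]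
      push_cast
      ring
  rw [hre]
  have hsplit : ∑ p ∈ Finset.range P, ∑ q ∈ Finset.range Q,
        (-1 : ℝ) ^ (p + q) * ((p : ℝ) + (q : ℝ)) * L p q =
      ∑ p ∈ Finset.range P, (-1 : ℝ) ^ p * p * (∑ q ∈ Finset.range Q, (-1 : ℝ) ^ q * L p q) +
      ∑ q ∈ Finset.range Q, (-1 : ℝ) ^ q * q * (∑ p ∈ Finset.range P, (-1 : ℝ) ^ p * L p q) := by
    simp_rw [Finset.mul_sum]
    rw [Finset.sum_comm (s := Finset.range Q) (t := Finset.range P), ← Finset.sum_add_distrib]
    refine Finset.sum_congr rfl fun p _ => ?_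
    rw [← Finset.sum_add_distrib]
    refine Finset.sum_congr rfl fun q _ => ?_
    rw [pow_add]
    ring
  rw [hsplit]
  simp only [hA, hB, mul_zero, Finset.sum_const_zero, zero_add]
  rw [Finset.mul_sum, Finset.mul_sum, Finset.mul_sum]
  exact Finset.sum_congr rfl fun q _ => by ring

/-- The atom at zero of a convolution. -/
theorem conv_atom {R R' : ℝ} {μ ν : Measure ℝ} (hμ : On R μ) (hν : On R' ν) :
    (μ.conv ν).real {0} = μ.real {0} * ν.real {0} := by
  haveI := hμ.fin
  haveI := hν.fin
  have h1 : (μ.conv ν) {0} = (μ.prod ν) ({0} ×ˢ {0}) := by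
    rw [Measure.conv, Measure.map_apply (by fun_prop) (measurableSet_singleton 0)]
    refine measure_congr ?_
    filter_upwards [ae_prod hμ hν] with z hz
    refine propext ⟨fun h => ?_, fun h => ?_⟩
    · have h3 : z.1 + z.2 = 0 := h
      have h4 := hz.1.1
      have h5 := hz.2.1
      refine ⟨?_, ?_⟩
      · show z.1 = 0
        linarith
      · show z.2 = 0
        linarith
    · have h4 : z.1 = 0 := h.1
      have h5 : z.2 = 0 := h.2
      show z.1 + z.2 = 0
      rw [h4, h5, add_zero]
  unfold Measure.real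
  rw [h1, Measure.prod_prod, ENNReal.toReal_mul]

theorem convFam_atom {μ ν : ℕ → Measure ℝ} (hμ : ∀ k, ∃ R, On R (μ k)) (hν : ∀ k, ∃ R, On R (ν k))
    (k : ℕ) : (convFam μ ν k).real {0} =
      ∑ p ∈ Finset.range (k + 1), (μ p).real {0} * (ν (k - p)).real {0} := by
  unfold convFam
  have h1 : ∀ p, IsFiniteMeasure ((μ p).conv (ν (k - p))) := fun p => by
    obtain ⟨R1, h1⟩ := hμ p
    obtain ⟨R2, h2⟩ := hν (k - p)
    exact (On_conv h1 h2).fin
  rw [show (∑ p ∈ Finset.range (k + 1), (μ p).conv (ν (k - p))).real {0} =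
      ∑ p ∈ Finset.range (k + 1), ((μ p).conv (ν (k - p))).real {0} from by
    unfold Measure.real
    rw [Measure.finsetSum_apply, ENNReal.toReal_sum fun p _ => measure_ne_top _ _]]
  refine Finset.sum_congr rfl fun p _ => ?_
  obtain ⟨R1, h1⟩ := hμ p
  obtain ⟨R2, h2⟩ := hν (k - p)
  exact conv_atom h1 h2

end Pool.H71.L2
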