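import Pool.Agent.H71.L2.Fac

/-!
Torsion freeness of the homology from equality of Betti numbers over all prime fields.
-/

set_option autoImplicit false

open scoped BigOperators Kronecker
open Matrix Pool.H3.L2 Pool.H16.L2

noncomputable section

namespace Pool.H71.L2

/-- If the elementary divisors in degree `k` are units then `H_k` is torsion free. -/
theorem torsOrd_one_of_unit (A : BCx ℤ) (k : ℕ) {n : ℕ} (a : Fin n → ℤ)
    (X : Matrix (Fin n) A.S ℤ) (X' : Matrix A.S (Fin n) ℤ) (Y : Matrix (Fin n) A.S ℤ)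
    (Y' : Matrix A.S (Fin n) ℤ) (hX : X * X' = 1) (hY : Y * Y' = 1)
    (hM : prj A (k + 1) * A.D = X' * Matrix.diagonal a * Y) (hXp : X * prj A (k + 1) = X)
    (ha : ∀ i, a i * a i = 1) : A.torsOrd k = 1 := by
  have hpr : ∀ w : A.S → ℤ, (∀ s, A.deg s ≠ k + 1 → w s = 0) → w ᵥ* prj A (k + 1) = w := by
    intro w hw
    funext s
    rw [prj, Matrix.vecMul_diagonal]
    by_cases h : A.deg s = k + 1
    · rw [if_pos h, mul_one]
    · rw [if_neg h, mul_zero, hw s h]
  have key : ∀ x : A.Hk k, x ∈ Submodule.torsion ℤ (A.Hk k) → x = 0 := by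
    intro x hx
    obtain ⟨m, hm⟩ := (Submodule.mem_torsion_iff _).1 hx
    induction x using Submodule.Quotient.induction_on with | _ v =>
    have hm0 : (m : ℤ) ≠ 0 := nonZeroDivisors.ne_zero m.2
    have h1 : (m : ℤ) • (Submodule.Quotient.mk v : A.Hk k) = 0 := hm
    rw [← Submodule.Quotient.mk_smul, Hk_mk_eq_zero] at h1
    rw [Hk_mk_eq_zero]
    obtain ⟨w, hw, hwD⟩ := h1
    have h2 : (m : ℤ) • (v : A.S → ℤ) = (w ᵥ* (X' * Matrix.diagonal a)) ᵥ* Y := by
      rw [Matrix.vecMul_vecMul, ← hM, ← Matrix.vecMul_vecMul, hpr w hw]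
      exact hwD.symm
    have h3 : (m : ℤ) • ((v : A.S → ℤ) ᵥ* Y' ᵥ* Y) = (m : ℤ) • (v : A.S → ℤ) := by
      have h4 : (m : ℤ) • ((v : A.S → ℤ) ᵥ* Y') = w ᵥ* (X' * Matrix.diagonal a) := by
        rw [← Matrix.smul_vecMul, h2, Matrix.vecMul_vecMul, hY, Matrix.vecMul_one]
      rw [← Matrix.smul_vecMul, h4, ← h2]
    have h5 : (v : A.S → ℤ) ᵥ* Y' ᵥ* Y = v := by
      funext s
      have h6 := congrFun h3 s
      rw [Pi.smul_apply, Pi.smul_apply, smul_eq_mul, smul_eq_mul] at h6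
      exact mul_left_cancel₀ hm0 h6
    refine ⟨((v : A.S → ℤ) ᵥ* Y' ᵥ* Matrix.diagonal a) ᵥ* X, fun s hs => ?_, ?_⟩
    · rw [← hXp, ← Matrix.vecMul_vecMul, prj, Matrix.vecMul_diagonal, if_neg hs, mul_zero]
    · have h7 : Matrix.diagonal a * Matrix.diagonal a = (1 : Matrix (Fin n) (Fin n) ℤ) := by
        rw [Matrix.diagonal_mul_diagonal, ← Matrix.diagonal_one]
        congr 1
        funext i
        exact ha i
      have h8 : X * A.D = Matrix.diagonal a * Y := by
        rw [← hXp, Matrix.mul_assoc, hM, ← Matrix.mul_assoc, ← Matrix.mul_assoc, hX, Matrix.one_mul]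
      rw [Matrix.vecMul_vecMul, h8, ← Matrix.vecMul_vecMul, Matrix.vecMul_vecMul _ _ (Matrix.diagonal a),
        h7, Matrix.vecMul_one, h5]
  unfold BCx.torsOrd
  have : Subsingleton (Submodule.torsion ℤ (A.Hk k)) :=
    ⟨fun x y => Subtype.ext ((key x.1 x.2).trans (key y.1 y.2).symm)⟩
  exact Nat.card_unique

/-- Torsion freeness in degrees `k` and `k + 1` from the Betti numbers in degree `k + 1`. -/
theorem torsOrd_one_of_betti (A : BCx ℤ) (k : ℕ)
    (h : ∀ (p : ℕ) [Fact p.Prime], A.betti (ZMod p) (k + 1) = A.betti ℝ (k + 1)) :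
    A.torsOrd k = 1 ∧ A.torsOrd (k + 1) = 1 := by
  classical
  obtain ⟨n, a, X, X', Y, Y', hf⟩ := exists_fac A
  have hrank : ∀ (K : Type) [Field K] [DecidableEq K] (l : ℕ),
      ((prj A (l + 1) * A.D).map (Int.castRingHom K)).rank =
        Fintype.card {j : Fin (n l) // (a l j : K) ≠ 0} := by
    intro K _ _ l
    obtain ⟨-, h1, h2, h3, -, -, -, -⟩ := hf l
    rw [h3]
    exact rank_of_snf K (a l) (X l) (X' l) (Y l) (Y' l) h1 h2
  have hb : ∀ (K : Type) [Field K] [DecidableEq K], A.betti K (k + 1) +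
      Fintype.card {j : Fin (n k) // (a k j : K) ≠ 0} +
      Fintype.card {j : Fin (n (k + 1)) // (a (k + 1) j : K) ≠ 0} = cells A (k + 1) := by
    intro K _ _
    rw [← hrank K k, ← hrank K (k + 1), prj_mul_D A (k + 1)]
    exact betti_eq A (k + 1)
  have hR : ∀ l, Fintype.card {j : Fin (n l) // (a l j : ℝ) ≠ 0} = n l := by
    intro l
    rw [Fintype.card_congr (Equiv.subtypeUnivEquiv fun j => Int.cast_ne_zero.2 ((hf l).1 j)),
      Fintype.card_fin]
  have hp : ∀ (p : ℕ) [Fact p.Prime], (∀ j, (a k j : ZMod p) ≠ 0) ∧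
      ∀ j, (a (k + 1) j : ZMod p) ≠ 0 := by
    intro p _
    have h1 := hb ℝ
    have h2 := hb (ZMod p)
    rw [hR, hR] at h1
    rw [h p] at h2
    have h3 : Fintype.card {j : Fin (n k) // (a k j : ZMod p) ≠ 0} ≤ n k := by
      refine (Fintype.card_subtype_le _).trans ?_
      rw [Fintype.card_fin]
    have h4 : Fintype.card {j : Fin (n (k + 1)) // (a (k + 1) j : ZMod p) ≠ 0} ≤ n (k + 1) := by
      refine (Fintype.card_subtype_le _).trans ?_
      rw [Fintype.card_fin]
    have h5 : Fintype.card {j : Fin (n k) // (a k j : ZMod p) ≠ 0} = n k := by omega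
    have h6 : Fintype.card {j : Fin (n (k + 1)) // (a (k + 1) j : ZMod p) ≠ 0} = n (k + 1) := by
      omega
    constructor
    · intro j hj
      have h7 : Fintype.card {j : Fin (n k) // (a k j : ZMod p) ≠ 0} < Fintype.card (Fin (n k)) :=
        Fintype.card_subtype_lt (x := j) (by simpa using hj)
      rw [h5, Fintype.card_fin] at h7
      exact absurd h7 (lt_irrefl _)
    · intro j hj
      have h7 : Fintype.card {j : Fin (n (k + 1)) // (a (k + 1) j : ZMod p) ≠ 0} <
          Fintype.card (Fin (n (k + 1))) :=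
        Fintype.card_subtype_lt (x := j) (by simpa using hj)
      rw [h6, Fintype.card_fin] at h7
      exact absurd h7 (lt_irrefl _)
  have hunit : ∀ z : ℤ, (∀ (p : ℕ) [Fact p.Prime], (z : ZMod p) ≠ 0) → z * z = 1 := by
    intro z hz
    have h1 : z.natAbs = 1 := by
      by_contra hne
      obtain ⟨p, hpp, hpd⟩ := Nat.exists_prime_and_dvd hne
      have : Fact p.Prime := ⟨hpp⟩
      apply hz p
      rw [ZMod.intCast_zmod_eq_zero_iff_dvd]
      exact Int.natCast_dvd.2 hpd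
    rcases Int.natAbs_eq_iff.1 h1 with h2 | h2 <;> rw [h2] <;> norm_num
  constructor
  · obtain ⟨-, h1, h2, h3, h4, -, -, -⟩ := hf k
    exact torsOrd_one_of_unit A k (a k) (X k) (X' k) (Y k) (Y' k) h1 h2 h3 h4
      fun i => hunit _ fun p _ => (hp p).1 i
  · obtain ⟨-, h1, h2, h3, h4, -, -, -⟩ := hf (k + 1)
    exact torsOrd_one_of_unit A (k + 1) (a (k + 1)) (X (k + 1)) (X' (k + 1)) (Y (k + 1))
      (Y' (k + 1)) h1 h2 h3 h4 fun i => hunit _ fun p _ => (hp p).2 i

/-- Torsion freeness in degree `0`. -/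
theorem torsOrd_zero_of_betti (A : BCx ℤ)
    (h : ∀ (p : ℕ) [Fact p.Prime], A.betti (ZMod p) 0 = A.betti ℝ 0) : A.torsOrd 0 = 1 := by
  classical
  obtain ⟨n, a, X, X', Y, Y', hf⟩ := exists_fac A
  have hrank : ∀ (K : Type) [Field K] [DecidableEq K] (l : ℕ),
      ((prj A (l + 1) * A.D).map (Int.castRingHom K)).rank =
        Fintype.card {j : Fin (n l) // (a l j : K) ≠ 0} := by
    intro K _ _ l
    obtain ⟨-, h1, h2, h3, -, -, -, -⟩ := hf l
    rw [h3]
    exact rank_of_snf K (a l) (X l) (X' l) (Y l) (Y' l) h1 h2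
  have hb : ∀ (K : Type) [Field K] [DecidableEq K], A.betti K 0 +
      Fintype.card {j : Fin (n 0) // (a 0 j : K) ≠ 0} = cells A 0 := by
    intro K _ _
    have h1 := betti_eq (K := K) A 0
    have h2 : (prj A 0 * A.D).map (Int.castRingHom K) = 0 := by
      rw [prj_zero_mul_D]
      ext; simp
    rw [h2, Matrix.rank_zero, add_zero, ← prj_mul_D A 0, hrank K 0] at h1
    exact h1
  have hR : ∀ l, Fintype.card {j : Fin (n l) // (a l j : ℝ) ≠ 0} = n l := by
    intro l
    rw [Fintype.card_congr (Equiv.subtypeUnivEquiv fun j => Int.cast_ne_zero.2 ((hf l).1 j)),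
      Fintype.card_fin]
  have hp : ∀ (p : ℕ) [Fact p.Prime], ∀ j, (a 0 j : ZMod p) ≠ 0 := by
    intro p _ j hj
    have h1 := hb ℝ
    have h2 := hb (ZMod p)
    rw [hR] at h1
    rw [h p] at h2
    have h7 : Fintype.card {j : Fin (n 0) // (a 0 j : ZMod p) ≠ 0} < Fintype.card (Fin (n 0)) :=
      Fintype.card_subtype_lt (x := j) (by simpa using hj)
    rw [Fintype.card_fin] at h7
    omega
  have hunit : ∀ z : ℤ, (∀ (p : ℕ) [Fact p.Prime], (z : ZMod p) ≠ 0) → z * z = 1 := by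
    intro z hz
    have h1 : z.natAbs = 1 := by
      by_contra hne
      obtain ⟨p, hpp, hpd⟩ := Nat.exists_prime_and_dvd hne
      have : Fact p.Prime := ⟨hpp⟩
      apply hz p
      rw [ZMod.intCast_zmod_eq_zero_iff_dvd]
      exact Int.natCast_dvd.2 hpd
    rcases Int.natAbs_eq_iff.1 h1 with h2 | h2 <;> rw [h2] <;> norm_num
  obtain ⟨-, h1, h2, h3, h4, -, -, -⟩ := hf 0
  exact torsOrd_one_of_unit A 0 (a 0) (X 0) (X' 0) (Y 0) (Y' 0) h1 h2 h3 h4
    fun i => hunit _ fun p _ => hp p i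

end Pool.H71.L2
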