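import Pool.Agent.H71.L2.Key
import Pool.Agent.H71.L2.TorsFree
import Pool.Agent.H71.L2.H0
import Pool.Agent.H71.L2.RhoProd
import Pool.Agent.H71.L2.LuckEq
import Pool.Agent.H71.L2.PTProd
import Pool.Agent.H42.L2.Res
import Pool.Agent.H3.L2.Stmt

/-!
Even dimensional closed aspherical manifolds: Q1 for products implies the Singer conjecture.
-/

set_option autoImplicit false

open scoped BigOperators Topology
open MeasureTheory Filter Pool.H3.L2 Pool.H29.Mom Pool.H29.L2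

noncomputable section

namespace Pool.H71.L2

/-- Orientable closed 3-manifolds: only `H_1` has torsion. -/
theorem torsOrd_three {G : Type} [Group G] {C : BCx (GR G)} (hC : C.IsRes) (c : ResChain G)
    (hd : ∀ (K : Type) [Field K], DualBetti K C c 3) (m j : ℕ) (hj : j ≠ 1) :
    (C.cover (c.N m)).torsOrd j = 1 := by
  have h0 : ∀ (K : Type) [Field K], (C.cover (c.N m)).betti K 0 = 1 := fun K _ =>
    betti_zero_cover hC (c.N m) K
  have h3 : ∀ (K : Type) [Field K], (C.cover (c.N m)).betti K 3 = 1 := fun K _ => by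
    rw [(hd K).1 m 3 0 rfl]
    exact h0 K
  have h4 : ∀ (K : Type) [Field K] (a : ℕ), 3 < a → (C.cover (c.N m)).betti K a = 0 :=
    fun K _ a ha => (hd K).2 m a ha
  rcases j with _ | _ | _ | _ | j
  · exact torsOrd_zero_of_betti _ fun p _ => by rw [h0, h0]
  · exact absurd rfl hj
  · exact (torsOrd_one_of_betti _ 2 fun p _ => by rw [h3, h3]).1
  · exact (torsOrd_one_of_betti _ 2 fun p _ => by rw [h3, h3]).2
  · exact (torsOrd_one_of_betti _ (j + 3) fun p _ => by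
      rw [h4 _ _ (by omega), h4 _ _ (by omega)]).2

/-- The middle Betti number is determined by the Euler characteristic. -/
theorem betti_mid {e n : ℕ} (X : AsphericalMfd (2 * e)) (Y : AsphericalMfd 3)
    (hn : 2 * e + 3 = n)
    (CX : BCx (GR X.Γ)) (hCX : CX.IsRes) (cX : ResChain X.Γ)
    (CY : BCx (GR Y.Γ)) (hCY : CY.IsRes) (cY : ResChain Y.Γ)
    (hd : ∀ (K : Type) [Field K], DualBetti K CY cY 3)
    (ν : ℕ → Measure ℝ) (hν : ∀ j, CY.IsSpectral j (ν j)) (hν0 : ∀ j, ν j {0} = 0)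
    (hρ : CY.rho ν ≠ 0)
    (hF : ∀ (p : ℕ) [Fact p.Prime] (j : ℕ),
      Tendsto (fun m => ((CY.cover (cY.N m)).betti (ZMod p) j : ℝ) / ((cY.N m).index : ℝ)) atTop
        (𝓝 0))
    (hY : Q1At Y 1) (hXY : Q1At (X.prod Y hn) (e + 1)) :
    Tendsto (fun i => ((CX.cover (cX.N i)).betti ℝ e : ℝ) / ((cX.N i).index : ℝ)) atTop
      (𝓝 ((-1) ^ e * ((∑ s : CX.S, (-1 : ℤ) ^ CX.deg s : ℤ) : ℝ))) := by
  have hμ : ∀ k, ∃ μ, CX.IsSpectral k μ := fun k => exists_spectral CX cX k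
  choose μ hμ using hμ
  have hl : ∀ q, IntegrableOn Real.log (Set.Ioi 0) (ν q) := fun q => (luck_eq (hν q) cY).2
  have h1 := hY CY hCY ν hν hν0 cY
  have hv : (-1 : ℝ) ^ 1 * CY.rho ν ≠ 0 := by
    rw [pow_one, neg_one_mul]
    exact neg_ne_zero.2 hρ
  have hQ : ∀ c : ResChain (X.Γ × Y.Γ),
      Tendsto (fun i => Real.log (((CX.xtens CY).cover (c.N i)).torsOrd (e + 1)) /
        ((c.N i).index : ℝ)) atTop (𝓝 ((-1) ^ (e + 1) * (CX.xtens CY).rho (convFam μ ν))) := by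
    intro c
    exact hXY (CX.xtens CY) (Pool.H42.L2.isRes_xtens hCX hCY) (convFam μ ν)
      (fun k => spectral_xtens hμ hν k)
      (fun k => convFam_zero (fun k => isSpectral_on (hμ k)) (fun k => isSpectral_on (hν k)) hν0 k)
      c
  have h2 := key_even CX CY cX cY hv _ h1 (torsOrd_three hCY cY hd) hF
    (fun i j k => torsOrd_cover_xtens CX CY (cX.N i) (cY.N j) k) hQ
  have h3 : (-1 : ℝ) ^ (e + 1) * (CX.xtens CY).rho (convFam μ ν) / ((-1) ^ 1 * CY.rho ν) =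
      (-1) ^ e * ((∑ s : CX.S, (-1 : ℤ) ^ CX.deg s : ℤ) : ℝ) := by
    rw [rho_xtens hμ hν hν0 hl, div_eq_iff hv, pow_succ]
    ring
  rwa [h3] at h2

theorem chi_xtens {G1 G2 : Type} [Group G1] [Group G2] (C1 : BCx (GR G1)) (C2 : BCx (GR G2)) :
    ∑ s : (C1.xtens C2).S, (-1 : ℤ) ^ (C1.xtens C2).deg s =
      (∑ s : C1.S, (-1 : ℤ) ^ C1.deg s) * ∑ s : C2.S, (-1 : ℤ) ^ C2.deg s := by
  have h : ∑ s : (C1.xtens C2).S, (-1 : ℤ) ^ (C1.xtens C2).deg s =
      ∑ s : C1.S × C2.S, (-1 : ℤ) ^ (C1.deg s.1 + C2.deg s.2) := rfl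
  rw [h, Fintype.sum_prod_type, Finset.sum_mul]
  refine Finset.sum_congr rfl fun s _ => ?_
  rw [Finset.mul_sum]
  exact Finset.sum_congr rfl fun t _ => pow_add _ _ _

/-- **Q1 for products implies the Singer conjecture in even dimension.** -/
theorem singer_even {e n n' m : ℕ} (X : AsphericalMfd (2 * e)) (Y : AsphericalMfd 3)
    (hn : 2 * e + 3 = n) (hm : 2 * e + 2 * e = 2 * m) (hn' : 2 * m + 3 = n')
    (CX : BCx (GR X.Γ)) (hCX : CX.IsRes) (cX : ResChain X.Γ) (hdX : DualBetti ℝ CX cX (2 * e))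
    (μ : ℕ → Measure ℝ) (hμ : ∀ j, CX.IsSpectral j (μ j))
    (CY : BCx (GR Y.Γ)) (hCY : CY.IsRes) (cY : ResChain Y.Γ)
    (hd : ∀ (K : Type) [Field K], DualBetti K CY cY 3)
    (ν : ℕ → Measure ℝ) (hν : ∀ j, CY.IsSpectral j (ν j)) (hν0 : ∀ j, ν j {0} = 0)
    (hρ : CY.rho ν ≠ 0)
    (hF : ∀ (p : ℕ) [Fact p.Prime] (j : ℕ),
      Tendsto (fun m => ((CY.cover (cY.N m)).betti (ZMod p) j : ℝ) / ((cY.N m).index : ℝ)) atTop
        (𝓝 0))
    (hY : Q1At Y 1) (hXY : Q1At (X.prod Y hn) (e + 1))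
    (hXXY : Q1At ((X.prod X hm).prod Y hn') (m + 1)) :
    (∀ l, l ≠ e → (μ l).real {0} = 0) ∧
      (μ e).real {0} = (-1) ^ e * ((∑ s : CX.S, (-1 : ℤ) ^ CX.deg s : ℤ) : ℝ) := by
  have hme : m = e + e := by omega
  subst hme
  set χ : ℤ := ∑ s : CX.S, (-1 : ℤ) ^ CX.deg s with hχ
  have h1 := betti_mid X Y hn CX hCX cX CY hCY cY hd ν hν hν0 hρ hF hY hXY
  have h2 := (luck_eq (hμ e) cX).1
  have h3 : (μ e).real {0} = (-1) ^ e * (χ : ℝ) := tendsto_nhds_unique h2 h1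
  -- the square
  have h4 := betti_mid (e := e + e) (X.prod X hm) Y hn' (CX.xtens CX)
    (Pool.H42.L2.isRes_xtens hCX hCX) (cX.prod cX) CY hCY cY hd ν hν hν0 hρ hF hY hXXY
  have h5 := (luck_eq (spectral_xtens hμ hμ (e + e)) (cX.prod cX)).1
  have h6 : (convFam μ μ (e + e)).real {0} = (χ : ℝ) * χ := by
    have h7 := tendsto_nhds_unique h5 h4
    rw [h7, chi_xtens, ← hχ]
    push_cast
    have h8 : (-1 : ℝ) ^ (e + e) = 1 := by rw [pow_add, ← mul_pow]; norm_num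
    rw [h8, one_mul]
  rw [convFam_atom (fun k => isSpectral_on (hμ k)) (fun k => isSpectral_on (hμ k))] at h6
  -- duality
  have hdual : ∀ l ≤ e + e, (μ (e + e - l)).real {0} = (μ l).real {0} := by
    intro l hl
    have h7 := (luck_eq (hμ (e + e - l)) cX).1
    have h8 := (luck_eq (hμ l) cX).1
    refine tendsto_nhds_unique h7 (h8.congr fun i => ?_)
    rw [hdX.1 i l (e + e - l) (by omega)]
  refine ⟨fun l hl => ?_, h3⟩
  by_cases hle : l ≤ e + e
  · have h9 : ∀ p ∈ Finset.range (e + e + 1), 0 ≤ (μ p).real {0} * (μ (e + e - p)).real {0} :=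
      fun p _ => mul_nonneg measureReal_nonneg measureReal_nonneg
    have h10 : (μ e).real {0} * (μ (e + e - e)).real {0} +
        (μ l).real {0} * (μ (e + e - l)).real {0} ≤
        ∑ p ∈ Finset.range (e + e + 1), (μ p).real {0} * (μ (e + e - p)).real {0} := by
      rw [← Finset.sum_pair (f := fun p => (μ p).real {0} * (μ (e + e - p)).real {0}) hl.symm]
      refine Finset.sum_le_sum_of_subset_of_nonneg ?_ fun p hp _ => h9 p hp
      intro p hp
      rw [Finset.mem_insert, Finset.mem_singleton] at hp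
      rw [Finset.mem_range]
      omega
    rw [h6, Nat.add_sub_cancel, h3, hdual l hle] at h10
    have h11 : (-1 : ℝ) ^ e * (χ : ℝ) * ((-1) ^ e * χ) = χ * χ := by
      have : (-1 : ℝ) ^ e * (-1) ^ e = 1 := by rw [← mul_pow]; norm_num
      linear_combination (χ : ℝ) * χ * this
    rw [h11] at h10
    have h12 : (μ l).real {0} * (μ l).real {0} ≤ 0 := by linarith
    have h13 : 0 ≤ (μ l).real {0} := measureReal_nonneg
    nlinarith
  · have h7 := (luck_eq (hμ l) cX).1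
    refine tendsto_nhds_unique h7 (tendsto_const_nhds.congr fun i => ?_)
    have h8 : (CX.cover (cX.N i)).betti ℝ l = 0 := hdX.2 i l (by omega)
    rw [h8, Nat.cast_zero, zero_div]

end Pool.H71.L2
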