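import Pool.Agent.H71.L2.Ret

/-!
Homotopy retracts of an integer based complex from Smith normal forms of the boundary maps.
-/

set_option autoImplicit false

open scoped BigOperators Kronecker
open Matrix Pool.H3.L2 Pool.H16.L2

noncomputable section

namespace Pool.H71.L2

/-- `M` shifts degrees by `c`. -/
def Shift {R S T : Type} [Ring R] (d : S → ℤ) (e : T → ℤ) (c : ℤ) (M : Matrix S T R) : Prop :=
  ∀ s t, M s t ≠ 0 → e t = d s + c

section shift

variable {R S T U : Type} [Ring R] {d : S → ℤ} {e : T → ℤ} {f : U → ℤ} {c c' : ℤ}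

theorem Shift.mul [Fintype T] {M : Matrix S T R} {M' : Matrix T U R} (h : Shift d e c M)
    (h' : Shift e f c' M') : Shift d f (c + c') (M * M') := by
  intro s u hne
  rw [Matrix.mul_apply] at hne
  obtain ⟨t, -, ht⟩ := Finset.exists_ne_zero_of_sum_ne_zero hne
  have h1 := h s t (fun h0 => ht (by rw [h0, zero_mul]))
  have h2 := h' t u (fun h0 => ht (by rw [h0, mul_zero]))
  omega

theorem Shift.add {M M' : Matrix S T R} (h : Shift d e c M)
    (h' : Shift d e c M') : Shift d e c (M + M') := by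
  intro s t hne
  rw [Matrix.add_apply] at hne
  by_cases h0 : M s t = 0
  · rw [h0, zero_add] at hne
    exact h' s t hne
  · exact h s t h0

theorem Shift.sub {M M' : Matrix S T R} (h : Shift d e c M)
    (h' : Shift d e c M') : Shift d e c (M - M') := by
  intro s t hne
  rw [Matrix.sub_apply] at hne
  by_cases h0 : M s t = 0
  · rw [h0, zero_sub] at hne
    exact h' s t (fun h1 => hne (by rw [h1, neg_zero]))
  · exact h s t h0

theorem Shift.one [DecidableEq S] : Shift d d 0 (1 : Matrix S S R) := by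
  intro s t hne
  by_cases h : s = t
  · rw [h, add_zero]
  · exact absurd (Matrix.one_apply_ne h) hne

theorem Shift.diag [DecidableEq S] (a : S → R) : Shift d d 0 (Matrix.diagonal a) := by
  intro s t hne
  by_cases h : s = t
  · rw [h, add_zero]
  · exact absurd (Matrix.diagonal_apply_ne a h) hne

theorem Shift.cast {M : Matrix S T R} (h : Shift d e c M) (hc : c = c') : Shift d e c' M := hc ▸ h

end shift

/-- Algebraic core: from a factorisation of the boundary map to a homotopy retract. -/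
theorem exists_G {R : Type} [CommRing R] (A : BCx R) {ι : Type} [Fintype ι] [DecidableEq ι]
    (dg : ι → ℤ) (a b : ι → R) (N : R) (hab : ∀ i, a i * b i = N)
    (hreg : ∀ i r, a i * r = 0 → r = 0) (X Y : Matrix ι A.S R) (X' Y' : Matrix A.S ι R)
    (hX : X * X' = 1) (hY : Y * Y' = 1) (hD : A.D = X' * Matrix.diagonal a * Y)
    (sX : Shift dg (fun s => (A.deg s : ℤ)) 1 X) (sX' : Shift (fun s => (A.deg s : ℤ)) dg (-1) X')
    (sY : Shift dg (fun s => (A.deg s : ℤ)) 0 Y) (sY' : Shift (fun s => (A.deg s : ℤ)) dg 0 Y') :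
    ∃ G h : Matrix A.S A.S R, G * G = G ∧ G * A.D = 0 ∧ A.D * G = 0 ∧
      Shift (fun s => (A.deg s : ℤ)) (fun s => (A.deg s : ℤ)) 0 G ∧
      Shift (fun s => (A.deg s : ℤ)) (fun s => (A.deg s : ℤ)) 1 h ∧
      N • (1 : Matrix A.S A.S R) = N • G + A.D * h + h * A.D := by
  have hYX : Y * X' = 0 := by
    have h1 : Matrix.diagonal a * (Y * X') * Matrix.diagonal a = 0 := by
      have h2 : X * (A.D * A.D) * Y' = 0 := by rw [A.D_D, Matrix.mul_zero, Matrix.zero_mul]
      rw [hD] at h2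
      have h3 : X * (X' * Matrix.diagonal a * Y * (X' * Matrix.diagonal a * Y)) * Y' =
          (X * X') * (Matrix.diagonal a * (Y * X') * Matrix.diagonal a) * (Y * Y') := by
        simp only [Matrix.mul_assoc]
      rw [h3, hX, hY, Matrix.one_mul, Matrix.mul_one] at h2
      exact h2
    ext i j
    have h2 := congrFun (congrFun h1 i) j
    rw [Matrix.mul_diagonal, Matrix.diagonal_mul, Matrix.zero_apply, mul_assoc] at h2
    have h3 := hreg i _ h2
    rw [mul_comm] at h3
    exact hreg j _ h3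
  have hXD : X * A.D = Matrix.diagonal a * Y := by
    rw [hD, ← Matrix.mul_assoc, ← Matrix.mul_assoc, hX, Matrix.one_mul]
  have hYD : Y * A.D = 0 := by
    rw [hD, ← Matrix.mul_assoc, ← Matrix.mul_assoc, hYX, Matrix.zero_mul, Matrix.zero_mul]
  have hDX : A.D * X' = 0 := by
    rw [hD, Matrix.mul_assoc, hYX, Matrix.mul_zero]
  have hDY : A.D * Y' = X' * Matrix.diagonal a := by
    rw [hD, Matrix.mul_assoc, hY, Matrix.mul_one]
  set Xt := X - X * Y' * Y with hXt
  have t1 : Xt * X' = 1 := by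
    rw [hXt, Matrix.sub_mul, hX, Matrix.mul_assoc, hYX, Matrix.mul_zero, sub_zero]
  have t2 : Xt * Y' = 0 := by
    rw [hXt, Matrix.sub_mul, Matrix.mul_assoc, hY, Matrix.mul_one, sub_self]
  have t3 : Xt * A.D = Matrix.diagonal a * Y := by
    rw [hXt, Matrix.sub_mul, Matrix.mul_assoc, hYD, Matrix.mul_zero, sub_zero, hXD]
  have sXt : Shift dg (fun s => (A.deg s : ℤ)) 1 Xt :=
    sX.sub (((sX.mul sY').mul sY).cast (by norm_num))
  have hda : Matrix.diagonal a * Matrix.diagonal b = N • (1 : Matrix ι ι R) := by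
    rw [Matrix.diagonal_mul_diagonal, ← Matrix.diagonal_one, ← Matrix.diagonal_smul]
    congr 1
    funext i
    rw [hab, Pi.smul_apply, smul_eq_mul, mul_one]
  have hdb : Matrix.diagonal b * Matrix.diagonal a = N • (1 : Matrix ι ι R) := by
    rw [Matrix.diagonal_mul_diagonal, ← Matrix.diagonal_one, ← Matrix.diagonal_smul]
    congr 1
    funext i
    rw [mul_comm, hab, Pi.smul_apply, smul_eq_mul, mul_one]
  refine ⟨1 - X' * Xt - Y' * Y, Y' * Matrix.diagonal b * Xt, ?_, ?_, ?_, ?_, ?_, ?_⟩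
  · have e1 : X' * Xt * (X' * Xt) = X' * Xt := by
      rw [Matrix.mul_assoc, ← Matrix.mul_assoc Xt, t1, Matrix.one_mul]
    have e2 : X' * Xt * (Y' * Y) = 0 := by
      rw [Matrix.mul_assoc, ← Matrix.mul_assoc Xt, t2, Matrix.zero_mul, Matrix.mul_zero]
    have e3 : Y' * Y * (X' * Xt) = 0 := by
      rw [Matrix.mul_assoc, ← Matrix.mul_assoc Y, hYX, Matrix.zero_mul, Matrix.mul_zero]
    have e4 : Y' * Y * (Y' * Y) = Y' * Y := by
      rw [Matrix.mul_assoc, ← Matrix.mul_assoc Y, hY, Matrix.one_mul]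
    simp only [Matrix.mul_sub, Matrix.sub_mul, Matrix.mul_one, Matrix.one_mul, e1, e2, e3, e4]
    abel
  · rw [Matrix.sub_mul, Matrix.sub_mul, Matrix.one_mul, Matrix.mul_assoc, t3, Matrix.mul_assoc, hYD,
      Matrix.mul_zero, ← Matrix.mul_assoc, ← hD, sub_self, sub_zero]
  · rw [Matrix.mul_sub, Matrix.mul_sub, Matrix.mul_one, ← Matrix.mul_assoc, hDX, Matrix.zero_mul,
      ← Matrix.mul_assoc, hDY, ← hD, sub_zero, sub_self]
  · refine (Shift.one.sub ((sX'.mul sXt).cast (by norm_num))).sub ((sY'.mul sY).cast (by norm_num))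
  · exact ((sY'.mul (Shift.diag b)).mul sXt).cast (by norm_num)
  · have e1 : A.D * (Y' * Matrix.diagonal b * Xt) = N • (X' * Xt) := by
      rw [← Matrix.mul_assoc, ← Matrix.mul_assoc, hDY, Matrix.mul_assoc X', hda, Matrix.mul_smul,
        Matrix.mul_one, Matrix.smul_mul]
    have e2 : Y' * Matrix.diagonal b * Xt * A.D = N • (Y' * Y) := by
      rw [Matrix.mul_assoc, t3, ← Matrix.mul_assoc, Matrix.mul_assoc Y', hdb, Matrix.mul_smul,
        Matrix.mul_one, Matrix.smul_mul]
    rw [e1, e2, smul_sub, smul_sub]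
    abel

/-- Smith normal forms in all degrees. -/
theorem exists_fac (A : BCx ℤ) : ∃ (n : ℕ → ℕ) (a : (k : ℕ) → Fin (n k) → ℤ)
    (X : (k : ℕ) → Matrix (Fin (n k)) A.S ℤ) (X' : (k : ℕ) → Matrix A.S (Fin (n k)) ℤ)
    (Y : (k : ℕ) → Matrix (Fin (n k)) A.S ℤ) (Y' : (k : ℕ) → Matrix A.S (Fin (n k)) ℤ),
    ∀ k, (∀ i, a k i ≠ 0) ∧ X k * X' k = 1 ∧ Y k * Y' k = 1 ∧
      prj A (k + 1) * A.D = X' k * Matrix.diagonal (a k) * Y k ∧
      X k * prj A (k + 1) = X k ∧ prj A (k + 1) * X' k = X' k ∧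
      Y k * prj A k = Y k ∧ prj A k * Y' k = Y' k := by
  have key : ∀ k, ∃ (n : ℕ) (a : Fin n → ℤ) (X : Matrix (Fin n) A.S ℤ) (X' : Matrix A.S (Fin n) ℤ)
      (Y : Matrix (Fin n) A.S ℤ) (Y' : Matrix A.S (Fin n) ℤ),
      (∀ i, a i ≠ 0) ∧ X * X' = 1 ∧ Y * Y' = 1 ∧
      prj A (k + 1) * A.D = X' * Matrix.diagonal a * Y ∧
      X * prj A (k + 1) = X ∧ prj A (k + 1) * X' = X' ∧ Y * prj A k = Y ∧ prj A k * Y' = Y' := by
    intro k
    obtain ⟨n, a, X, X', Y, Y', ha, hX, hY, hM⟩ := exists_snf (prj A (k + 1) * A.D)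
    have h1 : prj A (k + 1) * X' = X' := by
      apply diag_cancel' ha
      have h2 : prj A (k + 1) * (prj A (k + 1) * A.D) * Y' = prj A (k + 1) * A.D * Y' := by
        rw [← Matrix.mul_assoc, prj_mul_prj]
      rw [hM] at h2
      have h3 : prj A (k + 1) * (X' * Matrix.diagonal a * Y) * Y' =
          prj A (k + 1) * X' * Matrix.diagonal a * (Y * Y') := by
        simp only [Matrix.mul_assoc]
      have h4 : X' * Matrix.diagonal a * Y * Y' = X' * Matrix.diagonal a * (Y * Y') := by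
        simp only [Matrix.mul_assoc]
      rw [h3, h4, hY, Matrix.mul_one, Matrix.mul_one] at h2
      exact h2
    have h5 : Y * prj A k = Y := by
      apply diag_cancel ha
      have h2 : X * (prj A (k + 1) * A.D * prj A k) = X * (prj A (k + 1) * A.D) := by
        rw [prj_mul_D, Matrix.mul_assoc, prj_mul_prj]
      rw [hM] at h2
      have h3 : X * (X' * Matrix.diagonal a * Y * prj A k) =
          (X * X') * (Matrix.diagonal a * (Y * prj A k)) := by
        simp only [Matrix.mul_assoc]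
      have h4 : X * (X' * Matrix.diagonal a * Y) = (X * X') * (Matrix.diagonal a * Y) := by
        simp only [Matrix.mul_assoc]
      rw [h3, h4, hX, Matrix.one_mul, Matrix.one_mul] at h2
      exact h2
    refine ⟨n, a, X * prj A (k + 1), X', Y, prj A k * Y', ha, ?_, ?_, hM, ?_, h1, h5, ?_⟩
    · rw [Matrix.mul_assoc, h1, hX]
    · rw [← Matrix.mul_assoc, h5, hY]
    · rw [Matrix.mul_assoc, prj_mul_prj]
    · rw [← Matrix.mul_assoc, prj_mul_prj]
  choose n a X X' Y Y' h using key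
  exact ⟨n, a, X, X', Y, Y', h⟩

end Pool.H71.L2
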