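import Pool.Agent.H71.L2.Even
import Pool.Agent.H3.L2.Euler

/-!
`Q1` for the cube of a closed orientable aspherical `L2`-acyclic 3-manifold implies that all mod `p`
Betti numbers of its covers grow sublinearly.
-/

set_option autoImplicit false

open scoped BigOperators Topology
open MeasureTheory Filter Pool.H3.L2 Pool.H29.Mom Pool.H29.L2

noncomputable section

namespace Pool.H71.L2

/-- A sequence whose cube tends to zero tends to zero. -/
theorem tendsto_zero_of_cube {u : ℕ → ℝ} (h0 : ∀ n, 0 ≤ u n)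
    (h : Tendsto (fun n => u n ^ 3) atTop (𝓝 0)) : Tendsto u atTop (𝓝 0) := by
  rw [Metric.tendsto_atTop] at h ⊢
  intro ε hε
  obtain ⟨N, hN⟩ := h (ε ^ 3) (by positivity)
  refine ⟨N, fun n hn => ?_⟩
  have h1 := hN n hn
  rw [Real.dist_eq, sub_zero, abs_of_nonneg (pow_nonneg (h0 n) 3)] at h1
  rw [Real.dist_eq, sub_zero, abs_of_nonneg (h0 n)]
  exact lt_of_pow_lt_pow_left₀ 3 hε.le h1

theorem fp_zero (Y : AsphericalMfd 3) (hY3 : Q1At (Y.prod (Y.prod Y (n := 6) rfl) (n := 9) rfl) 4)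
    (CY : BCx (GR Y.Γ)) (hCY : CY.IsRes) (cY : ResChain Y.Γ)
    (hd : ∀ (K : Type) [Field K], DualBetti K CY cY 3)
    (ν : ℕ → Measure ℝ) (hν : ∀ j, CY.IsSpectral j (ν j)) (hν0 : ∀ j, ν j {0} = 0)
    (p : ℕ) [hp : Fact p.Prime] (j : ℕ) :
    Tendsto (fun m => ((CY.cover (cY.N m)).betti (ZMod p) j : ℝ) / ((cY.N m).index : ℝ)) atTop
      (𝓝 0) := by
  have hl : ∀ q, IntegrableOn Real.log (Set.Ioi 0) (ν q) := fun q => (luck_eq (hν q) cY).2
  have hχ : (∑ s : CY.S, (-1 : ℤ) ^ CY.deg s) = 0 := euler_zero (by decide) (hd ℝ)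
  -- the torsion of the cube is small
  have hν2 : ∀ k, (CY.xtens CY).IsSpectral k (convFam ν ν k) := fun k => spectral_xtens hν hν k
  have hν20 : ∀ k, convFam ν ν k {0} = 0 := fun k =>
    convFam_zero (fun k => isSpectral_on (hν k)) (fun k => isSpectral_on (hν k)) hν0 k
  have hν3 : ∀ k, (CY.xtens (CY.xtens CY)).IsSpectral k (convFam ν (convFam ν ν) k) := fun k =>
    spectral_xtens hν hν2 k
  have hν30 : ∀ k, convFam ν (convFam ν ν) k {0} = 0 := fun k =>
    convFam_zero (fun k => isSpectral_on (hν k)) (fun k => isSpectral_on (hν2 k)) hν20 k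
  have hres2 := Pool.H42.L2.isRes_xtens hCY hCY
  have hres3 := Pool.H42.L2.isRes_xtens hCY hres2
  have h1 : Tendsto (fun m =>
        Real.log (((CY.xtens (CY.xtens CY)).cover ((cY.prod (cY.prod cY)).N m)).torsOrd 4) /
          (((cY.prod (cY.prod cY)).N m).index : ℝ)) atTop
      (𝓝 ((-1) ^ 4 * (CY.xtens (CY.xtens CY)).rho (convFam ν (convFam ν ν)))) :=
    hY3 (CY.xtens (CY.xtens CY)) hres3 (convFam ν (convFam ν ν)) hν3 hν30 (cY.prod (cY.prod cY))
  have hρ : (CY.xtens (CY.xtens CY)).rho (convFam ν (convFam ν ν)) = 0 := by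
    rw [rho_xtens hν hν2 hν20 (fun q => (luck_eq (hν2 q) (cY.prod cY)).2), hχ]
    simp
  rw [hρ, mul_zero] at h1
  -- torsion of rank `t m` in `H_1`
  have htf : ∀ m, ∃ tf : ℕ → ℕ, (∀ k, HasPT p (CY.cover (cY.N m)) k (tf k)) ∧
      (CY.cover (cY.N m)).betti (ZMod p) 0 = (CY.cover (cY.N m)).betti ℝ 0 + tf 0 ∧
      ∀ k, (CY.cover (cY.N m)).betti (ZMod p) (k + 1) =
        (CY.cover (cY.N m)).betti ℝ (k + 1) + tf (k + 1) + tf k := fun m => exists_tf _ p
  choose tf htf1 htf2 htf3 using htf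
  have hp1 : 1 < p := hp.out.one_lt
  have htf0 : ∀ m k, k ≠ 1 → tf m k = 0 := by
    intro m k hk
    have h2 := (htf1 m k).le
    rw [torsOrd_three hCY cY hd m k hk] at h2
    by_contra h3
    have h4 : 1 < p ^ tf m k := Nat.one_lt_pow h3 hp1
    omega
  have hpow : ∀ m, p ^ (tf m 1 * (tf m 1 * tf m 1)) ≤
      ((CY.xtens (CY.xtens CY)).cover ((cY.prod (cY.prod cY)).N m)).torsOrd 4 := by
    intro m
    have h2 : HasPT p ((CY.xtens CY).cover ((cY.prod cY).N m)) 2 (tf m 1 * tf m 1) :=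
      hasPT_cover_xtens CY CY (cY.N m) (cY.N m) ((htf1 m 1).low (htf1 m 1))
    have hfin : ((cY.N m).prod ((cY.prod cY).N m)).FiniteIndex := (cY.prod (cY.prod cY)).fin m
    have h3 : HasPT p ((CY.xtens (CY.xtens CY)).cover ((cY.prod (cY.prod cY)).N m)) 4
        (tf m 1 * (tf m 1 * tf m 1)) :=
      hasPT_cover_xtens CY (CY.xtens CY) (cY.N m) ((cY.prod cY).N m) ((htf1 m 1).up h2)
    exact h3.le
  have hlogp : 0 < Real.log p := Real.log_pos (by exact_mod_cast hp1)
  have hidx : ∀ m, (0 : ℝ) < ((cY.N m).index : ℝ) := fun m => by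
    exact_mod_cast Nat.pos_of_ne_zero (cY.fin m).index_ne_zero
  have hcube : Tendsto (fun m => ((tf m 1 : ℝ) / ((cY.N m).index : ℝ)) ^ 3) atTop (𝓝 0) := by
    have h2 : Tendsto (fun m =>
        Real.log (((CY.xtens (CY.xtens CY)).cover ((cY.prod (cY.prod cY)).N m)).torsOrd 4) /
          (((cY.prod (cY.prod cY)).N m).index : ℝ) / Real.log p) atTop (𝓝 0) := by
      have h3 := h1.div_const (Real.log p)
      rwa [zero_div] at h3
    refine squeeze_zero (fun m => by positivity) (fun m => ?_) h2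
    have h4 : (((cY.prod (cY.prod cY)).N m).index : ℝ) = ((cY.N m).index : ℝ) ^ 3 := by
      rw [ResChain.prod_index, ResChain.prod_index]
      push_cast
      ring
    have h5 : (tf m 1 : ℝ) ^ 3 * Real.log p ≤
        Real.log (((CY.xtens (CY.xtens CY)).cover ((cY.prod (cY.prod cY)).N m)).torsOrd 4) := by
      have h6 : Real.log ((p ^ (tf m 1 * (tf m 1 * tf m 1)) : ℕ) : ℝ) ≤
          Real.log (((CY.xtens (CY.xtens CY)).cover ((cY.prod (cY.prod cY)).N m)).torsOrd 4) :=
        Real.log_le_log (by exact_mod_cast pow_pos (by omega) _) (by exact_mod_cast hpow m)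
      refine le_trans (le_of_eq ?_) h6
      push_cast
      rw [Real.log_pow]
      push_cast
      ring
    rw [h4, div_pow, div_right_comm]
    refine div_le_div_of_nonneg_right ?_ (by positivity)
    rw [le_div_iff₀ hlogp]
    exact h5
  have ht : Tendsto (fun m => (tf m 1 : ℝ) / ((cY.N m).index : ℝ)) atTop (𝓝 0) :=
    tendsto_zero_of_cube (fun m => by positivity) hcube
  have htk : ∀ k, Tendsto (fun m => (tf m k : ℝ) / ((cY.N m).index : ℝ)) atTop (𝓝 0) := by
    intro k
    by_cases hk : k = 1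
    · rw [hk]; exact ht
    · refine tendsto_const_nhds.congr fun m => ?_
      rw [htf0 m k hk, Nat.cast_zero, zero_div]
  have hb : ∀ k, Tendsto (fun m => ((CY.cover (cY.N m)).betti ℝ k : ℝ) / ((cY.N m).index : ℝ))
      atTop (𝓝 0) := by
    intro k
    have h2 := (luck_eq (hν k) cY).1
    have h3 : (ν k).real {0} = 0 := by
      rw [Measure.real, hν0 k, ENNReal.toReal_zero]
    rwa [h3] at h2
  rcases j with _ | k
  · have h2 := (hb 0).add (htk 0)
    rw [add_zero] at h2
    refine h2.congr fun m => ?_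
    rw [htf2 m]
    push_cast
    rw [add_div]
  · have h2 := ((hb (k + 1)).add (htk (k + 1))).add (htk k)
    rw [add_zero, add_zero] at h2
    refine h2.congr fun m => ?_
    rw [htf3 m k]
    push_cast
    rw [add_div, add_div]

end Pool.H71.L2
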