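import Pool.Agent.H71.L2.RetInt

/-!
Homology of the tensor product with a complex with zero boundary map.
-/

set_option autoImplicit false

open scoped BigOperators Kronecker
open Matrix Pool.H3.L2 Pool.H16.L2

noncomputable section

namespace Pool.H71.L2

section zero

variable {R : Type} [CommRing R] (F B : BCx R)

theorem tn_D_zero (hF : F.D = 0) (v : F.S × B.S → R) (i : F.S) (t : B.S) :
    Matrix.vecMul v (show Matrix (F.S × B.S) (F.S × B.S) R from (tn F B).D) (i, t) =
      (-1) ^ F.deg i * Matrix.vecMul (fun u => v (i, u)) B.D t := by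
  have e : ∀ (j : F.S) (u : B.S), (show Matrix (F.S × B.S) (F.S × B.S) R from (tn F B).D)
      (j, u) (i, t) = if j = i then (-1) ^ F.deg i * B.D u t else 0 := by
    intro j u
    rw [tn_D, hF]
    have e1 : ((0 : Matrix F.S F.S R) ⊗ₖ (1 : Matrix B.S B.S R) + sgnM R F.deg ⊗ₖ B.D :
        Matrix (F.S × B.S) (F.S × B.S) R) (j, u) (i, t) =
        if j = i then (-1) ^ F.deg i * B.D u t else 0 := by
      rw [Matrix.add_apply, Matrix.kronecker_apply, Matrix.kronecker_apply, Matrix.zero_apply,
        zero_mul, zero_add, sgnM]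
      by_cases h : j = i
      · subst h
        rw [Matrix.diagonal_apply_eq, if_pos rfl]
      · rw [Matrix.diagonal_apply_ne _ h, zero_mul, if_neg h]
    exact e1
  have e2 : Matrix.vecMul v (show Matrix (F.S × B.S) (F.S × B.S) R from (tn F B).D) (i, t) =
      ∑ j : F.S, ∑ u : B.S, v (j, u) * if j = i then (-1) ^ F.deg i * B.D u t else 0 := by
    rw [← Fintype.sum_prod_type (f := fun x : F.S × B.S =>
      v x * if x.1 = i then (-1) ^ F.deg i * B.D x.2 t else 0)]
    show ∑ x, v x * _ = _
    exact Finset.sum_congr rfl fun x _ => congrArg (v x * ·) (e x.1 x.2)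
  rw [e2, Finset.sum_eq_single i]
  · simp only [if_true]
    show _ = (-1) ^ F.deg i * ∑ u, v (i, u) * B.D u t
    rw [Finset.mul_sum]
    exact Finset.sum_congr rfl fun u _ => by ring
  · intro j _ hj
    exact Finset.sum_eq_zero fun u _ => by rw [if_neg hj, mul_zero]
  · intro h
    exact absurd (Finset.mem_univ _) h

variable {F}

/-- Component of a cycle. -/
def compZ (hF : F.D = 0) (k : ℕ) (i : {i : F.S // F.deg i ≤ k}) :
    (tn F B).Zk k →ₗ[R] B.Zk (k - F.deg i.1) where
  toFun v := ⟨fun t => v.1 (i.1, t), by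
    refine ⟨fun t ht => v.2.1 (i.1, t) ?_, ?_⟩
    · show F.deg i.1 + B.deg t ≠ k
      have := i.2
      omega
    · funext t
      have h1 := congrFun v.2.2 (i.1, t)
      have h2 := tn_D_zero F B hF v.1 i.1 t
      have h3 : (-1 : R) ^ F.deg i.1 * Matrix.vecMul (fun u => v.1 (i.1, u)) B.D t = 0 :=
        h2.symm.trans h1
      rcases neg_one_pow_eq_or R (F.deg i.1) with h4 | h4
      · rwa [h4, one_mul] at h3
      · rw [h4, neg_mul, one_mul, neg_eq_zero] at h3
        exact h3⟩
  map_add' _ _ := rfl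
  map_smul' _ _ := rfl

/-- Component of a homology class. -/
def compH (hF : F.D = 0) (k : ℕ) (i : {i : F.S // F.deg i ≤ k}) :
    (tn F B).Hk k →ₗ[R] B.Hk (k - F.deg i.1) :=
  Submodule.mapQ _ _ (compZ B hF k i) (by
    rintro v hv
    obtain ⟨w, hw, hwD⟩ := (show v.1 ∈ (tn F B).Bk k from hv)
    show (fun t => v.1 (i.1, t)) ∈ B.Bk (k - F.deg i.1)
    refine ⟨(-1 : R) ^ F.deg i.1 • fun t => w (i.1, t), fun t ht => ?_, ?_⟩
    · have h1 : w (i.1, t) = 0 := hw (i.1, t) (by
        show F.deg i.1 + B.deg t ≠ k + 1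
        have := i.2
        omega)
      rw [Pi.smul_apply, h1, smul_zero]
    · funext t
      rw [Matrix.smul_vecMul, Pi.smul_apply, smul_eq_mul]
      exact (tn_D_zero F B hF w i.1 t).symm.trans (congrFun hwD (i.1, t)))

/-- All components. -/
def compAll (hF : F.D = 0) (k : ℕ) :
    (tn F B).Hk k →ₗ[R] ((i : {i : F.S // F.deg i ≤ k}) → B.Hk (k - F.deg i.1)) :=
  LinearMap.pi fun i => compH B hF k i

theorem compAll_injective (hF : F.D = 0) (k : ℕ) : Function.Injective (compAll B hF k) := by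
  classical
  refine (injective_iff_map_eq_zero _).2 fun x hx => ?_
  induction x using Submodule.Quotient.induction_on with | _ v =>
  have h1 : ∀ i : {i : F.S // F.deg i ≤ k}, (fun t => v.1 (i.1, t)) ∈ B.Bk (k - F.deg i.1) := by
    intro i
    have h2 : compH B hF k i (Submodule.Quotient.mk v) = 0 := congrFun hx i
    exact (Hk_mk_eq_zero (compZ B hF k i v)).1 h2
  choose u hu huD using h1
  rw [Hk_mk_eq_zero]
  refine ⟨fun x : F.S × B.S => if h : F.deg x.1 ≤ k then (-1 : R) ^ F.deg x.1 * u ⟨x.1, h⟩ x.2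
    else 0, ?_, ?_⟩
  · rintro ⟨i, t⟩ hne
    have hne' : F.deg i + B.deg t ≠ k + 1 := hne
    show (if h : F.deg i ≤ k then (-1 : R) ^ F.deg i * u ⟨i, h⟩ t else 0) = 0
    by_cases h : F.deg i ≤ k
    · have h3 : B.deg t ≠ k - F.deg i + 1 := by omega
      rw [dif_pos h, hu ⟨i, h⟩ t h3, mul_zero]
    · rw [dif_neg h]
  · funext x
    obtain ⟨i, t⟩ := x
    refine (tn_D_zero F B hF _ i t).trans ?_
    by_cases h : F.deg i ≤ k
    · have e : (fun t => if h : F.deg i ≤ k then (-1 : R) ^ F.deg i * u ⟨i, h⟩ t else 0) =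
          (-1 : R) ^ F.deg i • u ⟨i, h⟩ := by
        funext t
        rw [dif_pos h, Pi.smul_apply, smul_eq_mul]
      show (-1 : R) ^ F.deg i * Matrix.vecMul
        (fun t => if h : F.deg i ≤ k then (-1 : R) ^ F.deg i * u ⟨i, h⟩ t else 0) B.D t = _
      rw [e, Matrix.smul_vecMul, huD ⟨i, h⟩, Pi.smul_apply, smul_eq_mul, ← mul_assoc, ← mul_pow,
        neg_one_mul, neg_neg, one_pow, one_mul]
    · have e : (fun t : B.S => if h : F.deg i ≤ k then (-1 : R) ^ F.deg i * u ⟨i, h⟩ t else 0) =
          0 := by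
        funext t
        rw [dif_neg h]
        rfl
      show (-1 : R) ^ F.deg i * Matrix.vecMul
        (fun t => if h : F.deg i ≤ k then (-1 : R) ^ F.deg i * u ⟨i, h⟩ t else 0) B.D t = _
      rw [e, Matrix.zero_vecMul, Pi.zero_apply, mul_zero]
      symm
      exact v.2.1 (i, t) (by
        show F.deg i + B.deg t ≠ k
        omega)

end zero

/-- Torsion of the tensor product with a complex with zero boundary map. -/
theorem torsOrd_tn_zero (F B : BCx ℤ) (hF : F.D = 0) (k : ℕ) :
    (tn F B).torsOrd k ≤ ∏ i : {i : F.S // F.deg i ≤ k}, B.torsOrd (k - F.deg i.1) := by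
  classical
  have hfin : ∀ l, Finite (Submodule.torsion ℤ (B.Hk l)) := fun l => by
    have h1 : Module.Finite ℤ (Submodule.torsion ℤ (B.Hk l)) := inferInstance
    exact Module.finite_of_fg_torsion _ (Submodule.torsion_isTorsion)
  unfold BCx.torsOrd
  rw [← Nat.card_pi]
  have hm : ∀ (x : Submodule.torsion ℤ ((tn F B).Hk k)) (i : {i : F.S // F.deg i ≤ k}),
      compH B hF k i x.1 ∈ Submodule.torsion ℤ (B.Hk (k - F.deg i.1)) := by
    intro x i
    obtain ⟨a, ha⟩ := (Submodule.mem_torsion_iff _).1 x.2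
    rw [Submodule.mem_torsion_iff]
    refine ⟨a, ?_⟩
    have h1 : a • compH B hF k i x.1 = compH B hF k i (a • x.1) :=
      ((compH B hF k i).map_smul (a : ℤ) _).symm
    rw [h1, ha, map_zero]
  refine Nat.card_le_card_of_injective (fun x i => (⟨compH B hF k i x.1, hm x i⟩ :
    Submodule.torsion ℤ (B.Hk (k - F.deg i.1)))) ?_
  intro x y hxy
  apply Subtype.ext
  apply compAll_injective B hF k
  funext i
  exact congrArg Subtype.val (congrFun hxy i)

/-- Betti numbers of the tensor product with a complex with zero boundary map. -/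
theorem finrank_tn_zero {K : Type} [Field K] (F B : BCx K) (hF : F.D = 0) (k : ℕ) :
    Module.finrank K ((tn F B).Hk k) ≤
      ∑ i : {i : F.S // F.deg i ≤ k}, Module.finrank K (B.Hk (k - F.deg i.1)) := by
  have h := LinearMap.finrank_le_finrank_of_injective (compAll_injective B hF k)
  have : ∀ i : {i : F.S // F.deg i ≤ k}, Module.Free K (B.Hk (k - F.deg i.1)) := fun i =>
    Module.Free.of_divisionRing K _
  rwa [Module.finrank_pi_fintype] at h

end Pool.H71.L2
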