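import Pool.Agent.H71.L2.Fac

/-!
Global factorisation of the boundary map, existence of retracts.
-/

set_option autoImplicit false

open scoped BigOperators Kronecker
open Matrix Pool.H3.L2 Pool.H16.L2

noncomputable section

namespace Pool.H71.L2

/-- rows of a family of matrices -/
def glueR {S : Type} {K : ℕ} {n : ℕ → ℕ} (P : (k : ℕ) → Matrix (Fin (n k)) S ℤ) :
    Matrix (Σ k : Fin K, Fin (n k)) S ℤ := Matrix.of fun i s => P i.1 i.2 s

/-- columns of a family of matrices -/
def glueC {S : Type} {K : ℕ} {n : ℕ → ℕ} (P : (k : ℕ) → Matrix S (Fin (n k)) ℤ) :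
    Matrix S (Σ k : Fin K, Fin (n k)) ℤ := Matrix.of fun s i => P i.1 s i.2

theorem glue_one {S : Type} [Fintype S] {K : ℕ} {n : ℕ → ℕ}
    (P : (k : ℕ) → Matrix (Fin (n k)) S ℤ) (Q : (k : ℕ) → Matrix S (Fin (n k)) ℤ)
    (h1 : ∀ k, P k * Q k = 1) (h0 : ∀ k l, k ≠ l → P k * Q l = 0) :
    (glueR P : Matrix (Σ k : Fin K, Fin (n k)) S ℤ) *
      (glueC Q : Matrix S (Σ k : Fin K, Fin (n k)) ℤ) = 1 := by
  ext ⟨k, i⟩ ⟨l, j⟩
  have e : ((glueR P : Matrix (Σ k : Fin K, Fin (n k)) S ℤ) *
      (glueC Q : Matrix S (Σ k : Fin K, Fin (n k)) ℤ)) ⟨k, i⟩ ⟨l, j⟩ = (P k * Q l) i j := rfl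
  rw [e]
  by_cases hkl : k = l
  · subst hkl
    rw [h1]
    by_cases hij : i = j
    · subst hij
      rw [Matrix.one_apply_eq, Matrix.one_apply_eq]
    · rw [Matrix.one_apply_ne hij, Matrix.one_apply_ne]
      intro h
      exact hij (eq_of_heq (Sigma.mk.inj_iff.1 h).2)
  · rw [h0 k l (fun h => hkl (Fin.ext h)), Matrix.zero_apply, Matrix.one_apply_ne]
    intro h
    exact hkl (Sigma.mk.inj_iff.1 h).1

theorem glue_diag {S : Type} [Fintype S] {K : ℕ} {n : ℕ → ℕ} (a : (k : ℕ) → Fin (n k) → ℤ)
    (P : (k : ℕ) → Matrix (Fin (n k)) S ℤ) (Q : (k : ℕ) → Matrix S (Fin (n k)) ℤ) :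
    (glueC Q : Matrix S (Σ k : Fin K, Fin (n k)) ℤ) *
      (Matrix.diagonal fun i : (Σ k : Fin K, Fin (n k)) => a i.1 i.2) *
      (glueR P : Matrix (Σ k : Fin K, Fin (n k)) S ℤ) =
      ∑ k : Fin K, Q k * Matrix.diagonal (a k) * P k := by
  ext s t
  rw [Matrix.mul_apply, Fintype.sum_sigma, Matrix.sum_apply]
  refine Finset.sum_congr rfl fun k _ => ?_
  rw [Matrix.mul_apply]
  refine Finset.sum_congr rfl fun i _ => ?_
  rw [Matrix.mul_diagonal, Matrix.mul_diagonal]
  rfl

theorem prj_mul_ne_zero {R : Type} [Ring R] {S : Type} (C : BCx R) {k : ℕ} {M : Matrix S C.S R}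
    (h : M * prj C k = M) {i : S} {s : C.S} (hne : M i s ≠ 0) : C.deg s = k := by
  by_contra hc
  apply hne
  rw [← h, prj, Matrix.mul_diagonal, if_neg hc, mul_zero]

theorem prj_mul_ne_zero' {R : Type} [Ring R] {S : Type} (C : BCx R) {k : ℕ} {M : Matrix C.S S R}
    (h : prj C k * M = M) {i : S} {s : C.S} (hne : M s i ≠ 0) : C.deg s = k := by
  by_contra hc
  apply hne
  rw [← h, prj, Matrix.diagonal_mul, if_neg hc, zero_mul]

/-- Factorisation of the whole boundary map. -/
structure GFac (A : BCx ℤ) where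
  ι : Type
  [fin : Fintype ι]
  [dec : DecidableEq ι]
  dg : ι → ℕ
  a : ι → ℤ
  X : Matrix ι A.S ℤ
  X' : Matrix A.S ι ℤ
  Y : Matrix ι A.S ℤ
  Y' : Matrix A.S ι ℤ
  a_ne : ∀ i, a i ≠ 0
  XX : X * X' = 1
  YY : Y * Y' = 1
  fac : A.D = X' * Matrix.diagonal a * Y
  sX : Shift (fun i => (dg i : ℤ)) (fun s => (A.deg s : ℤ)) 1 X
  sX' : Shift (fun s => (A.deg s : ℤ)) (fun i => (dg i : ℤ)) (-1) X'
  sY : Shift (fun i => (dg i : ℤ)) (fun s => (A.deg s : ℤ)) 0 Y
  sY' : Shift (fun s => (A.deg s : ℤ)) (fun i => (dg i : ℤ)) 0 Y'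

attribute [instance] GFac.fin GFac.dec

theorem exists_gfac (A : BCx ℤ) : Nonempty (GFac A) := by
  obtain ⟨n, a, X, X', Y, Y', h⟩ := exists_fac A
  set K := Finset.univ.sup A.deg + 1 with hK
  have hK' : ∀ s, A.deg s < K := fun s =>
    Nat.lt_succ_of_le (Finset.le_sup (f := A.deg) (Finset.mem_univ s))
  refine ⟨{ ι := Σ k : Fin K, Fin (n k)
            dg := fun i => i.1
            a := fun i => a i.1 i.2
            X := glueR X
            X' := glueC X'
            Y := glueR Y
            Y' := glueC Y'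
            a_ne := fun i => (h i.1).1 i.2
            XX := ?_
            YY := ?_
            fac := ?_
            sX := ?_
            sX' := ?_
            sY := ?_
            sY' := ?_ }⟩
  · refine glue_one X X' (fun k => (h k).2.1) fun k l hkl => ?_
    obtain ⟨-, -, -, -, h1, -, -, -⟩ := h k
    obtain ⟨-, -, -, -, -, h2, -, -⟩ := h l
    rw [← h1, ← h2, Matrix.mul_assoc, ← Matrix.mul_assoc (prj A (k + 1)),
      prj_mul_prj_ne A (by omega : k + 1 ≠ l + 1), Matrix.zero_mul, Matrix.mul_zero]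
  · refine glue_one Y Y' (fun k => (h k).2.2.1) fun k l hkl => ?_
    obtain ⟨-, -, -, -, -, -, h1, -⟩ := h k
    obtain ⟨-, -, -, -, -, -, -, h2⟩ := h l
    rw [← h1, ← h2, Matrix.mul_assoc, ← Matrix.mul_assoc (prj A k),
      prj_mul_prj_ne A hkl, Matrix.zero_mul, Matrix.mul_zero]
  · rw [glue_diag]
    have e : ∀ k : Fin K, X' k * Matrix.diagonal (a k) * Y k = prj A (k + 1) * A.D := fun k =>
      (h k).2.2.2.1.symm
    rw [Finset.sum_congr rfl fun k _ => e k, ← Finset.sum_mul]
    ext s t
    rw [Matrix.mul_apply]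
    by_cases hst : A.D s t = 0
    · rw [hst]
      symm
      refine Finset.sum_eq_zero fun u _ => ?_
      by_cases hu : s = u
      · subst hu
        rw [hst, mul_zero]
      · rw [Matrix.sum_apply, Finset.sum_eq_zero, zero_mul]
        intro k _
        rw [prj, Matrix.diagonal_apply_ne _ hu]
    · have hd := A.deg_D s t hst
      rw [Finset.sum_eq_single s]
      · rw [Matrix.sum_apply, Finset.sum_eq_single (⟨A.deg t, hK' t⟩ : Fin K)]
        · rw [prj, Matrix.diagonal_apply_eq, if_pos hd, one_mul]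
        · intro k _ hk
          rw [prj, Matrix.diagonal_apply_eq, if_neg]
          intro h1
          apply hk
          ext
          show (k : ℕ) = A.deg t
          omega
        · intro h1
          exact absurd (Finset.mem_univ _) h1
      · intro u _ hu
        rw [Matrix.sum_apply, Finset.sum_eq_zero, zero_mul]
        intro k _
        rw [prj, Matrix.diagonal_apply_ne _ (Ne.symm hu)]
      · intro h1
        exact absurd (Finset.mem_univ _) h1
  · rintro ⟨k, i⟩ s hne
    have := prj_mul_ne_zero A (h k).2.2.2.2.1 (show X k i s ≠ 0 from hne)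
    show (A.deg s : ℤ) = (k : ℕ) + 1
    rw [this]
    push_cast
    rfl
  · rintro s ⟨k, i⟩ hne
    have := prj_mul_ne_zero' A (h k).2.2.2.2.2.1 (show X' k s i ≠ 0 from hne)
    show ((k : ℕ) : ℤ) = (A.deg s : ℤ) + (-1)
    rw [this]
    push_cast
    ring
  · rintro ⟨k, i⟩ s hne
    have := prj_mul_ne_zero A (h k).2.2.2.2.2.2.1 (show Y k i s ≠ 0 from hne)
    show (A.deg s : ℤ) = (k : ℕ) + 0
    rw [this, add_zero]
  · rintro s ⟨k, i⟩ hne
    have := prj_mul_ne_zero' A (h k).2.2.2.2.2.2.2 (show Y' k s i ≠ 0 from hne)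
    show ((k : ℕ) : ℤ) = (A.deg s : ℤ) + 0
    rw [this, add_zero]

/-- A complex with zero boundary map. -/
def zc (R : Type) [Ring R] (ι : Type) [Fintype ι] [DecidableEq ι] (dg : ι → ℕ) : BCx R where
  S := ι
  deg := dg
  D := 0
  deg_D := fun _ _ h => absurd rfl h
  D_D := by rw [Matrix.mul_zero]

theorem shift_apply {R S T : Type} [Ring R] {d : S → ℤ} {e : T → ℤ} {c : ℤ} {M : Matrix S T R}
    (h : Shift d e c M) {s : S} {t : T} (hne : e t ≠ d s + c) : M s t = 0 := by
  by_contra h0
  exact hne (h s t h0)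

/-- Retract over a field: the complex with zero differential on the basis of `A`. -/
theorem exists_ret_field (K : Type) [Field K] (A : BCx ℤ) :
    Nonempty (Ret (A.map (Int.castRingHom K)) (zc K A.S A.deg) 1) := by
  classical
  obtain ⟨F⟩ := exists_gfac A
  set f := Int.castRingHom K with hf
  set ι := {i : F.ι // (F.a i : K) ≠ 0} with hι
  obtain ⟨G, h, hGG, hGD, hDG, sG, sh, hid⟩ := exists_G (A.map f) (ι := ι)
    (fun i => (F.dg i.1 : ℤ)) (fun i => (F.a i.1 : K)) (fun i => (F.a i.1 : K)⁻¹) 1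
    (fun i => mul_inv_cancel₀ i.2) (fun i r hr => (mul_eq_zero.1 hr).resolve_left i.2)
    ((F.X.map f).submatrix Subtype.val id) ((F.Y.map f).submatrix Subtype.val id)
    ((F.X'.map f).submatrix id Subtype.val) ((F.Y'.map f).submatrix id Subtype.val)
    (by
      have e : (F.X.map f).submatrix (Subtype.val : ι → F.ι) id *
          (F.X'.map f).submatrix id (Subtype.val : ι → F.ι) =
          ((F.X * F.X').map f).submatrix Subtype.val Subtype.val := by
        rw [Matrix.map_mul, Matrix.submatrix_mul _ _ _ id _ Function.bijective_id]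
      refine e.trans ?_
      rw [F.XX, Matrix.map_one f (map_zero f) (map_one f)]
      exact Matrix.submatrix_one _ Subtype.val_injective)
    (by
      have e : (F.Y.map f).submatrix (Subtype.val : ι → F.ι) id *
          (F.Y'.map f).submatrix id (Subtype.val : ι → F.ι) =
          ((F.Y * F.Y').map f).submatrix Subtype.val Subtype.val := by
        rw [Matrix.map_mul, Matrix.submatrix_mul _ _ _ id _ Function.bijective_id]
      refine e.trans ?_
      rw [F.YY, Matrix.map_one f (map_zero f) (map_one f)]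
      exact Matrix.submatrix_one _ Subtype.val_injective)
    (by
      have e : A.D.map f = ((F.X'.map f).submatrix id (Subtype.val : ι → F.ι)) *
          Matrix.diagonal (fun i : ι => (F.a i.1 : K)) *
          ((F.Y.map f).submatrix (Subtype.val : ι → F.ι) id) := ?_
      · exact e
      ext s t
      rw [Matrix.map_apply, F.fac, Matrix.mul_apply, map_sum, Matrix.mul_apply]
      rw [← Fintype.sum_subtype_add_sum_subtype (fun i : F.ι => (F.a i : K) ≠ 0)
        (fun i => f ((F.X' * Matrix.diagonal F.a) s i * F.Y i t))]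
      have h0 : ∑ i : {i : F.ι // ¬ (F.a i : K) ≠ 0},
          f ((F.X' * Matrix.diagonal F.a) s i * F.Y i t) = 0 := by
        refine Finset.sum_eq_zero fun i _ => ?_
        have hi : (F.a i.1 : K) = 0 := not_not.1 i.2
        rw [map_mul, Matrix.mul_diagonal, map_mul]
        have : f (F.a i.1) = 0 := hi
        rw [this, mul_zero, zero_mul]
      rw [h0, add_zero]
      refine Finset.sum_congr rfl fun i _ => ?_
      rw [map_mul, Matrix.mul_diagonal, Matrix.mul_diagonal, map_mul]
      rfl)
    (by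
      intro i s hne
      refine F.sX i.1 s fun h0 => hne ?_
      show f (F.X i.1 s) = 0
      rw [h0, map_zero])
    (by
      intro s i hne
      refine F.sX' s i.1 fun h0 => hne ?_
      show f (F.X' s i.1) = 0
      rw [h0, map_zero])
    (by
      intro i s hne
      refine F.sY i.1 s fun h0 => hne ?_
      show f (F.Y i.1 s) = 0
      rw [h0, map_zero])
    (by
      intro s i hne
      refine F.sY' s i.1 fun h0 => hne ?_
      show f (F.Y' s i.1) = 0
      rw [h0, map_zero])
  refine ⟨{ W := G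
            Z := G
            h := h
            W_deg := ?_
            Z_deg := ?_
            h_deg := ?_
            WD := ?_
            ZD := ?_
            id := ?_ }⟩
  · intro s i hne
    refine shift_apply sG ?_
    intro h0
    apply hne
    have h1 : ((A.deg i : ℕ) : ℤ) = (A.deg s : ℤ) + 0 := h0
    show A.deg s = A.deg i
    omega
  · intro s i hne
    refine shift_apply sG ?_
    intro h0
    apply hne
    have h1 : ((A.deg i : ℕ) : ℤ) = (A.deg s : ℤ) + 0 := h0
    show A.deg s = A.deg i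
    omega
  · intro s t hne
    refine shift_apply sh ?_
    intro h0
    apply hne
    have h1 : ((A.deg t : ℕ) : ℤ) = (A.deg s : ℤ) + 1 := h0
    show A.deg t = A.deg s + 1
    omega
  · refine hDG.trans ?_
    exact (Matrix.mul_zero (m := A.S) (n := A.S) (o := A.S) G).symm
  · refine hGD.trans ?_
    exact (Matrix.zero_mul (l := A.S) (m := A.S) (n := A.S) G).symm
  · refine hid.trans ?_
    have e : (1 : K) • G = (1 : K) • (G * G) := by rw [hGG]
    rw [e]
    rfl

end Pool.H71.L2
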