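import Pool.Agent.H71.L2.Upper
import Pool.Agent.H16.L2.TensFree
import Pool.Agent.H3.L2.Mfd

/-!
The key limit: torsion growth of products along decoupled chains.
-/

set_option autoImplicit false

open scoped BigOperators Topology
open MeasureTheory Filter Pool.H3.L2

noncomputable section

namespace Pool.H71.L2

/-- A subchain of a residual chain. -/
def subChain {Γ : Type} [Group Γ] (c : ResChain Γ) (g : ℕ → ℕ) (hg : StrictMono g)
    (h0 : g 0 = 0) : ResChain Γ where
  N := fun i => c.N (g i)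
  normal := fun i => c.normal (g i)
  fin := fun i => c.fin (g i)
  zero := by rw [h0, c.zero]
  anti := c.anti.comp_strictMono hg
  inf := by
    rw [eq_bot_iff, ← c.inf]
    exact le_iInf fun i => (iInf_le _ i).trans (c.anti.antitone (hg.id_le i))

theorem exists_fast {P : ℕ → ℕ → Prop} (h : ∀ n, ∀ᶠ m in atTop, P n m) :
    ∃ g : ℕ → ℕ, StrictMono g ∧ g 0 = 0 ∧ ∀ n, n ≠ 0 → P n (g n) := by
  obtain ⟨φ, hφ, hP⟩ := Filter.extraction_forall_of_eventually h
  refine ⟨fun n => if n = 0 then 0 else φ n, ?_, if_pos rfl, fun n hn => ?_⟩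
  · intro a b hab
    show (if a = 0 then 0 else φ a) < (if b = 0 then 0 else φ b)
    have hb : b ≠ 0 := by omega
    rw [if_neg hb]
    by_cases ha : a = 0
    · rw [if_pos ha]
      have h1 : b ≤ φ b := hφ.id_le b
      omega
    · rw [if_neg ha]
      exact hφ hab
  · show P n (if n = 0 then 0 else φ n)
    rw [if_neg hn]
    exact hP n

/-- Betti number over `𝔽_p`, as a function of a natural number `p`. -/
def bp (B : BCx ℤ) (p j : ℕ) : ℕ :=
  if h : p.Prime then
    haveI : Fact p.Prime := ⟨h⟩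
    B.betti (ZMod p) j
  else 0

theorem bp_eq (B : BCx ℤ) (p j : ℕ) [hp : Fact p.Prime] : bp B p j = B.betti (ZMod p) j := by
  unfold bp
  rw [dif_pos hp.1]

theorem prod_torsOrd {B : BCx ℤ} (hB : ∀ j, j ≠ 1 → B.torsOrd j = 1) {ι : Type} [Fintype ι]
    [DecidableEq ι] (dg : ι → ℕ) (e : ℕ) :
    ∏ i : {i : ι // dg i ≤ e + 1}, B.torsOrd (e + 1 - dg i.1) =
      B.torsOrd 1 ^ Fintype.card {i : ι // dg i = e} := by
  classical
  have h1 : ∀ i : {i : ι // dg i ≤ e + 1}, B.torsOrd (e + 1 - dg i.1) =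
      if dg i.1 = e then B.torsOrd 1 else 1 := by
    intro i
    have hi := i.2
    by_cases h : dg i.1 = e
    · rw [if_pos h, h, Nat.add_sub_cancel_left]
    · rw [if_neg h, hB _ (by omega)]
  rw [Finset.prod_congr rfl fun i _ => h1 i, Finset.prod_ite, Finset.prod_const, Finset.prod_const,
    one_pow, mul_one]
  congr 1
  rw [← Fintype.card_subtype]
  refine Fintype.card_congr
    { toFun := fun x => ⟨x.1.1, x.2⟩
      invFun := fun x => ⟨⟨x.1, by have := x.2; omega⟩, x.2⟩
      left_inv := fun _ => rfl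
      right_inv := fun _ => rfl }

/-- Torsion growth of products along decoupled chains. -/
theorem key_even {G1 G2 : Type} [Group G1] [Group G2] (C1 : BCx (GR G1)) (C2 : BCx (GR G2))
    (c1 : ResChain G1) (c2 : ResChain G2) {e : ℕ} {v : ℝ} (hv : v ≠ 0) (L : ℝ)
    (h1 : Tendsto (fun m => Real.log ((C2.cover (c2.N m)).torsOrd 1) / ((c2.N m).index : ℝ)) atTop
      (𝓝 v))
    (hT : ∀ m j, j ≠ 1 → (C2.cover (c2.N m)).torsOrd j = 1)
    (hF : ∀ (p : ℕ) [Fact p.Prime] (j : ℕ),
      Tendsto (fun m => ((C2.cover (c2.N m)).betti (ZMod p) j : ℝ) / ((c2.N m).index : ℝ)) atTop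
        (𝓝 0))
    (hM : ∀ (i j k : ℕ) [((c1.N i).prod (c2.N j)).Normal] [((c1.N i).prod (c2.N j)).FiniteIndex],
      ((C1.xtens C2).cover ((c1.N i).prod (c2.N j))).torsOrd k =
      ((C1.cover (c1.N i)).tens (C2.cover (c2.N j))).torsOrd k)
    (hQ : ∀ c : ResChain (G1 × G2),
      Tendsto (fun i => Real.log (((C1.xtens C2).cover (c.N i)).torsOrd (e + 1)) /
        ((c.N i).index : ℝ)) atTop (𝓝 L)) :
    Tendsto (fun i => ((C1.cover (c1.N i)).betti ℝ e : ℝ) / ((c1.N i).index : ℝ)) atTop
      (𝓝 (L / v)) := by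
  classical
  set A := fun i => C1.cover (c1.N i) with hA
  set B := fun m => C2.cover (c2.N m) with hB
  have hi1 : ∀ i, (0 : ℝ) < ((c1.N i).index : ℝ) := fun i => by
    have := (c1.fin i).index_ne_zero
    positivity
  have hi1' : ∀ i, (1 : ℝ) ≤ ((c1.N i).index : ℝ) := fun i => by
    have := (c1.fin i).index_ne_zero
    exact_mod_cast Nat.one_le_iff_ne_zero.2 this
  have hi2 : ∀ i, (0 : ℝ) < ((c2.N i).index : ℝ) := fun i => by
    have := (c2.fin i).index_ne_zero
    positivity
  choose N ι f1 f2 dg hN hcard hup using fun i => exists_upper (A i)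
  set β : ℕ → ℕ → ℕ := fun n m => ∑ p ∈ (N n).primeFactors, ∑ j ∈ Finset.range (e + 3),
    bp (B m) p j with hβ
  set s : ℕ → ℕ → ℝ := fun n m => ((Fintype.card (A n).S * β n m : ℕ) : ℝ) * Real.log (N n)
    with hs
  -- the error is small for fixed `n`
  have hsmall : ∀ n, Tendsto (fun m => s n m / ((c2.N m).index : ℝ)) atTop (𝓝 0) := by
    intro n
    have e1 : ∀ p ∈ (N n).primeFactors, ∀ j,
        Tendsto (fun m => (bp (B m) p j : ℝ) / ((c2.N m).index : ℝ)) atTop (𝓝 0) := by
      intro p hp j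
      have : Fact p.Prime := ⟨Nat.prime_of_mem_primeFactors hp⟩
      simp only [bp_eq]
      exact hF p j
    have e2 : Tendsto (fun m => ∑ p ∈ (N n).primeFactors, ∑ j ∈ Finset.range (e + 3),
        (bp (B m) p j : ℝ) / ((c2.N m).index : ℝ)) atTop (𝓝 0) := by
      have := tendsto_finsetSum (N n).primeFactors (f := fun p m => ∑ j ∈ Finset.range (e + 3),
        (bp (B m) p j : ℝ) / ((c2.N m).index : ℝ)) (a := fun _ => (0 : ℝ)) fun p hp => by
          have h3 := tendsto_finsetSum (Finset.range (e + 3)) (f := fun j m =>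
            (bp (B m) p j : ℝ) / ((c2.N m).index : ℝ)) (a := fun _ => (0 : ℝ)) fun j _ => e1 p hp j
          simpa using h3
      simpa using this
    have e3 := (e2.const_mul ((Fintype.card (A n).S : ℝ) * Real.log (N n)))
    rw [mul_zero] at e3
    refine e3.congr fun m => ?_
    simp only [hs, hβ]
    push_cast
    rw [← Finset.sum_congr rfl fun p _ => Finset.sum_div _ _ _, ← Finset.sum_div]
    ring
  obtain ⟨g, hg, hg0, hgP⟩ := exists_fast (P := fun n m => s n m / ((c2.N m).index : ℝ) ≤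
    1 / ((n : ℝ) + 1)) fun n => by
      have hpos : (0 : ℝ) < 1 / ((n : ℝ) + 1) := by positivity
      filter_upwards [(hsmall n).eventually (ge_mem_nhds hpos)] with m hm using hm
  -- the chain
  set c := c1.prod (subChain c2 g hg hg0) with hc
  have hcN : ∀ n, c.N n = (c1.N n).prod (c2.N (g n)) := fun n => rfl
  have hidx : ∀ n, ((c.N n).index : ℝ) = ((c1.N n).index : ℝ) * ((c2.N (g n)).index : ℝ) := by
    intro n
    rw [hcN, Subgroup.index_prod]
    push_cast
    rfl
  set x : ℕ → ℝ := fun n => ((A n).betti ℝ e : ℝ) / ((c1.N n).index : ℝ) with hx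
  set τ : ℕ → ℝ := fun n => Real.log ((B (g n)).torsOrd 1) / ((c2.N (g n)).index : ℝ) with hτ
  set T : ℕ → ℝ := fun n => Real.log (((C1.xtens C2).cover (c.N n)).torsOrd (e + 1)) /
    ((c.N n).index : ℝ) with hTd
  have hTt : Tendsto T atTop (𝓝 L) := hQ c
  have hτt : Tendsto τ atTop (𝓝 v) := h1.comp hg.tendsto_atTop
  have hpos1 : ∀ (D : BCx ℤ) (j : ℕ), (0 : ℝ) < (D.torsOrd j : ℝ) := fun D j => by
    exact_mod_cast Pool.H16.L2.torsOrd_pos D j
  have hlow : ∀ n, x n * τ n ≤ T n := by
    intro n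
    have h2 : ((B (g n)).torsOrd 1) ^ ((A n).betti ℝ e) ≤ ((A n).tens (B (g n))).torsOrd (e + 1) :=
      Pool.H16.L2.torsOrd_tens_free (A n) (B (g n)) e 1
    have h3 : ((A n).betti ℝ e : ℝ) * Real.log ((B (g n)).torsOrd 1) ≤
        Real.log (((A n).tens (B (g n))).torsOrd (e + 1)) := by
      rw [← Real.log_pow]
      refine Real.log_le_log (pow_pos (hpos1 _ _) _) ?_
      exact_mod_cast h2
    have h4 : T n = Real.log (((A n).tens (B (g n))).torsOrd (e + 1)) /
        (((c1.N n).index : ℝ) * ((c2.N (g n)).index : ℝ)) := by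
      rw [← hidx n, hTd]
      simp only
      have hn := c.normal n
      have hf := c.fin n
      rw [hcN] at hn hf
      rw [show ((C1.xtens C2).cover (c.N n)).torsOrd (e + 1) =
        ((A n).tens (B (g n))).torsOrd (e + 1) from hM n (g n) (e + 1)]
    rw [h4, hx, hτ]
    simp only
    rw [div_mul_div_comm]
    exact div_le_div_of_nonneg_right h3 (mul_pos (hi1 n) (hi2 (g n))).le
  have hupp : ∀ n, n ≠ 0 → T n ≤ x n * τ n + 1 / ((n : ℝ) + 1) := by
    intro n hn
    have h2 : ((A n).tens (B (g n))).torsOrd (e + 1) ≤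
        N n ^ (Fintype.card (A n).S * β n (g n)) * (B (g n)).torsOrd 1 ^ ((A n).betti ℝ e) := by
      have h3 := hup n (B (g n)) (e + 1) (β n (g n)) fun p hp hpN j hj => by
        rw [← bp_eq]
        have h4 : p ∈ (N n).primeFactors := Nat.mem_primeFactors.2 ⟨hp.1, hpN, hN n⟩
        have h5 : bp (B (g n)) p j ≤ ∑ j ∈ Finset.range (e + 3), bp (B (g n)) p j :=
          Finset.single_le_sum (f := fun j => bp (B (g n)) p j) (fun _ _ => Nat.zero_le _)
            (Finset.mem_range.2 (by omega))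
        exact h5.trans (Finset.single_le_sum (f := fun p => ∑ j ∈ Finset.range (e + 3),
          bp (B (g n)) p j) (fun _ _ => Nat.zero_le _) h4)
      rw [prod_torsOrd (hT (g n)) (dg n) e, ← hcard n e] at h3
      exact h3
    have h3 : Real.log (((A n).tens (B (g n))).torsOrd (e + 1)) ≤
        s n (g n) + ((A n).betti ℝ e : ℝ) * Real.log ((B (g n)).torsOrd 1) := by
      have hNp : (0 : ℝ) < (N n : ℝ) := by
        have := hN n
        positivity
      have h4 : Real.log (((A n).tens (B (g n))).torsOrd (e + 1)) ≤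
          Real.log ((N n : ℝ) ^ (Fintype.card (A n).S * β n (g n)) *
            ((B (g n)).torsOrd 1 : ℝ) ^ ((A n).betti ℝ e)) := by
        refine Real.log_le_log (hpos1 _ _) ?_
        exact_mod_cast h2
      rw [Real.log_mul (pow_pos hNp _).ne' (pow_pos (hpos1 _ _) _).ne', Real.log_pow,
        Real.log_pow] at h4
      exact h4
    have h4 : T n = Real.log (((A n).tens (B (g n))).torsOrd (e + 1)) /
        (((c1.N n).index : ℝ) * ((c2.N (g n)).index : ℝ)) := by
      rw [← hidx n, hTd]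
      simp only
      have hn := c.normal n
      have hf := c.fin n
      rw [hcN] at hn hf
      rw [show ((C1.xtens C2).cover (c.N n)).torsOrd (e + 1) =
        ((A n).tens (B (g n))).torsOrd (e + 1) from hM n (g n) (e + 1)]
    have h5 : T n ≤ (s n (g n) + ((A n).betti ℝ e : ℝ) * Real.log ((B (g n)).torsOrd 1)) /
        (((c1.N n).index : ℝ) * ((c2.N (g n)).index : ℝ)) := by
      rw [h4]
      exact div_le_div_of_nonneg_right h3 (mul_pos (hi1 n) (hi2 (g n))).le
    have h6 : s n (g n) / (((c1.N n).index : ℝ) * ((c2.N (g n)).index : ℝ)) ≤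
        1 / ((n : ℝ) + 1) := by
      have h7 : s n (g n) / (((c1.N n).index : ℝ) * ((c2.N (g n)).index : ℝ)) =
          (s n (g n) / ((c2.N (g n)).index : ℝ)) / ((c1.N n).index : ℝ) := by
        rw [div_div, mul_comm]
      have h8 : 0 ≤ s n (g n) / ((c2.N (g n)).index : ℝ) := by
        refine div_nonneg ?_ (hi2 _).le
        refine mul_nonneg (Nat.cast_nonneg _) (Real.log_natCast_nonneg _)
      rw [h7]
      exact (div_le_self h8 (hi1' n)).trans (hgP n hn)
    have h9 : (s n (g n) + ((A n).betti ℝ e : ℝ) * Real.log ((B (g n)).torsOrd 1)) /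
        (((c1.N n).index : ℝ) * ((c2.N (g n)).index : ℝ)) =
        s n (g n) / (((c1.N n).index : ℝ) * ((c2.N (g n)).index : ℝ)) + x n * τ n := by
      rw [add_div, hx, hτ]
      simp only
      rw [div_mul_div_comm]
    rw [h9] at h5
    linarith
  -- conclusion
  have h0 : Tendsto (fun n : ℕ => 1 / ((n : ℝ) + 1)) atTop (𝓝 0) :=
    tendsto_one_div_add_atTop_nhds_zero_nat
  have hxτ : Tendsto (fun n => x n * τ n) atTop (𝓝 L) := by
    have hlo : Tendsto (fun n => T n - 1 / ((n : ℝ) + 1)) atTop (𝓝 L) := by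
      have := hTt.sub h0
      rwa [sub_zero] at this
    refine tendsto_of_tendsto_of_tendsto_of_le_of_le' hlo hTt ?_ (Eventually.of_forall hlow)
    filter_upwards [eventually_ne_atTop 0] with n hn
    have := hupp n hn
    linarith
  have hdiv := hxτ.div hτt hv
  have hτne : ∀ᶠ n in atTop, τ n ≠ 0 := hτt.eventually_ne hv
  refine hdiv.congr' ?_
  filter_upwards [hτne] with n hn
  show x n * τ n / τ n = x n
  exact mul_div_cancel_right₀ _ hn

end Pool.H71.L2
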