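import Pool.Agent.H16.L2.Betti

/-!
Retracts of based complexes up to homotopy and multiplication by a constant, their tensor
products, and the effect on homology.
-/

set_option autoImplicit false

open scoped BigOperators Kronecker
open Matrix Pool.H3.L2

noncomputable section

namespace Pool.H71.L2

section ret

variable {R : Type} [CommRing R]

/-- Tensor product of complexes over a commutative ring. -/
def tn (A B : BCx R) : BCx R :=
  BCx.otens (RingHom.id R) (RingHom.id R) (fun _ _ => mul_comm _ _) A B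

theorem tens_eq (A B : BCx ℤ) : A.tens B = tn A B := rfl

theorem tn_D (A B : BCx R) :
    (tn A B).D = A.D ⊗ₖ (1 : Matrix B.S B.S R) + sgnM R A.deg ⊗ₖ B.D := by
  have h : ∀ x y, (lft B.S (A.D.map (RingHom.id R)) +
      lft B.S (sgnM R A.deg) * rgt A.S (B.D.map (RingHom.id R)) :
        Matrix (A.S × B.S) (A.S × B.S) R) x y =
      (A.D ⊗ₖ (1 : Matrix B.S B.S R) + sgnM R A.deg ⊗ₖ B.D) x y := by
    rintro ⟨s, u⟩ ⟨t, v⟩
    rw [Matrix.add_apply, lft_mul_rgt]
    simp only [lft, Matrix.of_apply, Matrix.map_apply, RingHom.id_apply, Matrix.add_apply,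
      Matrix.kronecker_apply, Matrix.one_apply, mul_ite, mul_one, mul_zero]
  exact Matrix.ext h

/-- `F` is a retract of `A` up to homotopy and multiplication by `N`: chain maps `W : A → F`,
`Z : F → A` and a homotopy `h` with `N • 1 = N • (W * Z) + D * h + h * D` (row vectors are acted
on from the right). -/
structure Ret (A F : BCx R) (N : R) where
  W : Matrix A.S F.S R
  Z : Matrix F.S A.S R
  h : Matrix A.S A.S R
  W_deg : ∀ s i, A.deg s ≠ F.deg i → W s i = 0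
  Z_deg : ∀ i s, F.deg i ≠ A.deg s → Z i s = 0
  h_deg : ∀ s t, A.deg t ≠ A.deg s + 1 → h s t = 0
  WD : A.D * W = W * F.D
  ZD : Z * A.D = F.D * Z
  id : N • (1 : Matrix A.S A.S R) = N • (W * Z) + A.D * h + h * A.D

theorem sgn_comm {S T : Type} [Fintype S] [DecidableEq S] [Fintype T] [DecidableEq T] (d : S → ℕ)
    (e : T → ℕ) (M : Matrix S T R) (hM : ∀ s t, d s ≠ e t → M s t = 0) :
    sgnM R d * M = M * sgnM R e := by
  ext s t
  rw [sgnM, sgnM, Matrix.diagonal_mul, Matrix.mul_diagonal]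
  by_cases h : d s = e t
  · rw [h, mul_comm]
  · rw [hM s t h, mul_zero, zero_mul]

theorem sgn_anti {S : Type} [Fintype S] [DecidableEq S] (d : S → ℕ)
    (M : Matrix S S R) (hM : ∀ s t, d t ≠ d s + 1 → M s t = 0) :
    sgnM R d * M + M * sgnM R d = 0 := by
  ext s t
  rw [sgnM, Matrix.add_apply, Matrix.diagonal_mul, Matrix.mul_diagonal, Matrix.zero_apply]
  by_cases h : d t = d s + 1
  · rw [h, pow_succ]
    ring
  · rw [hM s t h, mul_zero, zero_mul, add_zero]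

/-- The tensor product of a retract with a complex. -/
def Ret.tens {A F : BCx R} {N : R} (r : Ret A F N) (B : BCx R) : Ret (tn A B) (tn F B) N where
  W := r.W ⊗ₖ (1 : Matrix B.S B.S R)
  Z := r.Z ⊗ₖ (1 : Matrix B.S B.S R)
  h := r.h ⊗ₖ (1 : Matrix B.S B.S R)
  W_deg := by
    rintro ⟨s, b⟩ ⟨i, b'⟩ hne
    show r.W s i * (1 : Matrix B.S B.S R) b b' = 0
    have hne' : A.deg s + B.deg b ≠ F.deg i + B.deg b' := hne
    by_cases hb : b = b'
    · subst hb
      rw [r.W_deg s i (by omega), zero_mul]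
    · rw [Matrix.one_apply_ne hb, mul_zero]
  Z_deg := by
    rintro ⟨i, b⟩ ⟨s, b'⟩ hne
    show r.Z i s * (1 : Matrix B.S B.S R) b b' = 0
    have hne' : F.deg i + B.deg b ≠ A.deg s + B.deg b' := hne
    by_cases hb : b = b'
    · subst hb
      rw [r.Z_deg i s (by omega), zero_mul]
    · rw [Matrix.one_apply_ne hb, mul_zero]
  h_deg := by
    rintro ⟨s, b⟩ ⟨t, b'⟩ hne
    show r.h s t * (1 : Matrix B.S B.S R) b b' = 0
    have hne' : A.deg t + B.deg b' ≠ A.deg s + B.deg b + 1 := hne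
    by_cases hb : b = b'
    · subst hb
      rw [r.h_deg s t (by omega), zero_mul]
    · rw [Matrix.one_apply_ne hb, mul_zero]
  WD := by
    rw [tn_D, tn_D]
    have e : (A.D ⊗ₖ (1 : Matrix B.S B.S R) + sgnM R A.deg ⊗ₖ B.D) *
        (r.W ⊗ₖ (1 : Matrix B.S B.S R)) =
        (r.W ⊗ₖ (1 : Matrix B.S B.S R)) *
        (F.D ⊗ₖ (1 : Matrix B.S B.S R) + sgnM R F.deg ⊗ₖ B.D) := by
      rw [Matrix.add_mul, Matrix.mul_add, ← Matrix.mul_kronecker_mul, ← Matrix.mul_kronecker_mul,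
        ← Matrix.mul_kronecker_mul, ← Matrix.mul_kronecker_mul, r.WD, Matrix.mul_one,
        Matrix.one_mul, Matrix.mul_one, sgn_comm A.deg F.deg r.W r.W_deg]
    exact e
  ZD := by
    rw [tn_D, tn_D]
    have e : (r.Z ⊗ₖ (1 : Matrix B.S B.S R)) *
        (A.D ⊗ₖ (1 : Matrix B.S B.S R) + sgnM R A.deg ⊗ₖ B.D) =
        (F.D ⊗ₖ (1 : Matrix B.S B.S R) + sgnM R F.deg ⊗ₖ B.D) *
        (r.Z ⊗ₖ (1 : Matrix B.S B.S R)) := by
      rw [Matrix.add_mul, Matrix.mul_add, ← Matrix.mul_kronecker_mul, ← Matrix.mul_kronecker_mul,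
        ← Matrix.mul_kronecker_mul, ← Matrix.mul_kronecker_mul, r.ZD, Matrix.mul_one,
        Matrix.one_mul, Matrix.mul_one, sgn_comm F.deg A.deg r.Z r.Z_deg]
    exact e
  id := by
    rw [tn_D]
    have e : N • (1 : Matrix (A.S × B.S) (A.S × B.S) R) =
        N • ((r.W ⊗ₖ (1 : Matrix B.S B.S R)) * (r.Z ⊗ₖ (1 : Matrix B.S B.S R))) +
        (A.D ⊗ₖ (1 : Matrix B.S B.S R) + sgnM R A.deg ⊗ₖ B.D) *
          (r.h ⊗ₖ (1 : Matrix B.S B.S R)) +
        (r.h ⊗ₖ (1 : Matrix B.S B.S R)) *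
          (A.D ⊗ₖ (1 : Matrix B.S B.S R) + sgnM R A.deg ⊗ₖ B.D) := by
      have e1 : sgnM R A.deg * r.h = -(r.h * sgnM R A.deg) :=
        eq_neg_of_add_eq_zero_left (sgn_anti A.deg r.h r.h_deg)
      have e2 : (-(r.h * sgnM R A.deg)) ⊗ₖ B.D = -((r.h * sgnM R A.deg) ⊗ₖ B.D) := by
        rw [← neg_one_smul R (r.h * sgnM R A.deg), Matrix.smul_kronecker, neg_one_smul]
      rw [Matrix.add_mul, Matrix.mul_add, ← Matrix.mul_kronecker_mul, ← Matrix.mul_kronecker_mul,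
        ← Matrix.mul_kronecker_mul, ← Matrix.mul_kronecker_mul, ← Matrix.mul_kronecker_mul, e1,
        Matrix.mul_one, Matrix.one_mul, Matrix.mul_one, ← Matrix.one_kronecker_one,
        ← Matrix.smul_kronecker, r.id, Matrix.add_kronecker, Matrix.add_kronecker,
        Matrix.smul_kronecker, e2]
      abel
    exact e

variable {A F : BCx R} {N : R}

theorem Ret.vecMul_W_mem_Zk (r : Ret A F N) {k : ℕ} {v : A.S → R} (hv : v ∈ A.Zk k) :
    v ᵥ* r.W ∈ F.Zk k := by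
  refine ⟨fun i hi => ?_, ?_⟩
  · refine Finset.sum_eq_zero fun s _ => ?_
    show v s * r.W s i = 0
    by_cases hs : A.deg s = k
    · rw [r.W_deg s i (by omega), mul_zero]
    · rw [hv.1 s hs, zero_mul]
  · rw [Matrix.vecMul_vecMul, ← r.WD, ← Matrix.vecMul_vecMul, hv.2, Matrix.zero_vecMul]

theorem Ret.vecMul_W_mem_Bk (r : Ret A F N) {k : ℕ} {v : A.S → R} (hv : v ∈ A.Bk k) :
    v ᵥ* r.W ∈ F.Bk k := by
  obtain ⟨w, hw, rfl⟩ := hv
  refine ⟨w ᵥ* r.W, fun i hi => ?_, ?_⟩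
  · refine Finset.sum_eq_zero fun s _ => ?_
    show w s * r.W s i = 0
    by_cases hs : A.deg s = k + 1
    · rw [r.W_deg s i (by omega), mul_zero]
    · rw [hw s hs, zero_mul]
  · rw [Matrix.vecMul_vecMul, ← r.WD, ← Matrix.vecMul_vecMul]

theorem Ret.smul_mem_Bk (r : Ret A F N) {k : ℕ} {v : A.S → R} (hv : v ∈ A.Zk k)
    (hW : v ᵥ* r.W ∈ F.Bk k) : N • v ∈ A.Bk k := by
  obtain ⟨u, hu, huD⟩ := hW
  refine ⟨N • (u ᵥ* r.Z) + v ᵥ* r.h, fun s hs => ?_, ?_⟩
  · have h1 : (u ᵥ* r.Z) s = 0 := by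
      refine Finset.sum_eq_zero fun i _ => ?_
      show u i * r.Z i s = 0
      by_cases hi : F.deg i = k + 1
      · rw [r.Z_deg i s (by omega), mul_zero]
      · rw [hu i hi, zero_mul]
    have h2 : (v ᵥ* r.h) s = 0 := by
      refine Finset.sum_eq_zero fun t _ => ?_
      show v t * r.h t s = 0
      by_cases ht : A.deg t = k
      · rw [r.h_deg t s (by omega), mul_zero]
      · rw [hv.1 t ht, zero_mul]
    rw [Pi.add_apply, Pi.smul_apply, h1, h2, smul_zero, add_zero]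
  · have h3 : N • v = v ᵥ* (N • (1 : Matrix A.S A.S R)) := by
      rw [Matrix.vecMul_smul, Matrix.vecMul_one]
    rw [h3, r.id, Matrix.vecMul_add, Matrix.vecMul_add, Matrix.vecMul_smul,
      ← Matrix.vecMul_vecMul v r.W, ← huD, Matrix.vecMul_vecMul, ← r.ZD, ← Matrix.vecMul_vecMul v A.D,
      hv.2, Matrix.zero_vecMul, add_zero, Matrix.add_vecMul, Matrix.smul_vecMul,
      ← Matrix.vecMul_vecMul u, ← Matrix.vecMul_vecMul v]

/-- The map on cycles. -/
def Ret.mapZ (r : Ret A F N) (k : ℕ) : A.Zk k →ₗ[R] F.Zk k :=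
  LinearMap.codRestrict _ ((Matrix.vecMulLinear r.W).comp (A.Zk k).subtype)
    fun v => r.vecMul_W_mem_Zk v.2

/-- The map on homology. -/
def Ret.mapH (r : Ret A F N) (k : ℕ) : A.Hk k →ₗ[R] F.Hk k :=
  Submodule.mapQ _ _ (r.mapZ k) fun v hv => r.vecMul_W_mem_Bk (show (v : A.S → R) ∈ A.Bk k from hv)

theorem Ret.mapH_mk (r : Ret A F N) (k : ℕ) (v : A.Zk k) :
    r.mapH k (Submodule.Quotient.mk v) = Submodule.Quotient.mk (r.mapZ k v) := rfl

theorem Hk_mk_eq_zero {A : BCx R} {k : ℕ} (v : A.Zk k) :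
    (Submodule.Quotient.mk v : A.Hk k) = 0 ↔ (v : A.S → R) ∈ A.Bk k := by
  rw [Submodule.Quotient.mk_eq_zero]
  rfl

theorem Ret.smul_eq_zero (r : Ret A F N) {k : ℕ} (x : A.Hk k) (hx : r.mapH k x = 0) :
    N • x = 0 := by
  induction x using Submodule.Quotient.induction_on with | _ v =>
  rw [r.mapH_mk, Hk_mk_eq_zero] at hx
  rw [← Submodule.Quotient.mk_smul, Hk_mk_eq_zero]
  exact r.smul_mem_Bk v.2 hx

end ret

end Pool.H71.L2
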