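import Pool.Agent.H71.L2.Glob

/-!
The homotopy retract of an integer complex on its free homology.
-/

set_option autoImplicit false

open scoped BigOperators Kronecker
open Matrix Pool.H3.L2 Pool.H16.L2

noncomputable section

namespace Pool.H71.L2

theorem glue_mul {S : Type} [Fintype S] {K : ℕ} {n : ℕ → ℕ}
    (P : (k : ℕ) → Matrix (Fin (n k)) S ℤ) (Q : (k : ℕ) → Matrix S (Fin (n k)) ℤ) :
    (glueC Q : Matrix S (Σ k : Fin K, Fin (n k)) ℤ) *
      (glueR P : Matrix (Σ k : Fin K, Fin (n k)) S ℤ) = ∑ k : Fin K, Q k * P k := by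
  ext s t
  rw [Matrix.mul_apply, Fintype.sum_sigma, Matrix.sum_apply]
  refine Finset.sum_congr rfl fun k _ => ?_
  rw [Matrix.mul_apply]
  rfl

theorem sum_prj (A : BCx ℤ) (K : ℕ) (hK : ∀ s, A.deg s < K) : ∑ k : Fin K, prj A k = 1 := by
  ext s t
  rw [Matrix.sum_apply]
  by_cases hst : s = t
  · subst hst
    rw [Matrix.one_apply_eq, Finset.sum_eq_single (⟨A.deg s, hK s⟩ : Fin K)]
    · rw [prj, Matrix.diagonal_apply_eq, if_pos rfl]
    · intro k _ hk
      rw [prj, Matrix.diagonal_apply_eq, if_neg]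
      intro h1
      exact hk (Fin.ext h1.symm)
    · intro h1
      exact absurd (Finset.mem_univ _) h1
  · rw [Matrix.one_apply_ne hst, Finset.sum_eq_zero]
    intro k _
    rw [prj, Matrix.diagonal_apply_ne _ hst]

theorem prj_comm {R : Type} [Ring R] (A : BCx R) {G : Matrix A.S A.S R}
    (sG : Shift (fun s => (A.deg s : ℤ)) (fun s => (A.deg s : ℤ)) 0 G) (k : ℕ) :
    prj A k * G = G * prj A k := by
  ext s t
  rw [prj, Matrix.diagonal_mul, Matrix.mul_diagonal]
  by_cases h : G s t = 0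
  · rw [h, mul_zero, zero_mul]
  · have h1 : (A.deg t : ℤ) = (A.deg s : ℤ) + 0 := sG s t h
    have h2 : A.deg s = A.deg t := by omega
    rw [h2]
    split_ifs <;> simp

/-- Splitting of a homogeneous idempotent. -/
theorem exists_split (A : BCx ℤ) (G : Matrix A.S A.S ℤ) (hGG : G * G = G) (hGD : G * A.D = 0)
    (hDG : A.D * G = 0) (sG : Shift (fun s => (A.deg s : ℤ)) (fun s => (A.deg s : ℤ)) 0 G) :
    ∃ (ι : Type) (_ : Fintype ι) (_ : DecidableEq ι) (dg : ι → ℕ) (W : Matrix A.S ι ℤ)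
      (Z : Matrix ι A.S ℤ), W * Z = G ∧ Z * W = 1 ∧ Z * A.D = 0 ∧ A.D * W = 0 ∧
      (∀ s i, A.deg s ≠ dg i → W s i = 0) ∧ (∀ i s, dg i ≠ A.deg s → Z i s = 0) := by
  have key : ∀ k, ∃ (n : ℕ) (W : Matrix A.S (Fin n) ℤ) (Z : Matrix (Fin n) A.S ℤ),
      W * Z = prj A k * G ∧ Z * W = 1 ∧ Z * A.D = 0 ∧ A.D * W = 0 ∧ prj A k * W = W ∧
        Z * prj A k = Z := by
    intro k
    obtain ⟨n, b, X, X', Y, Y', hb, hX, hY, hM⟩ := exists_snf (prj A k * G)
    have hMM : (prj A k * G) * (prj A k * G) = prj A k * G := by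
      rw [Matrix.mul_assoc, ← Matrix.mul_assoc G, ← prj_comm A sG, Matrix.mul_assoc, hGG,
        ← Matrix.mul_assoc, prj_mul_prj]
    have h1 : Matrix.diagonal b * (Y * X') * Matrix.diagonal b = Matrix.diagonal b := by
      have h2 : X * ((prj A k * G) * (prj A k * G)) * Y' = X * (prj A k * G) * Y' := by rw [hMM]
      rw [hM] at h2
      have h3 : X * (X' * Matrix.diagonal b * Y * (X' * Matrix.diagonal b * Y)) * Y' =
          (X * X') * (Matrix.diagonal b * (Y * X') * Matrix.diagonal b) * (Y * Y') := by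
        simp only [Matrix.mul_assoc]
      have h4 : X * (X' * Matrix.diagonal b * Y) * Y' =
          (X * X') * Matrix.diagonal b * (Y * Y') := by
        simp only [Matrix.mul_assoc]
      rw [h3, h4, hX, hY, Matrix.one_mul, Matrix.mul_one, Matrix.one_mul, Matrix.mul_one] at h2
      exact h2
    have h2 : Matrix.diagonal b * Y * X' = 1 := by
      apply diag_cancel' hb
      rw [Matrix.one_mul, Matrix.mul_assoc (Matrix.diagonal b), h1]
    refine ⟨n, X', Matrix.diagonal b * Y, ?_, h2, ?_, ?_, ?_, ?_⟩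
    · rw [hM, Matrix.mul_assoc]
    · have h3 : X * (prj A k * G * A.D) = 0 := by
        rw [Matrix.mul_assoc, hGD, Matrix.mul_zero, Matrix.mul_zero]
      rw [hM] at h3
      have h4 : X * (X' * Matrix.diagonal b * Y * A.D) =
          (X * X') * (Matrix.diagonal b * Y * A.D) := by
        simp only [Matrix.mul_assoc]
      rw [h4, hX, Matrix.one_mul] at h3
      exact h3
    · apply diag_cancel' hb
      have h3 : A.D * (prj A k * G) * Y' = 0 := by
        rw [← Matrix.mul_assoc, ← prj_mul_D, Matrix.mul_assoc (prj A (k + 1)), hDG,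
          Matrix.mul_zero, Matrix.zero_mul]
      rw [hM] at h3
      have h4 : A.D * (X' * Matrix.diagonal b * Y) * Y' =
          A.D * X' * Matrix.diagonal b * (Y * Y') := by
        simp only [Matrix.mul_assoc]
      rw [h4, hY, Matrix.mul_one] at h3
      rw [h3, Matrix.zero_mul]
    · apply diag_cancel' hb
      have h3 : prj A k * (prj A k * G) * Y' = (prj A k * G) * Y' := by
        rw [← Matrix.mul_assoc, prj_mul_prj]
      rw [hM] at h3
      have h4 : prj A k * (X' * Matrix.diagonal b * Y) * Y' =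
          prj A k * X' * Matrix.diagonal b * (Y * Y') := by
        simp only [Matrix.mul_assoc]
      have h5 : X' * Matrix.diagonal b * Y * Y' = X' * Matrix.diagonal b * (Y * Y') := by
        simp only [Matrix.mul_assoc]
      rw [h4, h5, hY, Matrix.mul_one, Matrix.mul_one] at h3
      exact h3
    · have h3 : X * ((prj A k * G) * prj A k) = X * (prj A k * G) := by
        rw [Matrix.mul_assoc (prj A k), ← prj_comm A sG, ← Matrix.mul_assoc (prj A k), prj_mul_prj]
      rw [hM] at h3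
      have h4 : X * (X' * Matrix.diagonal b * Y * prj A k) =
          (X * X') * (Matrix.diagonal b * Y * prj A k) := by
        simp only [Matrix.mul_assoc]
      have h5 : X * (X' * Matrix.diagonal b * Y) = (X * X') * (Matrix.diagonal b * Y) := by
        simp only [Matrix.mul_assoc]
      rw [h4, h5, hX, Matrix.one_mul, Matrix.one_mul] at h3
      exact h3
  choose n W Z h using key
  set K := Finset.univ.sup A.deg + 1 with hK
  have hK' : ∀ s, A.deg s < K := fun s =>
    Nat.lt_succ_of_le (Finset.le_sup (f := A.deg) (Finset.mem_univ s))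
  refine ⟨Σ k : Fin K, Fin (n k), inferInstance, inferInstance, fun i => i.1, glueC W, glueR Z,
    ?_, ?_, ?_, ?_, ?_, ?_⟩
  · have e : ∀ k : Fin K, W k * Z k = prj A k * G := fun k => (h k).1
    rw [glue_mul, Finset.sum_congr rfl fun k _ => e k, ← Finset.sum_mul, sum_prj A K hK',
      Matrix.one_mul]
  · refine glue_one Z W (fun k => (h k).2.1) fun k l hkl => ?_
    obtain ⟨-, -, -, -, -, h1⟩ := h k
    obtain ⟨-, -, -, -, h2, -⟩ := h l
    rw [← h1, ← h2, Matrix.mul_assoc, ← Matrix.mul_assoc (prj A k),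
      prj_mul_prj_ne A hkl, Matrix.zero_mul, Matrix.mul_zero]
  · ext ⟨k, i⟩ t
    exact congrFun (congrFun (h k).2.2.1 i) t
  · ext s ⟨k, i⟩
    exact congrFun (congrFun (h k).2.2.2.1 s) i
  · rintro s ⟨k, i⟩ hne
    by_contra h0
    exact hne (prj_mul_ne_zero' A (h k).2.2.2.2.1 (show W k s i ≠ 0 from h0))
  · rintro ⟨k, i⟩ s hne
    by_contra h0
    exact hne (prj_mul_ne_zero A (h k).2.2.2.2.2 (show Z k i s ≠ 0 from h0)).symm

/-- Data of a retract onto a complex with zero boundary map, in plain terms. -/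
structure FRet (A : BCx ℤ) where
  N : ℕ
  ι : Type
  [fin : Fintype ι]
  [dec : DecidableEq ι]
  dg : ι → ℕ
  W : Matrix A.S ι ℤ
  Z : Matrix ι A.S ℤ
  h : Matrix A.S A.S ℤ
  N_ne : N ≠ 0
  ZW : Z * W = 1
  ZD : Z * A.D = 0
  DW : A.D * W = 0
  W_deg : ∀ s i, A.deg s ≠ dg i → W s i = 0
  Z_deg : ∀ i s, dg i ≠ A.deg s → Z i s = 0
  h_deg : ∀ s t, A.deg t ≠ A.deg s + 1 → h s t = 0
  id : (N : ℤ) • (1 : Matrix A.S A.S ℤ) = (N : ℤ) • (W * Z) + A.D * h + h * A.D

attribute [instance] FRet.fin FRet.dec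

/-- The associated retract. -/
def FRet.ret {A : BCx ℤ} (r : FRet A) : Ret A (zc ℤ r.ι r.dg) (r.N : ℤ) where
  W := r.W
  Z := r.Z
  h := r.h
  W_deg := r.W_deg
  Z_deg := r.Z_deg
  h_deg := r.h_deg
  WD := r.DW.trans (Matrix.mul_zero (m := A.S) (n := r.ι) (o := r.ι) r.W).symm
  ZD := r.ZD.trans (Matrix.zero_mul (l := r.ι) (m := r.ι) (n := A.S) r.Z).symm
  id := r.id

/-- Retract of an integer complex onto a complex with zero boundary map. -/
theorem exists_ret_int (A : BCx ℤ) : Nonempty (FRet A) := by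
  classical
  obtain ⟨F⟩ := exists_gfac A
  set P : ℤ := ∏ i, F.a i with hP
  have hP0 : P ≠ 0 := Finset.prod_ne_zero_iff.2 fun i _ => F.a_ne i
  obtain ⟨e, he⟩ : ∃ e : ℤ, P * e = (P.natAbs : ℤ) := by
    refine ⟨P.sign, ?_⟩
    rw [mul_comm]
    exact Int.sign_mul_self_eq_natAbs P
  obtain ⟨G, h, hGG, hGD, hDG, sG, sh, hid⟩ := exists_G A (fun i => (F.dg i : ℤ)) F.a
    (fun i => (∏ j ∈ Finset.univ.erase i, F.a j) * e) (P.natAbs : ℤ)
    (fun i => by rw [← mul_assoc, Finset.mul_prod_erase _ _ (Finset.mem_univ i), ← he])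
    (fun i r hr => (mul_eq_zero.1 hr).resolve_left (F.a_ne i)) F.X F.Y F.X' F.Y' F.XX F.YY F.fac
    F.sX F.sX' F.sY F.sY'
  obtain ⟨ι, h1, h2, dg, W, Z, hWZ, hZW, hZD, hDW, dW, dZ⟩ := exists_split A G hGG hGD hDG sG
  refine ⟨{ N := P.natAbs
            ι := ι
            dg := dg
            W := W
            Z := Z
            h := h
            N_ne := Int.natAbs_ne_zero.2 hP0
            ZW := hZW
            ZD := hZD
            DW := hDW
            W_deg := dW
            Z_deg := dZ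
            h_deg := ?_
            id := ?_ }⟩
  · intro s t hne
    refine shift_apply sh ?_
    intro h0
    apply hne
    have h1 : ((A.deg t : ℕ) : ℤ) = (A.deg s : ℤ) + 1 := h0
    omega
  · rw [hWZ]
    exact hid

end Pool.H71.L2
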