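import Pool.Agent.H71.L2.Bound

/-!
Upper bounds for Betti numbers and torsion of tensor products of integer complexes.
-/

set_option autoImplicit false

open scoped BigOperators Kronecker
open Matrix Pool.H3.L2 Pool.H16.L2

noncomputable section

namespace Pool.H71.L2

theorem tens_map_D {K : Type} [Field K] (A B : BCx ℤ) :
    (A.tens B).D.map (Int.castRingHom K) =
      (tn (A.map (Int.castRingHom K)) (B.map (Int.castRingHom K))).D := by
  set f := Int.castRingHom K
  have e1 : ∀ x y, ((A.D ⊗ₖ (1 : Matrix B.S B.S ℤ) + sgnM ℤ A.deg ⊗ₖ B.D :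
      Matrix (A.S × B.S) (A.S × B.S) ℤ).map f) x y =
      ((A.D.map f) ⊗ₖ (1 : Matrix B.S B.S K) + sgnM K A.deg ⊗ₖ (B.D.map f) :
        Matrix (A.S × B.S) (A.S × B.S) K) x y := by
    rintro ⟨s, u⟩ ⟨t, v⟩
    rw [Matrix.map_apply, Matrix.add_apply, Matrix.add_apply, Matrix.kronecker_apply,
      Matrix.kronecker_apply, Matrix.kronecker_apply, Matrix.kronecker_apply, Matrix.map_apply,
      Matrix.map_apply, map_add, map_mul, map_mul, sgnM, sgnM]
    have h1 : f ((1 : Matrix B.S B.S ℤ) u v) = (1 : Matrix B.S B.S K) u v := by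
      by_cases h : u = v
      · subst h
        rw [Matrix.one_apply_eq, Matrix.one_apply_eq, map_one]
      · rw [Matrix.one_apply_ne h, Matrix.one_apply_ne h, map_zero]
    have h2 : f (Matrix.diagonal (fun s => (-1 : ℤ) ^ A.deg s) s t) =
        Matrix.diagonal (fun s => (-1 : K) ^ A.deg s) s t := by
      by_cases h : s = t
      · subst h
        rw [Matrix.diagonal_apply_eq, Matrix.diagonal_apply_eq, map_pow, map_neg, map_one]
      · rw [Matrix.diagonal_apply_ne _ h, Matrix.diagonal_apply_ne _ h, map_zero]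
    rw [h1, h2]
  have e2 := Matrix.ext e1
  have e3 : (A.tens B).D.map f = (A.D ⊗ₖ (1 : Matrix B.S B.S ℤ) + sgnM ℤ A.deg ⊗ₖ B.D :
      Matrix (A.S × B.S) (A.S × B.S) ℤ).map f := congrArg (fun M => M.map f) (tn_D A B)
  rw [e3, e2]
  exact (tn_D (A.map f) (B.map f)).symm

theorem tens_map {K : Type} [Field K] (A B : BCx ℤ) :
    (A.tens B).map (Int.castRingHom K) =
      tn (A.map (Int.castRingHom K)) (B.map (Int.castRingHom K)) := by
  have h : ((A.tens B).map (Int.castRingHom K)).D =
      (tn (A.map (Int.castRingHom K)) (B.map (Int.castRingHom K))).D := tens_map_D (K := K) A B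
  show BCx.mk (R := K) (fin := instFintypeProd A.S B.S) (dec := instDecidableEqProd)
    (A.S × B.S) (fun s => A.deg s.1 + B.deg s.2) _ _ _ =
    BCx.mk (R := K) (fin := instFintypeProd A.S B.S) (dec := instDecidableEqProd)
    (A.S × B.S) (fun s => A.deg s.1 + B.deg s.2) _ _ _
  congr 1

/-- Kuenneth inequality over a field. -/
theorem betti_tens_le (K : Type) [Field K] (A B : BCx ℤ) (k : ℕ) :
    (A.tens B).betti K k ≤ ∑ s : {s : A.S // A.deg s ≤ k}, B.betti K (k - A.deg s.1) := by
  obtain ⟨r⟩ := exists_ret_field K A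
  set f := Int.castRingHom K with hf
  have r' := r.tens (B.map f)
  have hinj : Function.Injective (r'.mapH k) := by
    refine (injective_iff_map_eq_zero _).2 fun x hx => ?_
    have h1 := r'.smul_eq_zero x hx
    rwa [one_smul] at h1
  unfold BCx.betti
  rw [tens_map]
  have h2 := LinearMap.finrank_le_finrank_of_injective hinj
  exact h2.trans (finrank_tn_zero (zc K A.S A.deg) (B.map f) rfl k)

theorem betti_tens_le_mul (K : Type) [Field K] (A B : BCx ℤ) (k β : ℕ)
    (hβ : ∀ j ≤ k, B.betti K j ≤ β) : (A.tens B).betti K k ≤ Fintype.card A.S * β := by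
  classical
  refine (betti_tens_le K A B k).trans ?_
  refine (Finset.sum_le_card_nsmul _ _ β fun s _ => hβ _ (Nat.sub_le _ _)).trans ?_
  rw [smul_eq_mul, Finset.card_univ]
  exact Nat.mul_le_mul_right _ (Fintype.card_subtype_le _)

/-- A retract with `Z W = 1` computes the Betti numbers. -/
theorem betti_eq_card (A : BCx ℤ) (r : FRet A) (l : ℕ) :
    A.betti ℝ l = Fintype.card {i : r.ι // r.dg i = l} := by
  classical
  set f := Int.castRingHom ℝ with hf
  set W : Matrix A.S r.ι ℝ := r.W.map f with hW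
  set Z : Matrix r.ι A.S ℝ := r.Z.map f with hZ
  set h : Matrix A.S A.S ℝ := r.h.map f with hh
  set D : Matrix A.S A.S ℝ := A.D.map f with hD
  have hZW' : Z * W = 1 := by
    rw [hZ, hW, ← Matrix.map_mul, r.ZW, Matrix.map_one f (map_zero f) (map_one f)]
  have hDW : D * W = 0 := by
    rw [hD, hW, ← Matrix.map_mul, r.DW]
    ext; simp
  have hZD : Z * D = 0 := by
    rw [hD, hZ, ← Matrix.map_mul, r.ZD]
    ext; simp
  have hid : (r.N : ℝ) • (1 : Matrix A.S A.S ℝ) =
      (r.N : ℝ) • (W * Z) + D * h + h * D := by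
    have h1 := r.id
    ext s t
    have h2 := congrArg f (congrFun (congrFun h1 s) t)
    rw [Matrix.smul_apply, Matrix.add_apply, Matrix.add_apply, Matrix.smul_apply, smul_eq_mul,
      smul_eq_mul, map_mul, map_add, map_add, map_mul, Matrix.mul_apply, Matrix.mul_apply,
      Matrix.mul_apply, map_sum, map_sum, map_sum] at h2
    rw [Matrix.smul_apply, Matrix.add_apply, Matrix.add_apply, Matrix.smul_apply, smul_eq_mul,
      smul_eq_mul, Matrix.mul_apply, Matrix.mul_apply, Matrix.mul_apply]
    simp only [map_mul] at h2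
    have h3 : f ((1 : Matrix A.S A.S ℤ) s t) = (1 : Matrix A.S A.S ℝ) s t := by
      by_cases h : s = t
      · subst h
        rw [Matrix.one_apply_eq, Matrix.one_apply_eq, map_one]
      · rw [Matrix.one_apply_ne h, Matrix.one_apply_ne h, map_zero]
    have h4 : f (r.N : ℤ) = (r.N : ℝ) := by rw [hf]; simp
    rw [h3, h4] at h2
    exact h2
  have hWdeg : ∀ s i, A.deg s ≠ r.dg i → W s i = 0 := by
    intro s i hne
    rw [hW, Matrix.map_apply, r.W_deg s i hne, map_zero]
  have hZdeg : ∀ i s, r.dg i ≠ A.deg s → Z i s = 0 := by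
    intro i s hne
    rw [hZ, Matrix.map_apply, r.Z_deg i s hne, map_zero]
  have hhdeg : ∀ s t, A.deg t ≠ A.deg s + 1 → h s t = 0 := by
    intro s t hne
    rw [hh, Matrix.map_apply, r.h_deg s t hne, map_zero]
  set C := A.map f with hC
  -- the coordinate map on cycles
  let e : C.Zk l → (A.S → ℝ) := fun v => v.1
  have he : ∀ v : C.Zk l, Matrix.vecMul (e v) D = 0 := fun v => v.2.2
  have he1 : ∀ (v : C.Zk l) (s : A.S), A.deg s ≠ l → e v s = 0 := fun v s hs => v.2.1 s hs
  let φ : C.Zk l →ₗ[ℝ] ({i : r.ι // r.dg i = l} → ℝ) :=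
    { toFun := fun v i => Matrix.vecMul (e v) W i.1
      map_add' := fun v w => by
        funext i
        exact congrFun (Matrix.add_vecMul W (e v) (e w)) i.1
      map_smul' := fun c v => by
        funext i
        exact congrFun (Matrix.smul_vecMul c (e v) W) i.1 }
  have hsurj : Function.Surjective φ := by
    intro c
    set c' : r.ι → ℝ := fun i => if hi : r.dg i = l then c ⟨i, hi⟩ else 0 with hc'
    have hmem : (Matrix.vecMul c' Z : A.S → ℝ) ∈ C.Zk l := by
      refine ⟨fun s hs => ?_, ?_⟩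
      · refine Finset.sum_eq_zero fun i _ => ?_
        show c' i * Z i s = 0
        by_cases hi : r.dg i = l
        · rw [hZdeg i s (fun h0 => hs (h0.symm.trans hi)), mul_zero]
        · rw [hc']
          simp only
          rw [dif_neg hi, zero_mul]
      · show Matrix.vecMul (Matrix.vecMul c' Z) D = 0
        rw [Matrix.vecMul_vecMul, hZD, Matrix.vecMul_zero]
    refine ⟨⟨_, hmem⟩, ?_⟩
    funext i
    show Matrix.vecMul (Matrix.vecMul c' Z) W i.1 = c i
    rw [Matrix.vecMul_vecMul, hZW', Matrix.vecMul_one, hc']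
    simp only
    rw [dif_pos i.2]
  have hker : LinearMap.ker φ = (C.Bk l).submoduleOf (C.Zk l) := by
    ext v
    rw [LinearMap.mem_ker]
    constructor
    · intro hv
      have hv0 : Matrix.vecMul (e v) W = 0 := by
        funext i
        by_cases hi : r.dg i = l
        · exact congrFun hv ⟨i, hi⟩
        · refine Finset.sum_eq_zero fun s _ => ?_
          show e v s * W s i = 0
          by_cases hs : A.deg s = l
          · rw [hWdeg s i (fun h0 => hi (h0.symm.trans hs)), mul_zero]
          · rw [he1 v s hs, zero_mul]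
      have h1 : (r.N : ℝ) • e v = Matrix.vecMul (Matrix.vecMul (e v) h) D := by
        have h2 := congrArg (Matrix.vecMul (e v)) hid
        rw [Matrix.vecMul_smul, Matrix.vecMul_one, Matrix.vecMul_add, Matrix.vecMul_add,
          Matrix.vecMul_smul, ← Matrix.vecMul_vecMul _ W, hv0, Matrix.zero_vecMul, smul_zero,
          ← Matrix.vecMul_vecMul _ D, he v, Matrix.zero_vecMul, zero_add, zero_add,
          ← Matrix.vecMul_vecMul] at h2
        exact h2
      have h3 : ∀ s, A.deg s ≠ l + 1 → ((r.N : ℝ)⁻¹ • Matrix.vecMul (e v) h) s = 0 := by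
        intro s hs
        rw [Pi.smul_apply]
        have h2 : Matrix.vecMul (e v) h s = 0 := by
          refine Finset.sum_eq_zero fun t _ => ?_
          show e v t * h t s = 0
          by_cases ht : A.deg t = l
          · rw [hhdeg t s (fun h0 => hs (h0.trans (by rw [ht]))), mul_zero]
          · rw [he1 v t ht, zero_mul]
        rw [h2, smul_zero]
      have h4 : Matrix.vecMul ((r.N : ℝ)⁻¹ • Matrix.vecMul (e v) h) D = e v := by
        rw [Matrix.smul_vecMul, ← h1, smul_smul, inv_mul_cancel₀ (by exact_mod_cast r.N_ne),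
          one_smul]
      exact ⟨(r.N : ℝ)⁻¹ • Matrix.vecMul (e v) h, h3, h4⟩
    · rintro ⟨w, -, hw⟩
      have hw' : Matrix.vecMul (show A.S → ℝ from w) D = e v := hw
      funext i
      show Matrix.vecMul (e v) W i.1 = 0
      rw [← hw', Matrix.vecMul_vecMul, hDW, Matrix.vecMul_zero]
      rfl
  have e1 : Module.finrank ℝ (C.Hk l) = Module.finrank ℝ ({i : r.ι // r.dg i = l} → ℝ) := by
    have e2 := (φ.quotKerEquivOfSurjective hsurj).finrank_eq
    rw [hker] at e2
    exact e2
  unfold BCx.betti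
  rw [e1, Module.finrank_pi]

/-- Upper bound for the torsion in the homology of a tensor product. -/
theorem exists_upper (A : BCx ℤ) : ∃ (N : ℕ) (ι : Type) (_ : Fintype ι) (_ : DecidableEq ι)
    (dg : ι → ℕ), N ≠ 0 ∧ (∀ l, A.betti ℝ l = Fintype.card {i : ι // dg i = l}) ∧
    ∀ (B : BCx ℤ) (k β : ℕ), (∀ (p : ℕ) [Fact p.Prime], p ∣ N → ∀ j ≤ k + 1,
      B.betti (ZMod p) j ≤ β) →
      (A.tens B).torsOrd k ≤ N ^ (Fintype.card A.S * β) *
        ∏ i : {i : ι // dg i ≤ k}, B.torsOrd (k - dg i.1) := by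
  obtain ⟨r⟩ := exists_ret_int A
  refine ⟨r.N, r.ι, r.fin, r.dec, r.dg, r.N_ne, fun l => betti_eq_card A r l, fun B k β hβ => ?_⟩
  have h3 := (r.ret.tens B).torsOrd_le (by exact_mod_cast r.N_ne) k
  refine h3.trans (Nat.mul_le_mul ?_ (torsOrd_tn_zero (zc ℤ r.ι r.dg) B rfl k))
  refine card_torsionBy_le (tn A B) k _ r.N r.N_ne fun p hp hpN => ?_
  exact betti_tens_le_mul (ZMod p) A B (k + 1) β (hβ p hpN)

end Pool.H71.L2
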